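import Pool.Agent.Lib.P4a177f.NearF

/-!
# The bound of the coefficients `co`

Let `a = #near`, `o = #far`, `a + o + 1 = n`, `κ = ∏_{far} τ_k`, `τ_k = g/(|b_k| - g/2)`,
`y_k = 1` for `k ∈ near`, `y_k = τ_k` for `k ∈ far`. CLAIM: `|co b q k m| ≤
C(2m-1, m) g^(-nm) κ^m y_k` for `m ≥ 1`, `k ≠ q`.
PROOF. (1) `∏_{near} pinv (b l)` is dominated by `C (g^(1-a)) * pgeo g` (`near_dom`).
(2) So (`Dom.pow`, `Dom.mul`, `Dom.prod`) `(∏ pinv)^m` is dominated by
`C (g^((1-a)m)) pgeo g ^ m * ∏_{far} pgeo |b_l| ^ m`.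
(3) `pinv (b_k)` is dominated by `C (y_k) * pgeo g`: for `k ∈ near`: `dom_pinv`; for `k ∈ far`:
`1/|b|^(j+1) ≤ (1/(|b| - g/2)) g^(-j) = τ g^(-(j+1))`.
(4) So `|co| ≤ g^((1-a)m) y_k * coeff (m-1) (pgeo g ^ (m+1) * ∏_{far} pgeo |b_l| ^ m)`
`≤ g^((1-a)m) y_k C(2m-1,m) g^(-2m) ∏_{far} (|b_l| - g/2)^(-m)` (`coeff_le`, `ev_mul_le`, `ev_pgeo_le`,
`x = g/2`), and `∏_{far} (|b_l| - g/2)^(-m) = g^(-om) κ^m`; the exponent of `g`:
`(1-a)m - 2m - om = -(a+o+1)m = -nm`.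
-/

set_option autoImplicit false

namespace P4a177f

variable {n : ℕ} {g : ℝ} {b : Fin n → ℝ} {q : Fin n}

namespace CoefAAux

open PowerSeries

theorem coeff_pgeo (c : ℝ) (j : ℕ) : coeff j (pgeo c) = 1 / c ^ (j + 1) := by
  unfold pgeo
  rw [coeff_mk]

theorem coeff_pinv (c : ℝ) (j : ℕ) : coeff j (pinv c) = (-1) ^ j / c ^ (j + 1) := by
  unfold pinv
  rw [coeff_mk]

theorem coeff_mul_nonneg {F G : PowerSeries ℝ} (hF : ∀ j, 0 ≤ coeff j F)
    (hG : ∀ j, 0 ≤ coeff j G) (j : ℕ) : 0 ≤ coeff j (F * G) := by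
  rw [coeff_mul]
  exact Finset.sum_nonneg fun p _ => mul_nonneg (hF _) (hG _)

theorem coeff_one_nonneg (j : ℕ) : 0 ≤ coeff j (1 : PowerSeries ℝ) := by
  rw [coeff_one]
  split_ifs <;> norm_num

theorem coeff_pow_nonneg {F : PowerSeries ℝ} (hF : ∀ j, 0 ≤ coeff j F) (m j : ℕ) :
    0 ≤ coeff j (F ^ m) := by
  induction m generalizing j with
  | zero =>
    rw [pow_zero]
    exact coeff_one_nonneg j
  | succ m ih =>
    rw [pow_succ]
    exact coeff_mul_nonneg ih hF j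

theorem coeff_prod_nonneg {ι : Type*} {F : ι → PowerSeries ℝ} {s : Finset ι}
    (hF : ∀ i ∈ s, ∀ j, 0 ≤ coeff j (F i)) (j : ℕ) : 0 ≤ coeff j (∏ i ∈ s, F i) := by
  classical
  induction s using Finset.induction_on generalizing j with
  | empty =>
    rw [Finset.prod_empty]
    exact coeff_one_nonneg j
  | insert a s ha ih =>
    rw [Finset.prod_insert ha]
    exact coeff_mul_nonneg (hF a (Finset.mem_insert_self a s))
      (ih fun i hi => hF i (Finset.mem_insert_of_mem hi)) j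

theorem ev_nonneg {F : PowerSeries ℝ} (hF : ∀ j, 0 ≤ coeff j F) {x : ℝ} (hx : 0 ≤ x) (M : ℕ) :
    0 ≤ ev M F x := by
  unfold ev
  exact Finset.sum_nonneg fun i _ => mul_nonneg (hF i) (pow_nonneg hx i)

theorem ev_one_le (x : ℝ) (M : ℕ) : ev M 1 x ≤ 1 := by
  unfold ev
  rcases Nat.eq_zero_or_pos M with rfl | hM
  · simp
  · rw [Finset.sum_eq_single 0]
    · simp
    · intro i _ hi
      rw [coeff_one, if_neg hi, zero_mul]
    · intro h
      exact absurd (Finset.mem_range.2 hM) h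

theorem ev_pow_le {F : PowerSeries ℝ} (hF : ∀ j, 0 ≤ coeff j F) {x : ℝ} (hx : 0 ≤ x) (M m : ℕ) :
    ev M (F ^ m) x ≤ ev M F x ^ m := by
  induction m with
  | zero =>
    rw [pow_zero, pow_zero]
    exact ev_one_le x M
  | succ m ih =>
    rw [pow_succ, pow_succ]
    exact (ev_mul_le (coeff_pow_nonneg hF m) hF hx M).trans
      (mul_le_mul_of_nonneg_right ih (ev_nonneg hF hx M))

theorem ev_prod_le {ι : Type*} {F : ι → PowerSeries ℝ} {s : Finset ι}
    (hF : ∀ i ∈ s, ∀ j, 0 ≤ coeff j (F i)) {x : ℝ} (hx : 0 ≤ x) (M : ℕ) {B : ι → ℝ}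
    (hB : ∀ i ∈ s, ev M (F i) x ≤ B i) : ev M (∏ i ∈ s, F i) x ≤ ∏ i ∈ s, B i := by
  classical
  induction s using Finset.induction_on with
  | empty =>
    rw [Finset.prod_empty, Finset.prod_empty]
    exact ev_one_le x M
  | insert a s ha ih =>
    have h1 := hF a (Finset.mem_insert_self a s)
    have h2 : ∀ i ∈ s, ∀ j, 0 ≤ coeff j (F i) := fun i hi => hF i (Finset.mem_insert_of_mem hi)
    have h3 := ih h2 fun i hi => hB i (Finset.mem_insert_of_mem hi)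
    rw [Finset.prod_insert ha, Finset.prod_insert ha]
    refine (ev_mul_le h1 (coeff_prod_nonneg h2) hx M).trans ?_
    exact mul_le_mul (hB a (Finset.mem_insert_self a s)) h3
      (ev_nonneg (coeff_prod_nonneg h2) hx M)
      ((ev_nonneg h1 hx M).trans (hB a (Finset.mem_insert_self a s)))

theorem abs_far {k : Fin n} (hk : k ∈ far g b q) : 2 * g ≤ |b k| :=
  not_lt.1 (Finset.mem_filter.1 hk).2

theorem tau_pos (h : Lst g b q) {k : Fin n} (hk : k ∈ far g b q) : 0 < tau g b k := by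
  unfold tau
  have h1 := abs_far hk
  have h2 := h.pos
  exact div_pos h2 (by linarith)

/-- the factor of a far index -/
theorem dom_far (h : Lst g b q) {k : Fin n} (hk : k ∈ far g b q) :
    Dom (pinv (b k)) (C (tau g b k) * pgeo g) := by
  intro j
  have h1 := abs_far hk
  have h2 := h.pos
  have h3 : 0 < |b k| := by linarith
  have h4 : 0 < |b k| - g / 2 := by linarith
  rw [coeff_pinv, coeff_C_mul, coeff_pgeo, abs_div, abs_pow, abs_pow, abs_neg, abs_one, one_pow]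
  unfold tau
  have h5 : (g / |b k|) ^ j ≤ 1 := pow_le_one₀ (div_nonneg h2.le h3.le)
    ((div_le_one h3).2 (by linarith))
  have h6 : 1 / |b k| ≤ 1 / (|b k| - g / 2) := one_div_le_one_div_of_le h4 (by linarith)
  have e1 : 1 / |b k| ^ (j + 1) = (g / |b k|) ^ j * (1 / |b k|) / g ^ j := by
    rw [div_pow, pow_succ]
    field_simp
  have e2 : g / (|b k| - g / 2) * (1 / g ^ (j + 1)) = 1 * (1 / (|b k| - g / 2)) / g ^ j := by
    rw [pow_succ]
    field_simp
  rw [e1, e2]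
  refine div_le_div_of_nonneg_right ?_ (pow_nonneg h2.le j)
  exact mul_le_mul h5 h6 (by positivity) zero_le_one

theorem prod_split (f : Fin n → PowerSeries ℝ) :
    ∏ l ∈ Finset.univ.erase q, f l = (∏ l ∈ near g b q, f l) * ∏ l ∈ far g b q, f l := by
  unfold near far
  rw [Finset.prod_filter_mul_prod_filter_not]

theorem prod_tau (h : Lst g b q) : ∏ l ∈ far g b q, tau g b l =
    g ^ (far g b q).card * ∏ l ∈ far g b q, 1 / (|b l| - g / 2) := by
  unfold tau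
  rw [← Finset.prod_const, ← Finset.prod_mul_distrib]
  exact Finset.prod_congr rfl fun l _ => by rw [mul_one_div]

theorem co_le (h : Lst g b q) {m : ℕ} (hm : 1 ≤ m) {k : Fin n} {y : ℝ} (hy : 0 ≤ y)
    (hk : Dom (pinv (b k)) (C y * pgeo g)) :
    |co b q k m| ≤ ((2 * m - 1).choose m : ℝ) / (g ^ n) ^ m * (∏ l ∈ far g b q, tau g b l) ^ m *
      y := by
  have hg := h.pos
  obtain ⟨F, hF⟩ : ∃ F : PowerSeries ℝ, F = ∏ l ∈ far g b q, pgeo |b l| := ⟨_, rfl⟩
  obtain ⟨c0, hc0⟩ : ∃ c0 : ℝ, c0 = g / g ^ (near g b q).card := ⟨_, rfl⟩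
  have hc00 : 0 ≤ c0 := by rw [hc0]; positivity
  have hpg : ∀ l ∈ far g b q, ∀ j, 0 ≤ coeff j (pgeo |b l|) := by
    intro l _ j
    rw [coeff_pgeo]
    positivity
  have hFn : ∀ j, 0 ≤ coeff j F := by
    rw [hF]
    exact coeff_prod_nonneg hpg
  have hdom : Dom ((∏ l ∈ Finset.univ.erase q, pinv (b l)) ^ m * pinv (b k))
      ((C c0 * pgeo g * F) ^ m * (C y * pgeo g)) := by
    rw [prod_split (g := g) (b := b), hc0, hF]
    refine Dom.mul (Dom.pow (Dom.mul (near_dom h) (Dom.prod fun l hl => dom_pinv_self ?_)) m) hk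
    have h1 := abs_far hl
    exact abs_pos.1 (by linarith)
  have h1 := hdom (m - 1)
  have e1 : (C c0 * pgeo g * F) ^ m * (C y * pgeo g) =
      C (c0 ^ m * y) * (pgeo g ^ (m + 1) * F ^ m) := by
    rw [mul_pow, mul_pow, map_mul, map_pow, pow_succ]
    ring
  rw [e1, coeff_C_mul] at h1
  have h2 := coeff_le hg (coeff_pow_nonneg hFn m) hm
  have hx : (0 : ℝ) ≤ g / 2 := by linarith
  have h3 : ev m (F ^ m) (g / 2) ≤ (∏ l ∈ far g b q, 1 / (|b l| - g / 2)) ^ m := by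
    refine (ev_pow_le hFn hx m m).trans (pow_le_pow_left₀ (ev_nonneg hFn hx m) ?_ m)
    rw [hF]
    refine ev_prod_le hpg hx m fun l hl => ev_pgeo_le hx ?_ m
    have := abs_far hl
    linarith
  obtain ⟨P, hP⟩ : ∃ P : ℝ, P = ∏ l ∈ far g b q, 1 / (|b l| - g / 2) := ⟨_, rfl⟩
  rw [← hP] at h3
  have hch : (0 : ℝ) ≤ ((2 * m - 1).choose m : ℝ) / g ^ (2 * m) := by positivity
  have h4 : |co b q k m| ≤ c0 ^ m * y * (((2 * m - 1).choose m : ℝ) / g ^ (2 * m) * P ^ m) := by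
    refine h1.trans ?_
    refine mul_le_mul_of_nonneg_left ?_ (mul_nonneg (pow_nonneg hc00 m) hy)
    exact h2.trans (mul_le_mul_of_nonneg_left h3 hch)
  refine h4.trans (le_of_eq ?_)
  rw [prod_tau h, ← hP]
  have hn := near_card_add_far_card h
  obtain ⟨a, ha⟩ : ∃ a : ℕ, a = (near g b q).card := ⟨_, rfl⟩
  obtain ⟨o, ho⟩ : ∃ o : ℕ, o = (far g b q).card := ⟨_, rfl⟩
  rw [← ha, ← ho] at hn
  rw [← ha] at hc0
  rw [← ho]
  have e2 : c0 ^ m / g ^ (2 * m) = (g ^ o) ^ m / (g ^ n) ^ m := by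
    rw [pow_mul, ← div_pow, ← div_pow, ← hn, hc0]
    congr 1
    have hg0 : g ≠ 0 := hg.ne'
    rw [pow_add, pow_add, pow_one]
    field_simp
  calc c0 ^ m * y * (((2 * m - 1).choose m : ℝ) / g ^ (2 * m) * P ^ m)
      = (c0 ^ m / g ^ (2 * m)) * (((2 * m - 1).choose m : ℝ) * P ^ m * y) := by ring
    _ = ((g ^ o) ^ m / (g ^ n) ^ m) * (((2 * m - 1).choose m : ℝ) * P ^ m * y) := by rw [e2]
    _ = ((2 * m - 1).choose m : ℝ) / (g ^ n) ^ m * (g ^ o * P) ^ m * y := by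
        rw [mul_pow]
        ring

end CoefAAux

open CoefAAux

theorem co_le_near (h : Lst g b q) {m : ℕ} (hm : 1 ≤ m) {k : Fin n} (hk : k ∈ near g b q) :
    |co b q k m| ≤ ((2 * m - 1).choose m : ℝ) / (g ^ n) ^ m * (∏ l ∈ far g b q, tau g b l) ^ m := by
  have hkq : k ≠ q := Finset.ne_of_mem_erase (Finset.mem_filter.1 hk).1
  have h1 := co_le h hm (k := k) (y := 1) zero_le_one (by
    rw [map_one, one_mul]
    exact dom_pinv h.pos (le_abs_b h hkq))
  rwa [mul_one] at h1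

theorem co_le_far (h : Lst g b q) {m : ℕ} (hm : 1 ≤ m) {k : Fin n} (hk : k ∈ far g b q) :
    |co b q k m| ≤ ((2 * m - 1).choose m : ℝ) / (g ^ n) ^ m * (∏ l ∈ far g b q, tau g b l) ^ m *
      tau g b k :=
  co_le h hm (tau_pos h hk).le (dom_far h hk)

/-- The coefficient number one exactly. -/
theorem co_one (h : Lst g b q) (k : Fin n) :
    co b q k 1 = (∏ l ∈ Finset.univ.erase q, (b l)⁻¹) * (b k)⁻¹ := by
  have e : ∀ c : ℝ, PowerSeries.constantCoeff (pinv c) = c⁻¹ := by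
    intro c
    rw [← PowerSeries.coeff_zero_eq_constantCoeff_apply, coeff_pinv]
    simp
  unfold co
  rw [Nat.sub_self, PowerSeries.coeff_zero_eq_constantCoeff_apply, pow_one, map_mul, map_prod, e]
  congr 1
  exact Finset.prod_congr rfl fun l _ => e (b l)

end P4a177f
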