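import Mathlib

/-!
# MODULE P4a177f.NumF: two numerical inequalities (est. 0.8 h; elementary, only Mathlib)

PROOF. `prod_le_two`: the at most two factors `> v` are `≤ u`, the others `≤ v ≤ u`; so
`∏ ≤ u^(min o 2) v^(o-2)`, `o = s.card` (if `c ≤ 2` factors are `> v`: `∏ ≤ u^c v^(o-c)`, and
`u^c v^(o-c) ≤ u^(min o 2) v^(o - min o 2)`).
`num_one`: `u = 1/2`, `v = 1/3`; the sum is `≤ 2 + o/2`; `o = 0, 1`: direct; `o = 2 + t`:
`(1/4) (1/3)^t (3 + t/2) ≤ 2 / 2^(1+t)` i.e. `(2/3)^t (3 + t/2) ≤ 4` (`t = 0`: `3`; decreasing).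
(For `a < 2` the exponent `a + o - 3` is smaller and the left side too: it suffices to treat `a = 2`.)
`num_two`: `u = 2/3`, `v = 2/5`; `2 C(2m-1, m) = C(2m, m) ≤ (3/8) 4^m` for `m ≥ 2`
(`Nat.succ_mul_centralBinom_succ`, induction); with `e = a + o - 3`: `x = 2^e ∏ τ ≤ 1`, so
`x^m ≤ x^2`, and `x^2 (a + ∑ τ) < 8/3`: `o = 0`: `2`; `o = 1`: `(4/9)(8/3)`; `o = 2 + t`:
`((8/9) (4/5)^t)^2 (10/3 + 2t/3) ≤ (64/81)(10/3) = 2.6337 < 8/3` (decreasing in `t`).
-/

set_option autoImplicit false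

namespace P4a177f

namespace NumFAux

theorem prod_le_card {ι : Type*} (s : Finset ι) (x : ι → ℝ) {u : ℝ} (h0 : ∀ k ∈ s, 0 ≤ x k)
    (h1 : ∀ k ∈ s, x k ≤ u) : ∏ k ∈ s, x k ≤ u ^ s.card := by
  calc ∏ k ∈ s, x k ≤ ∏ _k ∈ s, u := Finset.prod_le_prod h0 h1
    _ = u ^ s.card := by rw [Finset.prod_const]

theorem dec_one (t : ℕ) : (2 / 3 : ℝ) ^ t * (3 + t / 2) ≤ 3 := by
  induction t with
  | zero => norm_num
  | succ t ih =>
    have h1 : (0 : ℝ) < (2 / 3) ^ t := by positivity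
    have h2 : (0 : ℝ) ≤ t := Nat.cast_nonneg _
    calc (2 / 3 : ℝ) ^ (t + 1) * (3 + ((t + 1 : ℕ) : ℝ) / 2)
        = (2 / 3) ^ t * (2 / 3 * (3 + ((t : ℝ) + 1) / 2)) := by push_cast; ring
      _ ≤ (2 / 3) ^ t * (3 + t / 2) := by
          refine mul_le_mul_of_nonneg_left ?_ h1.le
          linarith
      _ ≤ 3 := ih

theorem dec_two (t : ℕ) : (16 / 25 : ℝ) ^ t * (10 / 3 + 2 * t / 3) ≤ 10 / 3 := by
  induction t with
  | zero => norm_num
  | succ t ih =>
    have h1 : (0 : ℝ) < (16 / 25) ^ t := by positivity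
    have h2 : (0 : ℝ) ≤ t := Nat.cast_nonneg _
    calc (16 / 25 : ℝ) ^ (t + 1) * (10 / 3 + 2 * ((t + 1 : ℕ) : ℝ) / 3)
        = (16 / 25) ^ t * (16 / 25 * (10 / 3 + 2 * ((t : ℝ) + 1) / 3)) := by push_cast; ring
      _ ≤ (16 / 25) ^ t * (10 / 3 + 2 * t / 3) := by
          refine mul_le_mul_of_nonneg_left ?_ h1.le
          linarith
      _ ≤ 10 / 3 := ih

theorem central (m : ℕ) (hm : 2 ≤ m) : (Nat.centralBinom m : ℝ) ≤ 3 / 8 * 4 ^ m := by
  induction m, hm using Nat.le_induction with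
  | base => norm_num [Nat.centralBinom, Nat.choose]
  | succ n _ ih =>
    have h1 : ((n : ℝ) + 1) * (Nat.centralBinom (n + 1) : ℝ) =
        2 * (2 * n + 1) * Nat.centralBinom n := by exact_mod_cast Nat.succ_mul_centralBinom_succ n
    have h2 : (0 : ℝ) ≤ Nat.centralBinom n := Nat.cast_nonneg _
    have h3 : (0 : ℝ) < (n : ℝ) + 1 := by positivity
    have h4 : (Nat.centralBinom (n + 1) : ℝ) ≤ 4 * Nat.centralBinom n := by
      refine le_of_mul_le_mul_left ?_ h3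
      rw [h1]
      nlinarith
    calc (Nat.centralBinom (n + 1) : ℝ) ≤ 4 * Nat.centralBinom n := h4
      _ ≤ 4 * (3 / 8 * 4 ^ n) := by gcongr
      _ = 3 / 8 * 4 ^ (n + 1) := by ring

theorem two_choose (m : ℕ) (hm : 1 ≤ m) : 2 * (2 * m - 1).choose m = Nat.centralBinom m := by
  obtain ⟨n, rfl⟩ : ∃ n, m = n + 1 := ⟨m - 1, by omega⟩
  have h1 : 2 * (n + 1) - 1 = 2 * n + 1 := by omega
  have h2 : 2 * (n + 1) = (2 * n + 1) + 1 := by ring
  have h3 : (2 * n + 1 + 1).choose (n + 1) = (2 * n + 1).choose n + (2 * n + 1).choose (n + 1) :=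
    Nat.choose_succ_succ _ _
  have h4 := Nat.choose_symm_half n
  rw [h1, Nat.centralBinom, h2, h3, h4]
  ring

end NumFAux

open NumFAux

theorem prod_le_two {ι : Type*} (s : Finset ι) (x : ι → ℝ) {u v : ℝ} (hv : 0 ≤ v) (huv : v ≤ u)
    (h0 : ∀ k ∈ s, 0 ≤ x k) (h1 : ∀ k ∈ s, x k ≤ u)
    (h2 : (s.filter fun k => v < x k).card ≤ 2) :
    ∏ k ∈ s, x k ≤ u ^ (min s.card 2) * v ^ (s.card - 2) := by
  classical
  have hu : 0 ≤ u := hv.trans huv
  set c := (s.filter fun k => v < x k).card with hc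
  have hcs : c ≤ s.card := Finset.card_filter_le _ _
  have hcc : c + (s.filter fun k => ¬ v < x k).card = s.card := by
    rw [hc]
    exact Finset.card_filter_add_card_filter_not (s := s) (fun k => v < x k)
  have h3 : ∏ k ∈ s.filter (fun k => v < x k), x k ≤ u ^ c :=
    prod_le_card _ x (fun k hk => h0 k (Finset.mem_filter.1 hk).1)
      (fun k hk => h1 k (Finset.mem_filter.1 hk).1)
  have h4 : ∏ k ∈ s.filter (fun k => ¬ v < x k), x k ≤ v ^ (s.card - c) := by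
    have h5 := prod_le_card (s.filter (fun k => ¬ v < x k)) x (u := v)
      (fun k hk => h0 k (Finset.mem_filter.1 hk).1)
      (fun k hk => not_lt.1 (Finset.mem_filter.1 hk).2)
    have h6 : (s.filter fun k => ¬ v < x k).card = s.card - c := by omega
    rwa [h6] at h5
  have h7 : 0 ≤ ∏ k ∈ s.filter (fun k => ¬ v < x k), x k :=
    Finset.prod_nonneg fun k hk => h0 k (Finset.mem_filter.1 hk).1
  rw [← Finset.prod_filter_mul_prod_filter_not s (fun k => v < x k) x]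
  calc _ ≤ u ^ c * v ^ (s.card - c) := mul_le_mul h3 h4 h7 (pow_nonneg hu _)
    _ = u ^ c * v ^ (min s.card 2 - c) * v ^ (s.card - 2) := by
        rw [mul_assoc, ← pow_add]
        congr 2
        omega
    _ ≤ u ^ c * u ^ (min s.card 2 - c) * v ^ (s.card - 2) := by gcongr
    _ = u ^ (min s.card 2) * v ^ (s.card - 2) := by
        rw [← pow_add]
        congr 2
        omega

theorem num_one {ι : Type*} (s : Finset ι) (x : ι → ℝ) (h0 : ∀ k ∈ s, 0 < x k)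
    (h1 : ∀ k ∈ s, x k ≤ 1 / 2) (h2 : (s.filter fun k => 1 / 3 < x k).card ≤ 2) {a : ℕ}
    (ha : a ≤ 2) :
    (∏ k ∈ s, x k) * (a + ∑ k ∈ s, x k) ≤ 2 / 2 ^ (a + s.card - 3) := by
  have hP := prod_le_two s x (u := 1 / 2) (v := 1 / 3) (by norm_num) (by norm_num)
    (fun k hk => (h0 k hk).le) h1 h2
  have hP0 : 0 ≤ ∏ k ∈ s, x k := Finset.prod_nonneg fun k hk => (h0 k hk).le
  have hS : ∑ k ∈ s, x k ≤ s.card * (1 / 2) := by
    have := Finset.sum_le_card_nsmul s x (1 / 2) h1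
    rwa [nsmul_eq_mul] at this
  have hS0 : 0 ≤ ∑ k ∈ s, x k := Finset.sum_nonneg fun k hk => (h0 k hk).le
  have ha' : (a : ℝ) ≤ 2 := by exact_mod_cast ha
  have ha0 : (0 : ℝ) ≤ a := Nat.cast_nonneg _
  obtain ho | ho | ho : s.card = 0 ∨ s.card = 1 ∨ 2 ≤ s.card := by omega
  · have he : a + s.card - 3 = 0 := by omega
    rw [he, pow_zero, div_one]
    rw [ho] at hP hS
    norm_num at hP hS
    nlinarith
  · have he : a + s.card - 3 = 0 := by omega
    rw [he, pow_zero, div_one]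
    rw [ho] at hP hS
    norm_num at hP hS
    nlinarith
  · obtain ⟨t, ht⟩ : ∃ t, s.card = 2 + t := ⟨s.card - 2, by omega⟩
    have e1 : min s.card 2 = 2 := by omega
    have e2 : s.card - 2 = t := by omega
    rw [e1, e2] at hP
    have hS' : (a : ℝ) + ∑ k ∈ s, x k ≤ 3 + t / 2 := by
      rw [ht] at hS
      push_cast at hS
      linarith
    have hd := dec_one t
    have hpow : (2 : ℝ) ^ (a + s.card - 3) ≤ 2 ^ (t + 1) :=
      pow_le_pow_right₀ (by norm_num) (by omega)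
    calc (∏ k ∈ s, x k) * (a + ∑ k ∈ s, x k)
        ≤ ((1 / 2) ^ 2 * (1 / 3) ^ t) * (3 + t / 2) :=
          mul_le_mul hP hS' (by positivity) (by positivity)
      _ = (1 / 4) * ((2 / 3) ^ t * (3 + t / 2)) / 2 ^ t := by
          rw [div_pow, div_pow, div_pow, one_pow, one_pow]
          field_simp
          ring
      _ ≤ (1 / 4) * 3 / 2 ^ t := by gcongr
      _ ≤ 1 / 2 ^ t := by gcongr; norm_num
      _ = 2 / 2 ^ (t + 1) := by rw [pow_succ]; field_simp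
      _ ≤ 2 / 2 ^ (a + s.card - 3) := by gcongr

theorem num_two {ι : Type*} (s : Finset ι) (x : ι → ℝ) (h0 : ∀ k ∈ s, 0 < x k)
    (h1 : ∀ k ∈ s, x k ≤ 2 / 3) (h2 : (s.filter fun k => 2 / 5 < x k).card ≤ 2) {a : ℕ}
    (ha : a ≤ 2) {m : ℕ} (hm : 2 ≤ m) :
    2 * ((2 * m - 1).choose m : ℝ) * (∏ k ∈ s, x k) ^ m * (a + ∑ k ∈ s, x k) <
      (4 / 2 ^ (a + s.card - 3)) ^ m := by
  have hP := prod_le_two s x (u := 2 / 3) (v := 2 / 5) (by norm_num) (by norm_num)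
    (fun k hk => (h0 k hk).le) h1 h2
  have hP0 : 0 < ∏ k ∈ s, x k := Finset.prod_pos fun k hk => h0 k hk
  have hS : ∑ k ∈ s, x k ≤ s.card * (2 / 3) := by
    have := Finset.sum_le_card_nsmul s x (2 / 3) h1
    rwa [nsmul_eq_mul] at this
  have hS0 : 0 ≤ ∑ k ∈ s, x k := Finset.sum_nonneg fun k hk => (h0 k hk).le
  have ha' : (a : ℝ) ≤ 2 := by exact_mod_cast ha
  have ha0 : (0 : ℝ) ≤ a := Nat.cast_nonneg _
  set e := a + s.card - 3 with he
  set X : ℝ := 2 ^ e * ∏ k ∈ s, x k with hX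
  have hX0 : 0 < X := by positivity
  -- the two facts on `X`
  have hfact : X ≤ 1 ∧ X ^ 2 * (a + ∑ k ∈ s, x k) < 8 / 3 := by
    obtain ho | ho | ho : s.card = 0 ∨ s.card = 1 ∨ 2 ≤ s.card := by omega
    · have he0 : e = 0 := by omega
      have hs : s = ∅ := Finset.card_eq_zero.1 ho
      have hX1 : X = 1 := by rw [hX, he0, hs]; simp
      refine ⟨hX1.le, ?_⟩
      rw [hX1, hs]
      simp only [Finset.sum_empty, add_zero, one_pow, one_mul]
      linarith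
    · have he0 : e = 0 := by omega
      rw [ho] at hP hS
      norm_num at hP hS
      have hX1 : X ≤ 2 / 3 := by rw [hX, he0, pow_zero, one_mul]; exact hP
      refine ⟨by linarith, ?_⟩
      have h3 : X ^ 2 ≤ (2 / 3) ^ 2 := by gcongr
      have h4 : (a : ℝ) + ∑ k ∈ s, x k ≤ 8 / 3 := by linarith
      calc X ^ 2 * (a + ∑ k ∈ s, x k) ≤ (2 / 3) ^ 2 * (8 / 3) :=
            mul_le_mul h3 h4 (by positivity) (by positivity)
        _ < 8 / 3 := by norm_num
    · obtain ⟨t, ht⟩ : ∃ t, s.card = 2 + t := ⟨s.card - 2, by omega⟩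
      have e1 : min s.card 2 = 2 := by omega
      have e2 : s.card - 2 = t := by omega
      rw [e1, e2] at hP
      have hS' : (a : ℝ) + ∑ k ∈ s, x k ≤ 10 / 3 + 2 * t / 3 := by
        rw [ht] at hS
        push_cast at hS
        linarith
      have hpow : (2 : ℝ) ^ e ≤ 2 ^ (t + 1) := pow_le_pow_right₀ (by norm_num) (by omega)
      have hX1 : X ≤ 8 / 9 * (4 / 5) ^ t := by
        calc X ≤ 2 ^ (t + 1) * ((2 / 3) ^ 2 * (2 / 5) ^ t) :=
              mul_le_mul hpow hP hP0.le (by positivity)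
          _ = 8 / 9 * (2 * (2 / 5)) ^ t := by rw [mul_pow]; ring
          _ = 8 / 9 * (4 / 5) ^ t := by norm_num
      refine ⟨?_, ?_⟩
      · have h3 : (4 / 5 : ℝ) ^ t ≤ 1 := pow_le_one₀ (by norm_num) (by norm_num)
        linarith
      · have hd := dec_two t
        have h3 : X ^ 2 ≤ (8 / 9 * (4 / 5) ^ t) ^ 2 := by gcongr
        have h4 : (8 / 9 * (4 / 5 : ℝ) ^ t) ^ 2 = 64 / 81 * (16 / 25) ^ t := by
          rw [mul_pow, ← pow_mul, mul_comm t 2, pow_mul]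
          norm_num
        calc X ^ 2 * (a + ∑ k ∈ s, x k)
            ≤ (64 / 81 * (16 / 25) ^ t) * (10 / 3 + 2 * t / 3) := by
              rw [← h4]
              exact mul_le_mul h3 hS' (by positivity) (by positivity)
          _ = 64 / 81 * ((16 / 25) ^ t * (10 / 3 + 2 * t / 3)) := by ring
          _ ≤ 64 / 81 * (10 / 3) := by gcongr
          _ < 8 / 3 := by norm_num
  have hXm : X ^ m ≤ X ^ 2 := pow_le_pow_of_le_one hX0.le hfact.1 hm
  have hcb : 2 * ((2 * m - 1).choose m : ℝ) ≤ 3 / 8 * 4 ^ m := by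
    have h3 := central m hm
    rw [← two_choose m (by omega)] at h3
    exact_mod_cast h3
  have h2e : (0 : ℝ) < 2 ^ e := by positivity
  have hE : (∏ k ∈ s, x k) ^ m = X ^ m / (2 ^ e) ^ m := by
    rw [hX, mul_pow, mul_div_cancel_left₀]
    positivity
  rw [hE, div_pow]
  have h4 : X ^ m * (a + ∑ k ∈ s, x k) < 8 / 3 := by
    refine lt_of_le_of_lt ?_ hfact.2
    gcongr
  have h5 : 0 ≤ X ^ m * (a + ∑ k ∈ s, x k) := by positivity
  calc 2 * ((2 * m - 1).choose m : ℝ) * (X ^ m / (2 ^ e) ^ m) * (a + ∑ k ∈ s, x k)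
      = 2 * ((2 * m - 1).choose m : ℝ) * (X ^ m * (a + ∑ k ∈ s, x k)) / (2 ^ e) ^ m := by ring
    _ ≤ 3 / 8 * 4 ^ m * (X ^ m * (a + ∑ k ∈ s, x k)) / (2 ^ e) ^ m := by gcongr
    _ < 3 / 8 * 4 ^ m * (8 / 3) / (2 ^ e) ^ m := by gcongr
    _ = 4 ^ m / (2 ^ e) ^ m := by ring

end P4a177f
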