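import Pool.Agent.Lib.P4a177f.CoefA
import Pool.Agent.Lib.P4a177f.NumF

/-!
# MODULE P4a177f.CoefF: the sums of the absolute values of the coefficients (est. 0.8 h)

PROOF. `hc_sum`: definition (`Finset.add_sum_erase`). Hence `|hc b q q m| ≤ ∑_{k ≠ q} |co b q k m|` and
`∑ k, |hc b q k m| ≤ 2 ∑_{k≠q} |co b q k m|`; `univ.erase q` is the disjoint union of `near` and `far`.
`m ≥ 2`: `co_le_near`, `co_le_far`: the sum over `k ≠ q` is at most
`C(2m-1, m)/(g^n)^m (∏_{far} τ)^m (a + ∑_{far} τ)`, `a = #near ≤ 2`; `num_two` with `s = far`, `x = τ`: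
for `k ∈ far`: `|b_k| ≥ 2g`, so `0 < τ_k ≤ g/(3g/2) = 2/3`, and `2/5 < τ_k` implies `|b_k| < 3g`
(`mid_card`); `a + #far - 3 = n - 4` (`near_card_add_far_card`), `RR g n = g^n 2^(n-4)/4`.
`m = 1`: `co_one`: `2 ∑_{k≠q} |co b q k 1| = 2 ∏_{l≠q} 1/|b_l| * ∑_{k≠q} 1/|b_k|`; with
`x_k = g/|b_k|`, `≤ 1` for `k ∈ near`, `≤ 1/2` for `k ∈ far`, `> 1/3` only if `|b_k| < 3g`:
`= 2 g^(-n) (∏ x)(∑ x) ≤ 2 g^(-n) (∏_{far} x)(a + ∑_{far} x) ≤ 4 g^(-n) / 2^(n-4)` (`num_one`).
-/

set_option autoImplicit false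

namespace P4a177f

variable {n : ℕ} {g : ℝ} {b : Fin n → ℝ} {q : Fin n}

theorem RR_pos (h : Lst g b q) : 0 < RR g n := by
  have := h.pos
  unfold RR
  positivity

theorem hc_sum (b : Fin n → ℝ) (q : Fin n) (m : ℕ) : ∑ k, hc b q k m = 0 := by
  rw [← Finset.add_sum_erase Finset.univ _ (Finset.mem_univ q)]
  have e : ∑ x ∈ Finset.univ.erase q, hc b q x m = ∑ x ∈ Finset.univ.erase q, co b q x m := by
    refine Finset.sum_congr rfl fun x hx => ?_
    unfold hc
    rw [if_neg (Finset.ne_of_mem_erase hx)]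
  rw [e]
  unfold hc
  rw [if_pos rfl]
  ring

namespace CoefFAux

/-- the sum of all is at most twice the sum over the `k ≠ q` -/
theorem sum_le_two (b : Fin n → ℝ) (q : Fin n) (m : ℕ) :
    ∑ k, |hc b q k m| ≤ 2 * ∑ k ∈ Finset.univ.erase q, |co b q k m| := by
  rw [← Finset.add_sum_erase Finset.univ _ (Finset.mem_univ q)]
  have e : ∑ x ∈ Finset.univ.erase q, |hc b q x m| = ∑ x ∈ Finset.univ.erase q, |co b q x m| := by
    refine Finset.sum_congr rfl fun x hx => ?_
    unfold hc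
    rw [if_neg (Finset.ne_of_mem_erase hx)]
  rw [e]
  have e2 : |hc b q q m| ≤ ∑ x ∈ Finset.univ.erase q, |co b q x m| := by
    unfold hc
    rw [if_pos rfl, abs_neg]
    exact Finset.abs_sum_le_sum_abs _ _
  linarith

theorem sum_split (f : Fin n → ℝ) :
    ∑ l ∈ Finset.univ.erase q, f l = (∑ l ∈ near g b q, f l) + ∑ l ∈ far g b q, f l := by
  unfold near far
  rw [Finset.sum_filter_add_sum_filter_not]

theorem prod_split' (f : Fin n → ℝ) :
    ∏ l ∈ Finset.univ.erase q, f l = (∏ l ∈ near g b q, f l) * ∏ l ∈ far g b q, f l := by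
  unfold near far
  rw [Finset.prod_filter_mul_prod_filter_not]

/-- at most two of the far ones are less than `3g` -/
theorem far_mid (h : Lst g b q) (P : Fin n → Prop) [DecidablePred P]
    (hP : ∀ k ∈ far g b q, P k → |b k| < 3 * g) : ((far g b q).filter P).card ≤ 2 := by
  refine (Finset.card_le_card ?_).trans (mid_card h)
  intro k hk
  rw [Finset.mem_filter] at hk
  have h1 := hk.1
  unfold far at h1
  rw [Finset.mem_filter] at h1 ⊢
  exact ⟨h1.1, not_lt.1 h1.2, hP k hk.1 hk.2⟩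

theorem expo (h : Lst g b q) : (near g b q).card + (far g b q).card - 3 = n - 4 := by
  have := near_card_add_far_card h
  omega

theorem two_lt (h : Lst g b q) {m : ℕ} (hm : 2 ≤ m) :
    2 * ∑ k ∈ Finset.univ.erase q, |co b q k m| < (1 / RR g n) ^ m := by
  have hg := h.pos
  have hm1 : 1 ≤ m := by omega
  obtain ⟨c, hc⟩ : ∃ c : ℝ, c = ((2 * m - 1).choose m : ℝ) / (g ^ n) ^ m *
    (∏ l ∈ far g b q, tau g b l) ^ m := ⟨_, rfl⟩
  have h1 : ∑ k ∈ Finset.univ.erase q, |co b q k m| ≤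
      c * ((near g b q).card + ∑ k ∈ far g b q, tau g b k) := by
    rw [sum_split (g := g) (b := b), mul_add, Finset.mul_sum]
    refine add_le_add ?_ (Finset.sum_le_sum fun k hk => ?_)
    · refine (Finset.sum_le_card_nsmul _ _ c fun k hk => ?_).trans (le_of_eq ?_)
      · rw [hc]
        exact co_le_near h hm1 hk
      · rw [nsmul_eq_mul, mul_comm]
    · rw [hc]
      exact co_le_far h hm1 hk
  have h2 := num_two (far g b q) (tau g b) (fun k hk => CoefAAux.tau_pos h hk) (fun k hk => by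
      have := CoefAAux.abs_far hk
      unfold tau
      rw [div_le_iff₀ (by linarith)]
      linarith) (far_mid h _ fun k hk hk' => by
      have := CoefAAux.abs_far hk
      unfold tau at hk'
      rw [lt_div_iff₀ (by linarith)] at hk'
      linarith) (near_card h) hm
  rw [expo h] at h2
  have hgn : 0 < (g ^ n) ^ m := by positivity
  have e : (1 / RR g n) ^ m = (4 / 2 ^ (n - 4)) ^ m / (g ^ n) ^ m := by
    unfold RR
    rw [← div_pow]
    congr 1
    field_simp
  rw [e, lt_div_iff₀ hgn]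
  refine lt_of_le_of_lt ?_ h2
  calc 2 * (∑ k ∈ Finset.univ.erase q, |co b q k m|) * (g ^ n) ^ m
      ≤ 2 * (c * ((near g b q).card + ∑ k ∈ far g b q, tau g b k)) * (g ^ n) ^ m := by
        gcongr
    _ = _ := by
        rw [hc]
        field_simp

theorem one_le (h : Lst g b q) :
    2 * ∑ k ∈ Finset.univ.erase q, |co b q k 1| ≤ 1 / RR g n := by
  have hg := h.pos
  obtain ⟨x, hx⟩ : ∃ x : Fin n → ℝ, x = fun k => g / |b k| := ⟨_, rfl⟩
  have hxk : ∀ k, x k = g / |b k| := fun k => by rw [hx]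
  have hb : ∀ k ∈ Finset.univ.erase q, 0 < |b k| := fun k hk =>
    abs_pos.2 (b_ne_zero h (Finset.ne_of_mem_erase hk))
  have hcard : (Finset.univ.erase q).card = n - 1 := by
    rw [Finset.card_erase_of_mem (Finset.mem_univ q), Finset.card_univ, Fintype.card_fin]
  have hx0 : ∀ k ∈ Finset.univ.erase q, 0 < x k := fun k hk => by
    rw [hxk]
    exact div_pos hg (hb k hk)
  have e1 : g ^ n * ∑ k ∈ Finset.univ.erase q, |co b q k 1| =
      (∏ l ∈ Finset.univ.erase q, x l) * ∑ k ∈ Finset.univ.erase q, x k := by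
    have e2 : ∀ k, |co b q k 1| = (∏ l ∈ Finset.univ.erase q, |b l|⁻¹) * |b k|⁻¹ := by
      intro k
      rw [co_one h k, abs_mul, Finset.abs_prod, abs_inv]
      congr 1
      exact Finset.prod_congr rfl fun l _ => abs_inv _
    have e3 : ∏ l ∈ Finset.univ.erase q, x l =
        g ^ (n - 1) * ∏ l ∈ Finset.univ.erase q, |b l|⁻¹ := by
      rw [← hcard, ← Finset.prod_const, ← Finset.prod_mul_distrib]
      exact Finset.prod_congr rfl fun l _ => by rw [hxk, div_eq_mul_inv]
    have e4 : ∑ k ∈ Finset.univ.erase q, x k = g * ∑ k ∈ Finset.univ.erase q, |b k|⁻¹ := by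
      rw [Finset.mul_sum]
      exact Finset.sum_congr rfl fun l _ => by rw [hxk, div_eq_mul_inv]
    have e5 : ∑ k ∈ Finset.univ.erase q, |co b q k 1| =
        (∏ l ∈ Finset.univ.erase q, |b l|⁻¹) * ∑ k ∈ Finset.univ.erase q, |b k|⁻¹ := by
      rw [Finset.mul_sum]
      exact Finset.sum_congr rfl fun k _ => e2 k
    have e6 : g ^ n = g ^ (n - 1) * g := by
      rw [← pow_succ]
      congr 1
      have := h.two_le
      omega
    rw [e3, e4, e5, e6]
    ring
  have hnear : ∀ k ∈ near g b q, k ∈ Finset.univ.erase q := fun k hk =>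
    (Finset.mem_filter.1 hk).1
  have hfar : ∀ k ∈ far g b q, k ∈ Finset.univ.erase q := fun k hk =>
    (Finset.mem_filter.1 hk).1
  have hn1 : ∀ k ∈ near g b q, x k ≤ 1 := fun k hk => by
    rw [hxk, div_le_one (hb k (hnear k hk))]
    exact le_abs_b h (Finset.ne_of_mem_erase (hnear k hk))
  have h1 : ∏ l ∈ Finset.univ.erase q, x l ≤ ∏ l ∈ far g b q, x l := by
    rw [prod_split' (g := g) (b := b)]
    refine mul_le_of_le_one_left
      (Finset.prod_nonneg fun k hk => (hx0 k (hfar k hk)).le) ?_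
    exact Finset.prod_le_one (fun k hk => (hx0 k (hnear k hk)).le) hn1
  have h2 : ∑ l ∈ Finset.univ.erase q, x l ≤ (near g b q).card + ∑ l ∈ far g b q, x l := by
    rw [sum_split (g := g) (b := b)]
    refine add_le_add ?_ le_rfl
    refine (Finset.sum_le_card_nsmul _ _ 1 hn1).trans (le_of_eq ?_)
    rw [nsmul_eq_mul, mul_one]
  have h3 := num_one (far g b q) x (fun k hk => hx0 k (hfar k hk)) (fun k hk => by
      have := CoefAAux.abs_far hk
      rw [hxk, div_le_iff₀ (hb k (hfar k hk))]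
      linarith) (far_mid h _ fun k hk hk' => by
      have := hb k (hfar k hk)
      rw [hxk, lt_div_iff₀ this] at hk'
      linarith) (near_card h)
  rw [expo h] at h3
  have h4 : (∏ l ∈ Finset.univ.erase q, x l) * ∑ k ∈ Finset.univ.erase q, x k ≤
      2 / 2 ^ (n - 4) := by
    refine le_trans ?_ h3
    exact mul_le_mul h1 h2 (Finset.sum_nonneg fun k hk => (hx0 k hk).le)
      (Finset.prod_nonneg fun k hk => (hx0 k (hfar k hk)).le)
  rw [← e1] at h4
  have hgn : 0 < g ^ n := by positivity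
  have e : 1 / RR g n = 2 * (2 / 2 ^ (n - 4)) / g ^ n := by
    unfold RR
    field_simp
    norm_num
  rw [e, le_div_iff₀ hgn]
  calc 2 * (∑ k ∈ Finset.univ.erase q, |co b q k 1|) * g ^ n
      = 2 * (g ^ n * ∑ k ∈ Finset.univ.erase q, |co b q k 1|) := by ring
    _ ≤ 2 * (2 / 2 ^ (n - 4)) := by gcongr

end CoefFAux

open CoefFAux

theorem hc_bound (h : Lst g b q) {m : ℕ} (hm : 1 ≤ m) :
    ∑ k, |hc b q k m| ≤ (1 / RR g n) ^ m := by
  refine (sum_le_two b q m).trans ?_
  rcases Nat.lt_or_ge m 2 with h2 | h2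
  · obtain rfl : m = 1 := by omega
    rw [pow_one]
    exact one_le h
  · exact (two_lt h h2).le

theorem hc_bound_two (h : Lst g b q) : ∑ k, |hc b q k 2| < (1 / RR g n) ^ 2 :=
  (sum_le_two b q 2).trans_lt (two_lt h le_rfl)

theorem hc_le (h : Lst g b q) (k : Fin n) {m : ℕ} (hm : 1 ≤ m) :
    |hc b q k m| ≤ (1 / RR g n) ^ m :=
  (Finset.single_le_sum (f := fun k => |hc b q k m|) (fun _ _ => abs_nonneg _)
    (Finset.mem_univ k)).trans (hc_bound h hm)

end P4a177f
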