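import Pool.Agent.Lib.P4a177f.Defs

/-!
# P4a177f.CountF: how many numbers of a list are near to `b_q = 0`
-/

set_option autoImplicit false

namespace P4a177f

variable {n : ℕ} {g : ℝ} {b : Fin n → ℝ} {q : Fin n}

theorem le_abs_b (h : Lst g b q) {k : Fin n} (hk : k ≠ q) : g ≤ |b k| := by
  have h1 := h.gap k q hk
  rwa [h.zero, sub_zero] at h1

theorem b_ne_zero (h : Lst g b q) {k : Fin n} (hk : k ≠ q) : b k ≠ 0 := by
  intro h0
  have h1 := le_abs_b h hk
  rw [h0, abs_zero] at h1
  have := h.pos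
  linarith

namespace CountFAux

/-- two different numbers whose absolute values lie in an interval of length `g` have opposite
signs -/
theorem opp (h : Lst g b q) {k l : Fin n} {u : ℝ} (hu : 0 < u) (hk : u ≤ |b k|)
    (hk' : |b k| < u + g) (hl : u ≤ |b l|) (hl' : |b l| < u + g) (hkl : k ≠ l) :
    b k * b l < 0 := by
  have h1 := h.gap k l hkl
  have hp := h.pos
  rcases le_or_gt 0 (b k) with hb | hb <;> rcases le_or_gt 0 (b l) with hc | hc
  · rw [abs_of_nonneg hb] at hk hk'
    rw [abs_of_nonneg hc] at hl hl'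
    rcases abs_cases (b k - b l) with ⟨h2, _⟩ | ⟨h2, _⟩ <;> linarith
  · rw [abs_of_nonneg hb] at hk
    exact mul_neg_of_pos_of_neg (by linarith) hc
  · rw [abs_of_nonneg hc] at hl
    exact mul_neg_of_neg_of_pos hb (by linarith)
  · rw [abs_of_neg hb] at hk hk'
    rw [abs_of_neg hc] at hl hl'
    rcases abs_cases (b k - b l) with ⟨h2, _⟩ | ⟨h2, _⟩ <;> linarith

/-- at most two numbers with pairwise opposite signs -/
theorem card_le_two_of_opp (s : Finset (Fin n))
    (hs : ∀ k ∈ s, ∀ l ∈ s, k ≠ l → b k * b l < 0) : s.card ≤ 2 := by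
  by_contra hc
  push Not at hc
  obtain ⟨x, y, z, hx, hy, hz, hxy, hxz, hyz⟩ := Finset.two_lt_card_iff.1 hc
  have h1 := hs x hx y hy hxy
  have h2 := hs x hx z hz hxz
  have h3 := hs y hy z hz hyz
  have h4 : 0 < b x * b y * (b x * b z) := mul_pos_of_neg_of_neg h1 h2
  have h5 : b x * b y * (b x * b z) * (b y * b z) < 0 := mul_neg_of_pos_of_neg h4 h3
  nlinarith [sq_nonneg (b x * b y * b z)]

end CountFAux

open CountFAux

theorem near_opp (h : Lst g b q) {k l : Fin n} (hk : k ∈ near g b q) (hl : l ∈ near g b q)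
    (hkl : k ≠ l) : b k * b l < 0 := by
  unfold near at hk hl
  rw [Finset.mem_filter, Finset.mem_erase] at hk hl
  have hp := h.pos
  exact opp h hp (le_abs_b h hk.1.1) (by linarith [hk.2]) (le_abs_b h hl.1.1)
    (by linarith [hl.2]) hkl

theorem near_card (h : Lst g b q) : (near g b q).card ≤ 2 :=
  card_le_two_of_opp (b := b) _ fun _ hk _ hl hkl => near_opp h hk hl hkl

theorem mid_card (h : Lst g b q) :
    ((Finset.univ.erase q).filter fun k => 2 * g ≤ |b k| ∧ |b k| < 3 * g).card ≤ 2 := by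
  refine card_le_two_of_opp (b := b) _ fun k hk l hl hkl => ?_
  rw [Finset.mem_filter] at hk hl
  have hp := h.pos
  exact opp h (u := 2 * g) (by linarith) hk.2.1 (by linarith [hk.2.2]) hl.2.1
    (by linarith [hl.2.2]) hkl

theorem near_card_add_far_card (h : Lst g b q) :
    (near g b q).card + (far g b q).card + 1 = n := by
  unfold near far
  rw [Finset.card_filter_add_card_filter_not, Finset.card_erase_of_mem (Finset.mem_univ q),
    Finset.card_univ, Fintype.card_fin]
  have := h.two_le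
  omega

/-- Numbers with gaps at least `g` and at distance at least `g/2` from `x`: at most four are at
distance less than `5g/2`. -/
theorem card_five {m : ℕ} {g : ℝ} (hg : 0 < g) (a : Fin m → ℝ)
    (hgap : ∀ i j, i ≠ j → g ≤ |a i - a j|) (x : ℝ) (hx : ∀ i, g / 2 ≤ |x - a i|) :
    (Finset.univ.filter fun i => |x - a i| < 5 * g / 2).card ≤ 4 := by
  classical
  have hone : ∀ u : ℝ, (Finset.univ.filter fun i => u ≤ a i ∧ a i < u + g).card ≤ 1 := by
    intro u
    rw [Finset.card_le_one]
    intro i hi j hj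
    rw [Finset.mem_filter] at hi hj
    by_contra hij
    have h1 := hgap i j hij
    rcases abs_cases (a i - a j) with ⟨h2, _⟩ | ⟨h2, _⟩ <;> linarith [hi.2.1, hi.2.2, hj.2.1, hj.2.2]
  have hone' : ∀ u : ℝ, (Finset.univ.filter fun i => u < a i ∧ a i ≤ u + g).card ≤ 1 := by
    intro u
    rw [Finset.card_le_one]
    intro i hi j hj
    rw [Finset.mem_filter] at hi hj
    by_contra hij
    have h1 := hgap i j hij
    rcases abs_cases (a i - a j) with ⟨h2, _⟩ | ⟨h2, _⟩ <;> linarith [hi.2.1, hi.2.2, hj.2.1, hj.2.2]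
  have hsub : (Finset.univ.filter fun i => |x - a i| < 5 * g / 2) ⊆
      ((Finset.univ.filter fun i => x + g / 2 ≤ a i ∧ a i < x + g / 2 + g) ∪
        (Finset.univ.filter fun i => x + 3 * g / 2 ≤ a i ∧ a i < x + 3 * g / 2 + g)) ∪
      ((Finset.univ.filter fun i => x - 3 * g / 2 < a i ∧ a i ≤ x - 3 * g / 2 + g) ∪
        (Finset.univ.filter fun i => x - 5 * g / 2 < a i ∧ a i ≤ x - 5 * g / 2 + g)) := by
    intro i hi
    rw [Finset.mem_filter] at hi
    have h1 := hx i
    have h2 := hi.2
    simp only [Finset.mem_union, Finset.mem_filter, Finset.mem_univ, true_and]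
    rcases abs_cases (x - a i) with ⟨h3, _⟩ | ⟨h3, _⟩
    · rw [h3] at h1 h2
      rcases lt_or_ge (x - 3 * g / 2) (a i) with h4 | h4
      · exact Or.inr (Or.inl ⟨h4, by linarith⟩)
      · exact Or.inr (Or.inr ⟨by linarith, by linarith⟩)
    · rw [h3] at h1 h2
      rcases lt_or_ge (a i) (x + 3 * g / 2) with h4 | h4
      · exact Or.inl (Or.inl ⟨by linarith, by linarith⟩)
      · exact Or.inl (Or.inr ⟨h4, by linarith⟩)
  refine (Finset.card_le_card hsub).trans ?_
  refine (Finset.card_union_le _ _).trans ?_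
  have e1 := Finset.card_union_le
    (Finset.univ.filter fun i => x + g / 2 ≤ a i ∧ a i < x + g / 2 + g)
    (Finset.univ.filter fun i => x + 3 * g / 2 ≤ a i ∧ a i < x + 3 * g / 2 + g)
  have e2 := Finset.card_union_le
    (Finset.univ.filter fun i => x - 3 * g / 2 < a i ∧ a i ≤ x - 3 * g / 2 + g)
    (Finset.univ.filter fun i => x - 5 * g / 2 < a i ∧ a i ≤ x - 5 * g / 2 + g)
  have f1 := hone (x + g / 2)
  have f2 := hone (x + 3 * g / 2)
  have f3 := hone' (x - 3 * g / 2)
  have f4 := hone' (x - 5 * g / 2)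
  omega

end P4a177f
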