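import Pool.Agent.Lib.P4a177f.CountF

/-!
# P4a177f.CritF: the critical values

PROOF. `c` is real and `x := c` satisfies `∑ 1/(x - a_i) = 0`, `x ≠ a_i`. There are roots on both sides
of `x` (else all the terms have the same sign); let `l < x < u` be the nearest ones,
`y = (l + u)/2`: no root in `(l, u)`. For every `i`, `(y - a_i)/(x - a_i) > 0` (the same side), so
`(y - a_i)/(x - a_i) ≤ exp ((y - x)/(x - a_i))`, and the product over `i` is `≤ 1`:
`∏ |y - a_i| ≤ ∏ |x - a_i|`. Now `|y - a_i| ≥ g/2` for all `i`; exactly `l` and `u` may have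
`|y - a_i| < 3g/2`. So the two factors of `l`, `u` are `≥ g/2`, the others `≥ 3g/2 ≥ g`, and at most
four factors are `< 5g/2` (`card_five`), the others are `≥ 5g/2 ≥ 2g`: so
`∏ ≥ (g/2)^2 g^(n-2) 2^(n-4)`.
-/

set_option autoImplicit false

namespace P4a177f

open Finset

namespace CritFAux

/-- The product at a point `y` on the same side of all the roots as the critical point `x`. -/
theorem prod_le {n : ℕ} (a : Fin n → ℝ) (x y : ℝ) (hx : ∀ i, x ≠ a i)
    (hside : ∀ i, 0 < (y - a i) / (x - a i)) (hs : ∑ i, 1 / (x - a i) = 0) :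
    ∏ i, |y - a i| ≤ ∏ i, |x - a i| := by
  have h1 : ∀ i, |y - a i| = (y - a i) / (x - a i) * |x - a i| := by
    intro i
    have h0 : x - a i ≠ 0 := sub_ne_zero.2 (hx i)
    rw [← abs_of_pos (hside i), abs_div, div_mul_cancel₀]
    exact abs_ne_zero.2 h0
  have h2 : ∏ i, (y - a i) / (x - a i) ≤ 1 := by
    calc ∏ i, (y - a i) / (x - a i)
        ≤ ∏ i, Real.exp ((y - x) * (1 / (x - a i))) := by
          refine Finset.prod_le_prod (fun i _ => (hside i).le) fun i _ => ?_
          have h0 : x - a i ≠ 0 := sub_ne_zero.2 (hx i)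
          have h3 : (y - a i) / (x - a i) = (y - x) * (1 / (x - a i)) + 1 := by
            field_simp
            ring
          rw [h3]
          exact Real.add_one_le_exp _
      _ = 1 := by
          rw [← Real.exp_sum, ← Finset.mul_sum, hs, mul_zero, Real.exp_zero]
  calc ∏ i, |y - a i| = (∏ i, (y - a i) / (x - a i)) * ∏ i, |x - a i| := by
        rw [← Finset.prod_mul_distrib]
        exact Finset.prod_congr rfl fun i _ => h1 i
    _ ≤ 1 * ∏ i, |x - a i| :=
        mul_le_mul_of_nonneg_right h2 (Finset.prod_nonneg fun i _ => abs_nonneg _)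
    _ = ∏ i, |x - a i| := one_mul _

/-- The product at the middle of two neighbouring roots. -/
theorem prod_mid {n : ℕ} {g : ℝ} (hg : 0 < g) (a : Fin n → ℝ)
    (hgap : ∀ i j, i ≠ j → g ≤ |a i - a j|) (l u : Fin n) (hlu : a l < a u)
    (hno : ∀ i, a i ≤ a l ∨ a u ≤ a i) : RR g n ≤ ∏ i, |(a l + a u) / 2 - a i| := by
  classical
  set y := (a l + a u) / 2 with hy
  have hne : u ≠ l := by
    rintro rfl
    exact lt_irrefl _ hlu
  have hgl : g ≤ a u - a l := by
    have h := hgap u l hne
    rwa [abs_of_pos (by linarith)] at h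
  have hl : |y - a l| = (a u - a l) / 2 := by
    rw [abs_of_pos (by linarith)]
    linarith
  have hu : |y - a u| = (a u - a l) / 2 := by
    rw [abs_of_neg (by linarith)]
    linarith
  have hoth : ∀ i, i ≠ l → i ≠ u → (a u - a l) / 2 + g ≤ |y - a i| := by
    intro i h1 h2
    rcases hno i with h | h
    · have h3 := hgap l i h1.symm
      rw [abs_of_nonneg (by linarith)] at h3
      rw [abs_of_pos (by linarith)]
      linarith
    · have h3 := hgap i u h2
      rw [abs_of_nonneg (by linarith)] at h3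
      rw [abs_of_neg (by linarith)]
      linarith
  have hall : ∀ i, (a u - a l) / 2 ≤ |y - a i| := by
    intro i
    by_cases h1 : i = l
    · rw [h1, hl]
    by_cases h2 : i = u
    · rw [h2, hu]
    · have := hoth i h1 h2
      linarith
  have hhalf : ∀ i, g / 2 ≤ |y - a i| := fun i => by
    have := hall i
    linarith
  set S := Finset.univ.filter fun i => |y - a i| < 5 * g / 2 with hS
  have hS4 : S.card ≤ 4 := card_five hg a hgap y hhalf
  set R : Finset (Fin n) := (univ.erase l).erase u with hR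
  have hue : u ∈ univ.erase l := by simp [hne]
  have hcR : R.card + 2 = n := by
    have h1 : (univ.erase l).card + 1 = n := by
      rw [Finset.card_erase_add_one (mem_univ l), Finset.card_univ, Fintype.card_fin]
    have h2 : R.card + 1 = (univ.erase l).card := Finset.card_erase_add_one hue
    omega
  have hRmem : ∀ i, i ∈ R ↔ i ≠ u ∧ i ≠ l := by
    intro i
    rw [hR]
    simp
  -- the number of far roots
  have hfar : n - 4 ≤ (R.filter fun i => ¬ |y - a i| < 5 * g / 2).card := by
    by_cases h : (a u - a l) / 2 < 5 * g / 2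
    · have h1 : (R.filter fun i => ¬ |y - a i| < 5 * g / 2) =
          Finset.univ.filter fun i => ¬ |y - a i| < 5 * g / 2 := by
        ext i
        rw [Finset.mem_filter, Finset.mem_filter, hRmem]
        constructor
        · rintro ⟨_, h2⟩
          exact ⟨Finset.mem_univ _, h2⟩
        · rintro ⟨_, h2⟩
          refine ⟨⟨?_, ?_⟩, h2⟩
          · rintro rfl
            exact h2 (by rw [hu]; exact h)
          · rintro rfl
            exact h2 (by rw [hl]; exact h)
      rw [h1]
      have h2 : S.card + (Finset.univ.filter fun i => ¬ |y - a i| < 5 * g / 2).card = n := by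
        rw [hS, Finset.card_filter_add_card_filter_not, Finset.card_univ, Fintype.card_fin]
      omega
    · have h1 : (R.filter fun i => ¬ |y - a i| < 5 * g / 2) = R := by
        rw [Finset.filter_eq_self]
        intro i _
        have := hall i
        rw [not_lt] at h ⊢
        linarith
      rw [h1]
      omega
  have hprod : ∏ i, |y - a i| = ((a u - a l) / 2) * (((a u - a l) / 2) * ∏ i ∈ R, |y - a i|) := by
    rw [← Finset.mul_prod_erase univ (fun i => |y - a i|) (mem_univ l),
      ← Finset.mul_prod_erase (univ.erase l) (fun i => |y - a i|) hue, hl, hu]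
  have hRprod : g ^ R.card * 2 ^ (n - 4) ≤ ∏ i ∈ R, |y - a i| := by
    rw [← Finset.prod_filter_mul_prod_filter_not R (fun i => |y - a i| < 5 * g / 2)
      (fun i => |y - a i|)]
    have h1 : g ^ (R.filter fun i => |y - a i| < 5 * g / 2).card ≤
        ∏ i ∈ R.filter (fun i => |y - a i| < 5 * g / 2), |y - a i| := by
      rw [← Finset.prod_const]
      refine Finset.prod_le_prod (fun _ _ => hg.le) fun i hi => ?_
      rw [Finset.mem_filter, hRmem] at hi
      have := hoth i hi.1.2 hi.1.1
      linarith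
    have h2 : (2 * g) ^ (R.filter fun i => ¬ |y - a i| < 5 * g / 2).card ≤
        ∏ i ∈ R.filter (fun i => ¬ |y - a i| < 5 * g / 2), |y - a i| := by
      rw [← Finset.prod_const]
      refine Finset.prod_le_prod (fun _ _ => by positivity) fun i hi => ?_
      rw [Finset.mem_filter, not_lt] at hi
      linarith [hi.2]
    have h3 : (R.filter fun i => |y - a i| < 5 * g / 2).card +
        (R.filter fun i => ¬ |y - a i| < 5 * g / 2).card = R.card :=
      Finset.card_filter_add_card_filter_not _
    calc g ^ R.card * 2 ^ (n - 4)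
        ≤ g ^ R.card * 2 ^ (R.filter fun i => ¬ |y - a i| < 5 * g / 2).card := by
          gcongr
          norm_num
      _ = g ^ (R.filter fun i => |y - a i| < 5 * g / 2).card *
          (2 * g) ^ (R.filter fun i => ¬ |y - a i| < 5 * g / 2).card := by
          rw [← h3, pow_add, mul_pow]
          ring
      _ ≤ _ := mul_le_mul h1 h2 (by positivity)
          (Finset.prod_nonneg fun i _ => abs_nonneg _)
  have hg2 : g / 2 ≤ (a u - a l) / 2 := by linarith
  rw [hprod]
  calc RR g n = (g / 2) * ((g / 2) * (g ^ R.card * 2 ^ (n - 4))) := by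
        unfold RR
        have : g ^ n = g ^ R.card * g ^ 2 := by rw [← pow_add, hcR]
        rw [this]
        ring
    _ ≤ ((a u - a l) / 2) * (((a u - a l) / 2) * ∏ i ∈ R, |y - a i|) := by
        refine mul_le_mul hg2 (mul_le_mul hg2 hRprod (by positivity) (by linarith))
          (by positivity) (by linarith)

/-- There is a root above a critical point. -/
theorem exists_gt {n : ℕ} (a : Fin n → ℝ) (x : ℝ) (hx : ∀ i, x ≠ a i) (hn : 2 ≤ n)
    (hs : ∑ i, 1 / (x - a i) = 0) : ∃ i, x < a i := by
  by_contra hc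
  push Not at hc
  have h1 : 0 < ∑ i, 1 / (x - a i) := by
    refine Finset.sum_pos (fun i _ => one_div_pos.2 ?_) ⟨⟨0, by omega⟩, mem_univ _⟩
    exact sub_pos.2 (lt_of_le_of_ne (hc i) (hx i).symm)
  linarith

/-- There is a root below a critical point. -/
theorem exists_lt {n : ℕ} (a : Fin n → ℝ) (x : ℝ) (hx : ∀ i, x ≠ a i) (hn : 2 ≤ n)
    (hs : ∑ i, 1 / (x - a i) = 0) : ∃ i, a i < x := by
  by_contra hc
  push Not at hc
  have h1 : ∑ i, 1 / (x - a i) < 0 := by
    refine Finset.sum_neg (fun i _ => one_div_neg.2 ?_) ⟨⟨0, by omega⟩, mem_univ _⟩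
    exact sub_neg.2 (lt_of_le_of_ne (hc i) (hx i))
  linarith

end CritFAux

open CritFAux

/-- The real version. -/
theorem crit_realF {n : ℕ} {g : ℝ} (hg : 0 < g) (a : Fin n → ℝ)
    (hgap : ∀ i j, i ≠ j → g ≤ |a i - a j|) (x : ℝ) (hx : ∀ i, x ≠ a i) (hn : 2 ≤ n)
    (hs : ∑ i, 1 / (x - a i) = 0) : RR g n ≤ ∏ i, |x - a i| := by
  classical
  obtain ⟨l0, hl0⟩ := exists_lt a x hx hn hs
  obtain ⟨u0, hu0⟩ := exists_gt a x hx hn hs
  obtain ⟨l, hl, hlmax⟩ := Finset.exists_max_image (univ.filter fun i => a i < x) a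
    ⟨l0, by simp [hl0]⟩
  obtain ⟨u, hu, humin⟩ := Finset.exists_min_image (univ.filter fun i => x < a i) a
    ⟨u0, by simp [hu0]⟩
  rw [Finset.mem_filter] at hl hu
  have hno : ∀ i, a i ≤ a l ∨ a u ≤ a i := by
    intro i
    rcases lt_or_gt_of_ne (hx i) with h | h
    · exact Or.inr (humin i (by simp [h]))
    · exact Or.inl (hlmax i (by simp [h]))
  have hlx := hl.2
  have hux := hu.2
  refine (prod_mid hg a hgap l u (by linarith) hno).trans
    (prod_le a x ((a l + a u) / 2) hx (fun i => ?_) hs)
  rcases lt_or_gt_of_ne (hx i) with h | h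
  · have := humin i (by simp [h])
    exact div_pos_of_neg_of_neg (by linarith) (by linarith)
  · have := hlmax i (by simp [h])
    exact div_pos (by linarith) (by linarith)

theorem crit_boundF {k : ℕ} (hk : 1 ≤ k) (g : ℕ) (hg : 1 ≤ g) (a : Fin (k + 1) → ℤ)
    (ha : ∀ i j, i ≠ j → (g : ℤ) ≤ |a i - a j|) (c : ℂ) (hc : ∀ i, c ≠ (a i : ℂ))
    (hs : ∑ i, 1 / (c - (a i : ℂ)) = 0) :
    RR g (k + 1) ≤ ‖∏ i, (c - (a i : ℂ))‖ := by
  have hg0 : (0 : ℝ) < g := by exact_mod_cast hg
  have hci : ∀ i, c - (a i : ℂ) ≠ 0 := fun i => sub_ne_zero.mpr (hc i)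
  have him : c.im = 0 := by
    have h1 := congrArg Complex.im hs
    rw [Complex.im_sum, Complex.zero_im] at h1
    have h2 : ∀ i, (1 / (c - (a i : ℂ))).im = - c.im * (1 / Complex.normSq (c - (a i : ℂ))) := by
      intro i
      rw [one_div, Complex.inv_im]
      simp
      ring
    simp only [h2] at h1
    rw [← Finset.mul_sum] at h1
    rcases mul_eq_zero.mp h1 with h3 | h3
    · linarith
    · exfalso
      have h4 : 0 < ∑ i, 1 / Complex.normSq (c - (a i : ℂ)) :=
        Finset.sum_pos (fun i _ => one_div_pos.mpr (Complex.normSq_pos.mpr (hci i)))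
          ⟨0, mem_univ _⟩
      linarith
  have hcr : c = (c.re : ℂ) := by
    apply Complex.ext
    · simp
    · simp [him]
  set x := c.re with hx
  have hd : ∀ i, c - (a i : ℂ) = ((x - a i : ℝ) : ℂ) := by
    intro i
    rw [hcr]
    push_cast
    rfl
  have hnorm : ‖∏ i, (c - (a i : ℂ))‖ = ∏ i, |x - a i| := by
    rw [norm_prod]
    refine Finset.prod_congr rfl fun i _ => ?_
    rw [hd, Complex.norm_real, Real.norm_eq_abs]
  have hdne : ∀ i, x ≠ (a i : ℝ) := by
    intro i h
    apply hci i
    rw [hd, h]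
    simp
  have hs' : ∑ i, 1 / (x - (a i : ℝ)) = 0 := by
    have h1 : ((∑ i, 1 / (x - (a i : ℝ)) : ℝ) : ℂ) = 0 := by
      rw [← hs]
      push_cast
      refine Finset.sum_congr rfl fun i _ => ?_
      rw [hd]
      push_cast
      rfl
    exact_mod_cast h1
  have hgap : ∀ i j, i ≠ j → (g : ℝ) ≤ |(a i : ℝ) - a j| := by
    intro i j hij
    have h1 := ha i j hij
    rw [← Int.cast_sub, ← Int.cast_abs]
    exact_mod_cast h1
  rw [hnorm]
  exact crit_realF hg0 (fun i => (a i : ℝ)) hgap x hdne (by omega) hs'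

end P4a177f
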