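import Pool.Agent.Lib.P4a177e.Main

/-!
# The members of the families `N * ∏_s ∏_i (x_s - a_{s,i}) = 1` above the conifold: definitions

The notation of the proof. Near the root `a_{s,q}` of the polynomial `f_s(x) = ∏_i (x - a_{s,i})` we
use the coordinate `w_s = f_s(x_s)`; `x_s = a_{s,q} + ψ_s(w_s)` (`psi`), and
`log (x_s - a_{s,k}) = const + V_{s,k}(w_s)`, where `V = ∑_{j ≥ 1} h_j w^j / j` (`ser`), with the
explicit coefficients `h` (`hc`, Lagrange). The tori are `w_{k+1} = r_{k+1} e^{i θ_k}`,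
`w_0 = r_0 e^{-i ∑ θ}` with `N ∏ r_s = 1`.
-/

set_option autoImplicit false

namespace P4a177f

open P4a177h P4a177e Function MeasureTheory
open scoped Real

noncomputable section

/-- The power series `∑_{j ≥ 1} c_j w^j / j`. -/
def ser (c : ℕ → ℝ) (w : ℂ) : ℂ := ∑' j : ℕ, (c (j + 1) : ℂ) / ((j : ℂ) + 1) * w ^ (j + 1)

/-- The formal power series of `1 / (X + b)`. -/
def pinv (b : ℝ) : PowerSeries ℝ := PowerSeries.mk fun j => (-1) ^ j / b ^ (j + 1)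

/-- The formal power series of `1 / (b - X)`. -/
def pgeo (b : ℝ) : PowerSeries ℝ := PowerSeries.mk fun j => 1 / b ^ (j + 1)

/-- The coefficient of `X^(m-1)` of `(∏_{l ≠ q} 1/(X + b_l))^m / (X + b_k)`. -/
def co {n : ℕ} (b : Fin n → ℝ) (q k : Fin n) (m : ℕ) : ℝ :=
  PowerSeries.coeff (m - 1) ((∏ l ∈ Finset.univ.erase q, pinv (b l)) ^ m * pinv (b k))

/-- The number `h_{k,m}`: `m` times the coefficient of `w^m` of `log (1 + ψ(w)/b_k)` for `k ≠ q`, and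
the negative of the sum of these for `k = q`. -/
def hc {n : ℕ} (b : Fin n → ℝ) (q k : Fin n) (m : ℕ) : ℝ :=
  if k = q then -∑ l ∈ Finset.univ.erase q, co b q l m else co b q k m

/-- The inverse function of `z ↦ ∏_l (z + b_l)` near `z = 0` (`b_q = 0`). -/
def psi {n : ℕ} (b : Fin n → ℝ) (q : Fin n) (w : ℂ) : ℂ :=
  w / (∏ l ∈ Finset.univ.erase q, (b l : ℂ)) * Complex.exp (ser (hc b q q) w)

/-- The lower bound of the critical values of a polynomial with `n` roots with gaps `≥ g`. -/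
def RR (g : ℝ) (n : ℕ) : ℝ := g ^ n * 2 ^ (n - 4) / 4

/-- `n ≥ 2` numbers `b_k` with `b_q = 0`, any two of them differ by at least `g > 0`. -/
structure Lst {n : ℕ} (g : ℝ) (b : Fin n → ℝ) (q : Fin n) : Prop where
  two_le : 2 ≤ n
  pos : 0 < g
  zero : b q = 0
  gap : ∀ i j, i ≠ j → g ≤ |b i - b j|

/-- The indices `k ≠ q` with `|b_k| < 2 g`. -/
def near {n : ℕ} (g : ℝ) (b : Fin n → ℝ) (q : Fin n) : Finset (Fin n) :=
  (Finset.univ.erase q).filter fun k => |b k| < 2 * g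

/-- The indices `k ≠ q` with `2 g ≤ |b_k|`. -/
def far {n : ℕ} (g : ℝ) (b : Fin n → ℝ) (q : Fin n) : Finset (Fin n) :=
  (Finset.univ.erase q).filter fun k => ¬ |b k| < 2 * g

/-- The number `g / (|b_k| - g / 2)`. -/
def tau {n : ℕ} (g : ℝ) (b : Fin n → ℝ) (k : Fin n) : ℝ := g / (|b k| - g / 2)

variable {d : ℕ} (A : Fam d) (g : Fin (d + 2) → ℕ) (N : ℕ) (q : ∀ s, Fin (A.m s + 1))

/-- The assumptions. -/
structure GoodF : Prop where
  one_le_m : ∀ s, 1 ≤ A.m s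
  one_le_g : ∀ s, 1 ≤ g s
  one_le_N : 1 ≤ N
  gap : ∀ (s : Fin (d + 2)) (i j : Fin (A.m s + 1)), i ≠ j → (g s : ℤ) ≤ |A.a s i - A.a s j|
  big : 4 ^ (d + 2) < N * ∏ s, (g s ^ (A.m s + 1) * 2 ^ (A.m s - 3))

/-- The differences `a_{s,q s} - a_{s,k}` as real numbers. -/
def bR (s : Fin (d + 2)) (k : Fin (A.m s + 1)) : ℝ := (df A q s k : ℝ)

/-- The coefficients of the list number `s`. -/
def hh (s : Fin (d + 2)) (k : Fin (A.m s + 1)) : ℕ → ℝ := hc (bR A q s) (q s) k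

/-- The radii. -/
structure Rad (r : Fin (d + 2) → ℝ) : Prop where
  pos : ∀ s, 0 < r s
  lt : ∀ s, r s < RR (g s) (A.m s + 1)
  prod : (N : ℝ) * ∏ s, r s = 1

/-- The coordinate `w_0`. -/
def w0 (r : Fin (d + 2) → ℝ) (θ : Fin (d + 1) → ℝ) : ℂ :=
  (r 0 : ℂ) * Complex.exp (-(∑ l, (θ l : ℂ)) * Complex.I)

/-- The coordinate `w_{j+1}`. -/
def w1 (r : Fin (d + 2) → ℝ) (j : Fin (d + 1)) (t : ℝ) : ℂ :=
  (r j.succ : ℂ) * Complex.exp (t * Complex.I)

/-- The torus around the roots `a_{s,q s}`. -/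
structure TorF (r : Fin (d + 2) → ℝ) where
  /-- the torus -/
  γ : Torus (d + 1) (A.CoordRing N)
  emb_zero : ∀ (θ : Fin (d + 1) → ℝ) (i : Fin (A.m 0 + 1)),
    γ.emb θ (A.lin N 0 i) = psi (bR A q 0) (q 0) (w0 r θ) + (df A q 0 i : ℂ)
  emb_succ : ∀ (θ : Fin (d + 1) → ℝ) (j : Fin (d + 1)) (i : Fin (A.m j.succ + 1)),
    γ.emb θ (A.lin N j.succ i) =
      psi (bR A q j.succ) (q j.succ) (w1 r j (θ j)) + (df A q j.succ i : ℂ)

/-- The variable part of `log (x_0 - a_{0,i})`. -/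
def W0 (r : Fin (d + 2) → ℝ) (i : Fin (A.m 0 + 1)) (θ : Fin (d + 1) → ℝ) : ℂ :=
  ser (hh A q 0 i) (w0 r θ)

/-- The variable part of `log (x_{j+1} - a_{j+1,i})`. -/
def V1 (r : Fin (d + 2) → ℝ) (j : Fin (d + 1)) (i : Fin (A.m j.succ + 1)) (t : ℝ) : ℂ :=
  ser (hh A q j.succ i) (w1 r j t)

/-- The derivative of `V1`. -/
def V1' (r : Fin (d + 2) → ℝ) (j : Fin (d + 1)) (i : Fin (A.m j.succ + 1)) (t : ℝ) : ℂ :=
  Complex.I * (w1 r j t * deriv (ser (hh A q j.succ i)) (w1 r j t))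

/-- The constant term of `log |x_s - a_{s,i}|`. -/
def cst (r : Fin (d + 2) → ℝ) (s : Fin (d + 2)) (i : Fin (A.m s + 1)) : ℝ :=
  if i = q s then Real.log (r s) - ∑ k ∈ Finset.univ.erase (q s), Real.log |(df A q s k : ℝ)|
  else Real.log |(df A q s i : ℝ)|

/-- The Kronecker symbol. -/
def dl (s : Fin (d + 2)) (i : Fin (A.m s + 1)) : ℝ := if i = q s then 1 else 0

/-- The bound of the error term of the regulator with the entries `x_s - a_{s,i s}`. -/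
def EF (i : ∀ s, Fin (A.m s + 1)) : ℝ :=
  ∑' j : ℕ, (1 / (N : ℝ)) ^ (j + 1) / ((j : ℝ) + 1) * ∏ s, |hh A q s (i s) (j + 1)|

/-- The lower bound of the main term. -/
def BB (g m : ℕ) : ℝ := ((m : ℝ) + 1) * Real.log g + ((m - 3 : ℕ) : ℝ) * Real.log 2

end

end P4a177f
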