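import Pool.Agent.Lib.P4a177f.Defs

/-!
# MODULE P4a177f.DomF: domination of formal power series (est. 1.0 h; only Mathlib)

`Dom F G`: `|F_j| ≤ G_j` for all `j`. PROOF. `mul`: `PowerSeries.coeff_mul`, triangle inequality.
`dom_pinv`: `|(-1)^j / b^(j+1)| = 1/|b|^(j+1) ≤ 1/g^(j+1)` for `|b| ≥ g`.
`coeff_pgeo_pow`: the coefficient of `X^j` in `1/(g - X)^(m+1)` is `C(m+j, m) / g^(m+1+j)`
(`PowerSeries.mk_one_pow_eq_mk_choose_add : (mk 1)^(d+1) = mk fun n => choose (d+n) d`, and
`pgeo g = C (1/g) * rescale (1/g) (mk 1)`; or induction on `m`).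
`coeff_le`: `coeff (m-1) (pgeo g ^ (m+1) * G) = ∑_{i < m} C(2m-1-i, m) / g^(2m-i) G_i` and
`C(2m-1-i, m) ≤ C(2m-1, m) / 2^i` (induction on `i`: `C(2m-1-i-1, m) * (2m-1-i) =
C(2m-1-i, m) * (m-1-i)` and `m-1-i ≤ (2m-1-i)/2`), so
`≤ C(2m-1, m)/g^(2m) ∑_{i<m} G_i (g/2)^i`.
`ev_mul_le`: for series with nonnegative coefficients the truncated value
`ev M F x = ∑_{i<M} F_i x^i`, `x ≥ 0`, satisfies `ev M (F G) x ≤ ev M F x * ev M G x`.
`ev_pgeo_le`: `∑_{i<M} x^i/b^(i+1) ≤ 1/(b - x)` for `0 ≤ x < b`.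
-/

set_option autoImplicit false

namespace P4a177f

open PowerSeries

/-- Domination of power series. -/
def Dom (F G : PowerSeries ℝ) : Prop := ∀ j, |coeff j F| ≤ coeff j G

/-- The truncated value of a power series at `x`. -/
noncomputable def ev (M : ℕ) (F : PowerSeries ℝ) (x : ℝ) : ℝ :=
  ∑ i ∈ Finset.range M, coeff i F * x ^ i

theorem Dom.nonneg {F G : PowerSeries ℝ} (h : Dom F G) (j : ℕ) : 0 ≤ coeff j G :=
  (abs_nonneg _).trans (h j)

theorem Dom.mul {F G F' G' : PowerSeries ℝ} (h : Dom F G) (h' : Dom F' G') :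
    Dom (F * F') (G * G') := by
  intro j
  rw [coeff_mul, coeff_mul]
  refine (Finset.abs_sum_le_sum_abs _ _).trans (Finset.sum_le_sum fun p _ => ?_)
  rw [abs_mul]
  exact mul_le_mul (h p.1) (h' p.2) (abs_nonneg _) (h.nonneg p.1)

theorem Dom.one : Dom 1 1 := by
  intro j
  rw [coeff_one]
  split_ifs
  · rw [abs_one]
  · rw [abs_zero]

theorem Dom.pow {F G : PowerSeries ℝ} (h : Dom F G) (m : ℕ) : Dom (F ^ m) (G ^ m) := by
  induction m with
  | zero =>
    rw [pow_zero, pow_zero]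
    exact Dom.one
  | succ m ih =>
    rw [pow_succ, pow_succ]
    exact ih.mul h

theorem Dom.prod {ι : Type*} {F G : ι → PowerSeries ℝ} {s : Finset ι}
    (h : ∀ i ∈ s, Dom (F i) (G i)) : Dom (∏ i ∈ s, F i) (∏ i ∈ s, G i) := by
  classical
  induction s using Finset.induction_on with
  | empty =>
    rw [Finset.prod_empty, Finset.prod_empty]
    exact Dom.one
  | insert a s ha ih =>
    rw [Finset.prod_insert ha, Finset.prod_insert ha]
    exact (h a (Finset.mem_insert_self a s)).mul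
      (ih fun i hi => h i (Finset.mem_insert_of_mem hi))

/-- Nonnegative series dominate themselves. -/
theorem Dom.trans {F G H : PowerSeries ℝ} (h : Dom F G) (h' : ∀ j, coeff j G ≤ coeff j H) :
    Dom F H := fun j => (h j).trans (h' j)

theorem DomFAux.abs_coeff_pinv (b : ℝ) (j : ℕ) : |coeff j (pinv b)| = 1 / |b| ^ (j + 1) := by
  unfold pinv
  rw [coeff_mk, abs_div, abs_pow, abs_pow, abs_neg, abs_one, one_pow]

theorem dom_pinv {g b : ℝ} (hg : 0 < g) (hb : g ≤ |b|) : Dom (pinv b) (pgeo g) := by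
  intro j
  rw [DomFAux.abs_coeff_pinv]
  unfold pgeo
  rw [coeff_mk]
  exact one_div_le_one_div_of_le (pow_pos hg _) (pow_le_pow_left₀ hg.le hb _)

theorem dom_pinv_self {b : ℝ} (hb : b ≠ 0) : Dom (pinv b) (pgeo |b|) :=
  dom_pinv (abs_pos.2 hb) le_rfl

namespace DomFAux

/-- The recursion for the coefficients of the powers. -/
theorem coeff_rec {g : ℝ} (hg : 0 < g) (F : PowerSeries ℝ) (j : ℕ) :
    g * coeff (j + 1) (pgeo g * F) = coeff (j + 1) F + coeff j (pgeo g * F) := by
  have h1 : (C g - X) * pgeo g = 1 := by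
    ext n
    rw [sub_mul, map_sub, coeff_C_mul, coeff_one]
    cases n with
    | zero =>
      rw [coeff_zero_X_mul]
      unfold pgeo
      rw [coeff_mk, if_pos rfl]
      field_simp
      ring
    | succ n =>
      rw [coeff_succ_X_mul]
      unfold pgeo
      rw [coeff_mk, coeff_mk, if_neg (Nat.succ_ne_zero n)]
      field_simp
      ring
  have h2 : (C g - X) * (pgeo g * F) = F := by rw [← mul_assoc, h1, one_mul]
  have h3 := congrArg (coeff (j + 1)) h2
  rw [sub_mul, map_sub, coeff_C_mul, coeff_succ_X_mul] at h3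
  linarith

theorem coeff_zero_pow (g : ℝ) (m : ℕ) : coeff 0 (pgeo g ^ m) = 1 / g ^ m := by
  rw [coeff_zero_eq_constantCoeff_apply, map_pow, ← coeff_zero_eq_constantCoeff_apply]
  unfold pgeo
  rw [coeff_mk, zero_add, pow_one, one_div_pow]

end DomFAux

theorem coeff_pgeo_pow {g : ℝ} (hg : 0 < g) (m j : ℕ) :
    coeff j (pgeo g ^ (m + 1)) = ((m + j).choose m : ℝ) / g ^ (m + 1 + j) := by
  induction m generalizing j with
  | zero =>
    rw [zero_add, pow_one, Nat.choose_zero_right, Nat.cast_one]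
    unfold pgeo
    rw [coeff_mk, add_comm]
  | succ m ih =>
    induction j with
    | zero =>
      rw [DomFAux.coeff_zero_pow, add_zero, Nat.choose_self, Nat.cast_one, add_zero]
    | succ j ihj =>
      have h1 := DomFAux.coeff_rec hg (pgeo g ^ (m + 1)) j
      rw [← pow_succ' (pgeo g) (m + 1), ih, ihj] at h1
      have h2 : ((m + 1 + (j + 1)).choose (m + 1) : ℝ) =
          ((m + (j + 1)).choose m : ℝ) + ((m + 1 + j).choose (m + 1) : ℝ) := by
        have h3 := Nat.choose_succ_succ (m + (j + 1)) m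
        have e1 : m + 1 + (j + 1) = (m + (j + 1)) + 1 := by omega
        have e2 : m + 1 + j = m + (j + 1) := by omega
        rw [e1, e2]
        exact_mod_cast h3
      have hg0 : g ≠ 0 := hg.ne'
      have h4 : coeff (j + 1) (pgeo g ^ (m + 1 + 1)) =
          (((m + (j + 1)).choose m : ℝ) / g ^ (m + 1 + (j + 1)) +
            ((m + 1 + j).choose (m + 1) : ℝ) / g ^ (m + 1 + 1 + j)) / g := by
        rw [eq_div_iff hg0, mul_comm]
        exact h1
      rw [h4, h2]
      have e3 : m + 1 + 1 + j = m + 1 + (j + 1) := by omega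
      have e4 : m + 1 + 1 + (j + 1) = (m + 1 + (j + 1)) + 1 := by omega
      rw [e3, e4, pow_succ g (m + 1 + (j + 1))]
      field_simp

theorem ev_mul_le {F G : PowerSeries ℝ} (hF : ∀ j, 0 ≤ coeff j F) (hG : ∀ j, 0 ≤ coeff j G)
    {x : ℝ} (hx : 0 ≤ x) (M : ℕ) : ev M (F * G) x ≤ ev M F x * ev M G x := by
  unfold ev
  have h1 : ∀ i ∈ Finset.range M, coeff i (F * G) * x ^ i =
      ∑ p ∈ (Finset.range M ×ˢ Finset.range M).filter (fun p => p.1 + p.2 = i),
        (coeff p.1 F * x ^ p.1) * (coeff p.2 G * x ^ p.2) := by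
    intro i hi
    rw [Finset.mem_range] at hi
    rw [coeff_mul, Finset.sum_mul]
    have h2 : Finset.HasAntidiagonal.antidiagonal i =
        (Finset.range M ×ˢ Finset.range M).filter (fun p => p.1 + p.2 = i) := by
      ext p
      rw [Finset.HasAntidiagonal.mem_antidiagonal, Finset.mem_filter, Finset.mem_product, Finset.mem_range,
        Finset.mem_range]
      omega
    rw [h2]
    refine Finset.sum_congr rfl fun p hp => ?_
    rw [← (Finset.mem_filter.1 hp).2, pow_add]
    ring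
  rw [Finset.sum_congr rfl h1, Finset.sum_mul_sum, ← Finset.sum_product']
  refine Finset.sum_fiberwise_le_sum_of_sum_fiber_nonneg fun y _ => ?_
  refine Finset.sum_nonneg fun p _ => ?_
  have := hF p.1
  have := hG p.2
  positivity

theorem ev_pgeo_le {b x : ℝ} (hx : 0 ≤ x) (hb : x < b) (M : ℕ) :
    ev M (pgeo b) x ≤ 1 / (b - x) := by
  have hb0 : 0 < b := lt_of_le_of_lt hx hb
  have h1 : ev M (pgeo b) x * (b - x) = 1 - (x / b) ^ M := by
    unfold ev pgeo
    induction M with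
    | zero => simp
    | succ M ih =>
      rw [Finset.sum_range_succ, add_mul, ih, coeff_mk, div_pow, div_pow]
      field_simp
      ring
  rw [le_div_iff₀ (by linarith), h1]
  have : 0 ≤ (x / b) ^ M := by positivity
  linarith

namespace DomFAux

theorem two_mul_choose {n m : ℕ} (h : n + 1 ≤ 2 * m) : 2 * n.choose m ≤ (n + 1).choose m := by
  have h1 := Nat.choose_mul_succ_eq n m
  by_contra hlt
  rw [not_le] at hlt
  rcases Nat.lt_or_ge (n + 1) m with h2 | h2
  · rw [Nat.choose_eq_zero_of_lt (by omega : n < m)] at hlt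
    omega
  · have h3 : 2 * (n + 1 - m) ≤ n + 1 := by omega
    have h4 : (n + 1).choose m * (2 * (n + 1 - m)) ≤ (n + 1).choose m * (n + 1) :=
      Nat.mul_le_mul_left _ h3
    have h5 : 2 * (n.choose m * (n + 1)) ≤ (n + 1).choose m * (n + 1) := by
      rw [h1]
      calc 2 * ((n + 1).choose m * (n + 1 - m)) = (n + 1).choose m * (2 * (n + 1 - m)) := by ring
        _ ≤ _ := h4
    have h6 : (n + 1).choose m * (n + 1) < 2 * n.choose m * (n + 1) :=
      Nat.mul_lt_mul_of_pos_right hlt (Nat.succ_pos n)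
    have h7 : 2 * n.choose m * (n + 1) = 2 * (n.choose m * (n + 1)) := by ring
    omega

theorem pow_mul_choose (m i : ℕ) (h : i ≤ 2 * m - 1) :
    2 ^ i * (2 * m - 1 - i).choose m ≤ (2 * m - 1).choose m := by
  induction i with
  | zero => simp
  | succ i ih =>
    have h1 := ih (by omega)
    have h2 : 2 * (2 * m - 1 - (i + 1)).choose m ≤ (2 * m - 1 - (i + 1) + 1).choose m :=
      two_mul_choose (by omega)
    have e : 2 * m - 1 - (i + 1) + 1 = 2 * m - 1 - i := by omega
    rw [e] at h2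
    calc 2 ^ (i + 1) * (2 * m - 1 - (i + 1)).choose m =
          2 ^ i * (2 * (2 * m - 1 - (i + 1)).choose m) := by ring
      _ ≤ 2 ^ i * (2 * m - 1 - i).choose m := Nat.mul_le_mul_left _ h2
      _ ≤ _ := h1

end DomFAux

theorem coeff_le {g : ℝ} (hg : 0 < g) {G : PowerSeries ℝ} (hG : ∀ j, 0 ≤ coeff j G) {m : ℕ}
    (hm : 1 ≤ m) : coeff (m - 1) (pgeo g ^ (m + 1) * G) ≤
      ((2 * m - 1).choose m : ℝ) / g ^ (2 * m) * ev m G (g / 2) := by
  rw [mul_comm, coeff_mul, Finset.Nat.sum_antidiagonal_eq_sum_range_succ_mk]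
  have e : (m - 1).succ = m := by omega
  rw [e]
  unfold ev
  rw [Finset.mul_sum]
  refine Finset.sum_le_sum fun i hi => ?_
  rw [Finset.mem_range] at hi
  show coeff i G * coeff (m - 1 - i) (pgeo g ^ (m + 1)) ≤ _
  rw [coeff_pgeo_pow hg]
  have e1 : m + (m - 1 - i) = 2 * m - 1 - i := by omega
  have e2 : g ^ (2 * m) = g ^ (m + 1 + (m - 1 - i)) * g ^ i := by
    rw [← pow_add]
    congr 1
    omega
  rw [e1, e2]
  have h1 : (2 : ℝ) ^ i * ((2 * m - 1 - i).choose m : ℝ) ≤ ((2 * m - 1).choose m : ℝ) := by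
    exact_mod_cast DomFAux.pow_mul_choose m i (by omega)
  have h2 : (0 : ℝ) < 2 ^ i := by positivity
  have h3 : ((2 * m - 1 - i).choose m : ℝ) ≤ ((2 * m - 1).choose m : ℝ) / 2 ^ i := by
    rw [le_div_iff₀ h2]
    linarith
  have h4 : 0 < g ^ (m + 1 + (m - 1 - i)) := pow_pos hg _
  have h5 : 0 < g ^ i := pow_pos hg _
  calc coeff i G * (((2 * m - 1 - i).choose m : ℝ) / g ^ (m + 1 + (m - 1 - i))) ≤
        coeff i G * ((((2 * m - 1).choose m : ℝ) / 2 ^ i) / g ^ (m + 1 + (m - 1 - i))) := by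
        refine mul_le_mul_of_nonneg_left ?_ (hG i)
        exact div_le_div_of_nonneg_right h3 h4.le
    _ = ((2 * m - 1).choose m : ℝ) / (g ^ (m + 1 + (m - 1 - i)) * g ^ i) *
          (coeff i G * (g / 2) ^ i) := by
        rw [div_pow]
        field_simp

end P4a177f
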