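import Pool.Agent.Lib.P4a177f.Defs

/-!
# Formal power series and functions near zero

`Rep F f`: `f z = ∑ F_j z^j` for all `z` near `0`. PROOF. `Rep.mul`: the two series converge at `z`,
so they converge absolutely (`Summable.norm`, in `ℂ`), Cauchy product
(`tsum_mul_tsum_eq_tsum_sum_antidiagonal_of_summable_norm`, `PowerSeries.coeff_mul`).
`Rep.pow`, `Rep.prod`: induction. `rep_pinv`: geometric series, for
`‖z‖ < |b|`: `∑ (-1)^j z^j / b^(j+1) = (1/b) / (1 + z/b)`.
-/

set_option autoImplicit false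

namespace P4a177f

open Filter Topology PowerSeries

/-- The function `f` is represented by the power series `F` near zero. -/
def Rep (F : PowerSeries ℝ) (f : ℂ → ℂ) : Prop :=
  ∀ᶠ z in 𝓝 (0 : ℂ), HasSum (fun j : ℕ => ((coeff j F : ℝ) : ℂ) * z ^ j) (f z)

theorem Rep.one : Rep 1 fun _ => 1 := by
  refine Filter.Eventually.of_forall fun z => ?_
  have h := hasSum_single (f := fun j : ℕ => ((coeff j (1 : PowerSeries ℝ) : ℝ) : ℂ) * z ^ j) 0
    (fun j hj => by
      show ((coeff j (1 : PowerSeries ℝ) : ℝ) : ℂ) * z ^ j = 0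
      rw [coeff_one, if_neg hj, Complex.ofReal_zero, zero_mul])
  simpa [coeff_one] using h

theorem Rep.mul {F G : PowerSeries ℝ} {f g : ℂ → ℂ} (hF : Rep F f) (hG : Rep G g) :
    Rep (F * G) fun z => f z * g z := by
  filter_upwards [hF, hG] with z h1 h2
  have s1 := h1.summable.norm
  have s2 := h2.summable.norm
  have h3 := tsum_mul_tsum_eq_tsum_sum_antidiagonal_of_summable_norm s1 s2
  have h4 := (summable_norm_sum_mul_antidiagonal_of_summable_norm s1 s2).of_norm
  rw [h1.tsum_eq, h2.tsum_eq] at h3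
  have h5 := h4.hasSum
  rw [← h3] at h5
  have e : (fun j : ℕ => ((coeff j (F * G) : ℝ) : ℂ) * z ^ j) = fun n : ℕ =>
      ∑ kl ∈ Finset.HasAntidiagonal.antidiagonal n, (((coeff kl.1 F : ℝ) : ℂ) * z ^ kl.1) *
        (((coeff kl.2 G : ℝ) : ℂ) * z ^ kl.2) := by
    funext n
    rw [coeff_mul, Complex.ofReal_sum, Finset.sum_mul]
    refine Finset.sum_congr rfl fun x hx => ?_
    rw [← Finset.HasAntidiagonal.mem_antidiagonal.1 hx, pow_add, Complex.ofReal_mul]
    ring
  rw [e]
  exact h5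

theorem Rep.pow {F : PowerSeries ℝ} {f : ℂ → ℂ} (hF : Rep F f) (m : ℕ) :
    Rep (F ^ m) fun z => f z ^ m := by
  induction m with
  | zero => simpa using Rep.one
  | succ m ih =>
    have h := ih.mul hF
    simpa only [pow_succ] using h

theorem Rep.prod {ι : Type*} {F : ι → PowerSeries ℝ} {f : ι → ℂ → ℂ} {s : Finset ι}
    (h : ∀ i ∈ s, Rep (F i) (f i)) : Rep (∏ i ∈ s, F i) fun z => ∏ i ∈ s, f i z := by
  classical
  induction s using Finset.induction_on with
  | empty => simpa using Rep.one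
  | insert a s ha ih =>
    have h1 := (h a (Finset.mem_insert_self a s)).mul
      (ih fun i hi => h i (Finset.mem_insert_of_mem hi))
    simpa only [Finset.prod_insert ha] using h1

theorem rep_pinv {b : ℝ} (hb : b ≠ 0) : Rep (pinv b) fun z => (z + (b : ℂ))⁻¹ := by
  have hbc : (b : ℂ) ≠ 0 := Complex.ofReal_ne_zero.2 hb
  have hb0 : 0 < |b| := abs_pos.2 hb
  have hU : Metric.ball (0 : ℂ) |b| ∈ 𝓝 (0 : ℂ) := Metric.ball_mem_nhds _ hb0
  filter_upwards [hU] with z hz
  rw [mem_ball_zero_iff] at hz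
  have h1 : ‖-(z / (b : ℂ))‖ < 1 := by
    rw [norm_neg, norm_div, Complex.norm_real, Real.norm_eq_abs, div_lt_one hb0]
    exact hz
  have h2 := (hasSum_geometric_of_norm_lt_one h1).mul_left ((b : ℂ)⁻¹)
  have h3 : z + (b : ℂ) ≠ 0 := by
    intro h
    have h4 : z = -(b : ℂ) := eq_neg_of_add_eq_zero_left h
    rw [h4, norm_neg, Complex.norm_real, Real.norm_eq_abs] at hz
    exact lt_irrefl _ hz
  have h5 : (b : ℂ)⁻¹ * (1 - -(z / (b : ℂ)))⁻¹ = (z + (b : ℂ))⁻¹ := by
    rw [← mul_inv]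
    congr 1
    field_simp
    ring
  rw [h5] at h2
  have e : (fun j : ℕ => ((coeff j (pinv b) : ℝ) : ℂ) * z ^ j) =
      fun j : ℕ => (b : ℂ)⁻¹ * (-(z / (b : ℂ))) ^ j := by
    funext j
    unfold pinv
    rw [coeff_mk]
    push_cast
    rw [neg_pow (z / (b : ℂ)), div_pow]
    field_simp
    ring
  rw [e]
  exact h2

end P4a177f
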