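import Pool.Agent.Lib.P4a177f.RowA

/-!
# MODULE P4a177f.FouF: the bound of the integral of `W ∏ f` (est. 1.2 h; Fourier series)

PROOF. `-I V1' = w ser'(w)`, `w = w1 r j t`, so `f_j(t) = δ_j + ∑_{m ≥ 0} h_{m+1} w^(m+1)`
(`ser_deriv_hasSum`), absolutely convergent, so for `p ≥ 1`
`∫_{[0,2π]} (e^{-it})^p f_j(t) dt = 2π h_p r^p` (`fourier_coeff`; integrate termwise,
`hasSum_integral_of_summable_norm` / `integral_tsum`, orthogonality of the exponentials; `δ_j`
contributes `0`). `W0 θ = ∑_{p ≥ 1} (h_p/p) r_0^p ∏_j (e^{-iθ_j})^p` (`ser_hasSum`, `w0`). So (termwise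
integration over the box, absolutely convergent because `∏ f` is bounded; Fubini
`P4a177e.IntTAux.fubini`) `∫ W ∏ f = ∑_{p≥1} (h_{0,p}/p) r_0^p ∏_j (2π h_{j,p} r_j^p)`, and
`r_0 ∏ r_j = 1/N` (`hr.prod`). Take norms (`norm_tsum_le_tsum_norm`, the series of norms converges:
`|h_{s,p}| r_s^p ≤ (r_s/RR_s)^p`).
-/

set_option autoImplicit false

namespace P4a177f

open P4a177h P4a177e Function MeasureTheory
open scoped Real

variable {d : ℕ} {A : Fam d} {g : Fin (d + 2) → ℕ} {N : ℕ} {q : ∀ s, Fin (A.m s + 1)}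
  {r : Fin (d + 2) → ℝ}

namespace FouFAux

theorem RR_pos' (h : GoodF A g N) (s : Fin (d + 2)) : 0 < RR (g s) (A.m s + 1) := by
  have hg := h.one_le_g s
  have : (0 : ℝ) < (g s : ℝ) := by exact_mod_cast hg
  unfold RR
  positivity

theorem int_exp (n : ℤ) : ∫ t in Set.Icc (0 : ℝ) (2 * π), Complex.exp ((n : ℂ) * Complex.I * t) =
    if n = 0 then ((2 * π : ℝ) : ℂ) else 0 := by
  rw [integral_Icc_eq_integral_Ioc, ← intervalIntegral.integral_of_le (by positivity)]
  split_ifs with hn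
  · subst hn
    simp
  · rw [integral_exp_mul_complex
      (mul_ne_zero (Int.cast_ne_zero.2 hn) Complex.I_ne_zero)]
    have e1 : Complex.exp ((n : ℂ) * Complex.I * ((2 * π : ℝ) : ℂ)) = 1 := by
      rw [Complex.exp_eq_one_iff]
      exact ⟨n, by push_cast; ring⟩
    rw [e1]
    simp

theorem exp_pow_mul (p m : ℕ) (t : ℝ) :
    Complex.exp (-(t * Complex.I)) ^ p * Complex.exp (t * Complex.I) ^ m =
      Complex.exp ((((m : ℤ) - (p : ℤ) : ℤ) : ℂ) * Complex.I * t) := by
  rw [← Complex.exp_nat_mul, ← Complex.exp_nat_mul, ← Complex.exp_add]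
  congr 1
  push_cast
  ring

theorem deriv_term (h : GoodF A g N) (hr : Rad A g N r) (j : Fin (d + 1))
    (i : Fin (A.m j.succ + 1)) (t : ℝ) :
    HasSum (fun m : ℕ => (hh A q j.succ i (m + 1) : ℂ) * w1 r j t ^ (m + 1))
      (-Complex.I * V1' A q r j i t) := by
  have hlt : ‖w1 r j t‖ < RR (g j.succ) (A.m j.succ + 1) := by
    rw [norm_w1 hr]
    exact hr.lt _
  have h1 := (ser_deriv_hasSum (RR_pos' h j.succ) (hh_le h q j.succ i) hlt).mul_left (w1 r j t)
  have e : -Complex.I * V1' A q r j i t =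
      w1 r j t * deriv (ser (hh A q j.succ i)) (w1 r j t) := by
    unfold V1'
    linear_combination (-(w1 r j t * deriv (ser (hh A q j.succ i)) (w1 r j t))) * Complex.I_mul_I
  rw [e]
  refine h1.congr_fun ?_ |> fun h => h
  intro m
  rw [pow_succ]
  ring

theorem ratio_lt (h : GoodF A g N) (hr : Rad A g N r) (s : Fin (d + 2)) :
    r s / RR (g s) (A.m s + 1) < 1 ∧ 0 < r s / RR (g s) (A.m s + 1) :=
  ⟨(div_lt_one (RR_pos' h s)).2 (hr.lt s), div_pos (hr.pos s) (RR_pos' h s)⟩

theorem hh_mul_le (h : GoodF A g N) (hr : Rad A g N r) (s : Fin (d + 2))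
    (k : Fin (A.m s + 1)) (m : ℕ) :
    |hh A q s k (m + 1)| * r s ^ (m + 1) ≤ (r s / RR (g s) (A.m s + 1)) ^ (m + 1) := by
  have h1 := hh_le h q s k (m + 1) (by omega)
  calc |hh A q s k (m + 1)| * r s ^ (m + 1)
      ≤ (1 / RR (g s) (A.m s + 1)) ^ (m + 1) * r s ^ (m + 1) :=
        mul_le_mul_of_nonneg_right h1 (pow_nonneg (hr.pos s).le _)
    _ = (r s / RR (g s) (A.m s + 1)) ^ (m + 1) := by
        rw [← mul_pow]
        congr 1
        ring

theorem summable_geo {x : ℝ} (h0 : 0 < x) (h1 : x < 1) : Summable fun m : ℕ => x ^ (m + 1) :=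
  (summable_nat_add_iff 1).2 (summable_geometric_of_lt_one h0.le h1)

theorem norm_e (t : ℝ) : ‖Complex.exp (t * Complex.I)‖ = 1 := Complex.norm_exp_ofReal_mul_I t

theorem norm_e' (t : ℝ) : ‖Complex.exp (-(t * Complex.I))‖ = 1 := by
  have h := Complex.norm_exp_ofReal_mul_I (-t)
  rw [← h]
  congr 2
  push_cast
  ring

end FouFAux

open FouFAux

theorem EF_summable (h : GoodF A g N) (i : ∀ s, Fin (A.m s + 1)) :
    Summable fun j : ℕ => (1 / (N : ℝ)) ^ (j + 1) / ((j : ℝ) + 1) *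
      ∏ s, |hh A q s (i s) (j + 1)| := by
  have hP := one_lt_prod_RR h
  set P := (N : ℝ) * ∏ s, RR (g s) (A.m s + 1) with hPd
  have hP0 : 0 < P := by linarith
  refine Summable.of_nonneg_of_le (fun j => ?_) (fun j => ?_)
    (summable_geo (x := 1 / P) (by positivity) ((div_lt_one hP0).2 hP))
  · exact mul_nonneg (by positivity) (Finset.prod_nonneg fun s _ => abs_nonneg _)
  · have h1 : ∏ s, |hh A q s (i s) (j + 1)| ≤ ∏ s, (1 / RR (g s) (A.m s + 1)) ^ (j + 1) :=
      Finset.prod_le_prod (fun s _ => abs_nonneg _) fun s _ => hh_le h q s (i s) (j + 1) (by omega)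
    have h2 : (1 / (N : ℝ)) ^ (j + 1) / ((j : ℝ) + 1) ≤ (1 / (N : ℝ)) ^ (j + 1) :=
      div_le_self (by positivity) (by
        have : (0 : ℝ) ≤ (j : ℝ) := Nat.cast_nonneg j
        linarith)
    calc (1 / (N : ℝ)) ^ (j + 1) / ((j : ℝ) + 1) * ∏ s, |hh A q s (i s) (j + 1)|
        ≤ (1 / (N : ℝ)) ^ (j + 1) * ∏ s, (1 / RR (g s) (A.m s + 1)) ^ (j + 1) :=
          mul_le_mul h2 h1 (Finset.prod_nonneg fun s _ => abs_nonneg _) (by positivity)
      _ = (1 / P) ^ (j + 1) := by
          rw [Finset.prod_pow, ← mul_pow, hPd]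
          congr 1
          rw [Finset.prod_div_distrib, Finset.prod_const_one, div_mul_div_comm, one_mul]

theorem fourier_coeff (h : GoodF A g N) (hr : Rad A g N r) (j : Fin (d + 1))
    (i : Fin (A.m j.succ + 1)) (p : ℕ) (hp : 1 ≤ p) :
    ∫ t in Set.Icc (0 : ℝ) (2 * π), Complex.exp (-(t * Complex.I)) ^ p *
      ((dl A q j.succ i : ℂ) + -Complex.I * V1' A q r j i t) =
      ((2 * π * (hh A q j.succ i p * r j.succ ^ p) : ℝ) : ℂ) := by
  have hcv := V1'_continuous (q := q) h hr j i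
  have hce : Continuous fun t : ℝ => Complex.exp (-(t * Complex.I)) := by fun_prop
  set F : ℕ → ℝ → ℂ := fun m t => Complex.exp (-(t * Complex.I)) ^ p *
    ((hh A q j.succ i (m + 1) : ℂ) * w1 r j t ^ (m + 1)) with hF
  have hw : ∀ t, w1 r j t = (r j.succ : ℂ) * Complex.exp (t * Complex.I) := fun t => rfl
  have hcw : Continuous fun t : ℝ => w1 r j t := by
    unfold w1
    fun_prop
  have hFc : ∀ m, Continuous (F m) := fun m =>
    (hce.pow p).mul (continuous_const.mul (hcw.pow (m + 1)))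
  have hFi : ∀ m, Integrable (F m) (volume.restrict (Set.Icc (0 : ℝ) (2 * π))) := fun m =>
    (hFc m).continuousOn.integrableOn_compact isCompact_Icc
  have hnF : ∀ m t, ‖F m t‖ = |hh A q j.succ i (m + 1)| * r j.succ ^ (m + 1) := by
    intro m t
    rw [hF]
    simp only
    rw [norm_mul, norm_pow, norm_e', one_pow, one_mul, norm_mul, norm_pow, norm_w1 hr,
      Complex.norm_real, Real.norm_eq_abs]
  have hsum : Summable fun m => ∫ t in Set.Icc (0 : ℝ) (2 * π), ‖F m t‖ := by
    simp_rw [hnF]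
    have e1 : ∀ m : ℕ, ∫ _ in Set.Icc (0 : ℝ) (2 * π),
        |hh A q j.succ i (m + 1)| * r j.succ ^ (m + 1) =
        2 * π * (|hh A q j.succ i (m + 1)| * r j.succ ^ (m + 1)) := by
      intro m
      rw [integral_Icc_eq_integral_Ioc, ← intervalIntegral.integral_of_le (by positivity),
        intervalIntegral.integral_const, smul_eq_mul, sub_zero]
    simp_rw [e1]
    refine Summable.mul_left _ ?_
    obtain ⟨hx1, hx0⟩ := ratio_lt h hr j.succ
    exact Summable.of_nonneg_of_le (fun m => mul_nonneg (abs_nonneg _) (pow_nonneg (hr.pos _).le _))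
      (fun m => hh_mul_le h hr j.succ i m) (summable_geo hx0 hx1)
  have hmain := hasSum_integral_of_summable_integral_norm hFi hsum
  have hts : ∀ t, ∑' m, F m t = Complex.exp (-(t * Complex.I)) ^ p *
      (-Complex.I * V1' A q r j i t) := fun t => ((deriv_term h hr j i t).mul_left _).tsum_eq
  simp_rw [hts] at hmain
  have hFint : ∀ m, ∫ t in Set.Icc (0 : ℝ) (2 * π), F m t = if m = p - 1 then
      ((2 * π * (hh A q j.succ i p * r j.succ ^ p) : ℝ) : ℂ) else 0 := by
    intro m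
    have e1 : ∀ t, F m t = ((hh A q j.succ i (m + 1) : ℂ) * (r j.succ : ℂ) ^ (m + 1)) *
        Complex.exp (((((m + 1 : ℕ) : ℤ) - (p : ℤ) : ℤ) : ℂ) * Complex.I * t) := by
      intro t
      rw [← exp_pow_mul, hF]
      simp only
      rw [hw, mul_pow]
      ring
    simp_rw [e1]
    rw [integral_const_mul, int_exp]
    by_cases hm : m = p - 1
    · rw [if_pos hm, if_pos (by omega), show m + 1 = p by omega]
      push_cast
      ring
    · rw [if_neg hm, if_neg (by omega), mul_zero]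
  simp_rw [hFint] at hmain
  have h1 := (hasSum_ite_eq (p - 1)
    ((2 * π * (hh A q j.succ i p * r j.succ ^ p) : ℝ) : ℂ)).unique hmain
  have hsplit : ∫ t in Set.Icc (0 : ℝ) (2 * π), Complex.exp (-(t * Complex.I)) ^ p *
      ((dl A q j.succ i : ℂ) + -Complex.I * V1' A q r j i t) =
      (∫ t in Set.Icc (0 : ℝ) (2 * π), Complex.exp (-(t * Complex.I)) ^ p *
        (dl A q j.succ i : ℂ)) +
      ∫ t in Set.Icc (0 : ℝ) (2 * π), Complex.exp (-(t * Complex.I)) ^ p *
        (-Complex.I * V1' A q r j i t) := by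
    rw [← integral_add]
    · refine integral_congr_ae (Filter.Eventually.of_forall fun t => ?_)
      simp only
      ring
    · exact ((hce.pow p).mul continuous_const).continuousOn.integrableOn_compact isCompact_Icc
    · exact ((hce.pow p).mul (continuous_const.mul hcv)).continuousOn.integrableOn_compact
        isCompact_Icc
  have hzero : ∫ t in Set.Icc (0 : ℝ) (2 * π), Complex.exp (-(t * Complex.I)) ^ p *
        (dl A q j.succ i : ℂ) = 0 := by
    have e1 : ∀ t : ℝ, Complex.exp (-(t * Complex.I)) ^ p * (dl A q j.succ i : ℂ) =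
        (dl A q j.succ i : ℂ) *
          Complex.exp (((((0 : ℕ) : ℤ) - (p : ℤ) : ℤ) : ℂ) * Complex.I * t) := by
      intro t
      rw [← exp_pow_mul, pow_zero]
      ring
    simp_rw [e1]
    rw [integral_const_mul, int_exp, if_neg (by omega), mul_zero]
  rw [hsplit, hzero, zero_add, ← h1]

theorem integral_W_le (h : GoodF A g N) (hr : Rad A g N r) (i : ∀ s, Fin (A.m s + 1)) :
    |(∫ θ in box (d + 1), W0 A q r (i 0) θ * ∏ j : Fin (d + 1),
      ((dl A q j.succ (i j.succ) : ℂ) + -Complex.I * V1' A q r j (i j.succ) (θ j))).re| ≤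
      (2 * π) ^ (d + 1) * EF A N q i := by
  have hcv := fun j : Fin (d + 1) => V1'_continuous (q := q) h hr j (i j.succ)
  set f : Fin (d + 1) → ℝ → ℂ := fun j t =>
    (dl A q j.succ (i j.succ) : ℂ) + -Complex.I * V1' A q r j (i j.succ) t with hf
  have hfc : ∀ j, Continuous (f j) := fun j =>
    continuous_const.add (continuous_const.mul (hcv j))
  have hce : Continuous fun t : ℝ => Complex.exp (-(t * Complex.I)) := by fun_prop
  -- the termwise functions
  set u : ℕ → Fin (d + 1) → ℝ → ℂ := fun m j t =>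
    Complex.exp (-(t * Complex.I)) ^ (m + 1) * f j t with hu
  set c : ℕ → ℂ := fun m =>
    (hh A q 0 (i 0) (m + 1) : ℂ) / ((m : ℂ) + 1) * (r 0 : ℂ) ^ (m + 1) with hcdef
  set F : ℕ → (Fin (d + 1) → ℝ) → ℂ := fun m θ => c m * ∏ j, u m j (θ j) with hF
  have huc : ∀ m j, Continuous (u m j) := fun m j => (hce.pow (m + 1)).mul (hfc j)
  have hpc : Continuous fun θ : Fin (d + 1) → ℝ => ∏ j, f j (θ j) :=
    continuous_finsetProd _ fun j _ => (hfc j).comp (continuous_apply j)
  have hFc : ∀ m, Continuous (F m) := fun m =>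
    continuous_const.mul (continuous_finsetProd _ fun j _ => (huc m j).comp (continuous_apply j))
  have hFi : ∀ m, Integrable (F m) (volume.restrict (box (d + 1))) := fun m =>
    IntTAux.int_box (hFc m)
  have hnF : ∀ m θ, ‖F m θ‖ = ‖c m‖ * ‖∏ j, f j (θ j)‖ := by
    intro m θ
    rw [hF]
    simp only
    rw [norm_mul, norm_prod, norm_prod]
    congr 1
    refine Finset.prod_congr rfl fun j _ => ?_
    rw [hu]
    simp only
    rw [norm_mul, norm_pow, norm_e', one_pow, one_mul]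
  obtain ⟨hx1, hx0⟩ := ratio_lt h hr 0
  have hcn : ∀ m : ℕ, ‖c m‖ = |hh A q 0 (i 0) (m + 1)| / ((m : ℝ) + 1) * r 0 ^ (m + 1) := by
    intro m
    rw [hcdef]
    simp only
    rw [norm_mul, norm_div, norm_pow, Complex.norm_real, Complex.norm_real, Real.norm_eq_abs,
      Real.norm_eq_abs, abs_of_pos (hr.pos 0)]
    congr 2
    have e1 : ((m : ℂ) + 1) = (((m : ℝ) + 1 : ℝ) : ℂ) := by push_cast; rfl
    rw [e1, Complex.norm_real, Real.norm_eq_abs, abs_of_pos (by positivity)]
  have hcle : ∀ m : ℕ, ‖c m‖ ≤ (r 0 / RR (g 0) (A.m 0 + 1)) ^ (m + 1) := by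
    intro m
    rw [hcn]
    refine le_trans ?_ (hh_mul_le (q := q) h hr 0 (i 0) m)
    refine mul_le_mul_of_nonneg_right (div_le_self (abs_nonneg _) ?_) (pow_nonneg (hr.pos 0).le _)
    have : (0 : ℝ) ≤ (m : ℝ) := Nat.cast_nonneg m
    linarith
  have hcsum : Summable fun m => ‖c m‖ :=
    Summable.of_nonneg_of_le (fun m => norm_nonneg _) hcle (summable_geo hx0 hx1)
  have hsum : Summable fun m => ∫ θ in box (d + 1), ‖F m θ‖ := by
    simp_rw [hnF, integral_const_mul]
    exact hcsum.mul_right _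
  have hmain := hasSum_integral_of_summable_integral_norm hFi hsum
  have hts : ∀ θ, ∑' m, F m θ = W0 A q r (i 0) θ * ∏ j, f j (θ j) := by
    intro θ
    have hlt : ‖w0 r θ‖ < RR (g 0) (A.m 0 + 1) := by
      rw [norm_w0 hr]
      exact hr.lt 0
    have h1 := (ser_hasSum (RR_pos' h 0) (hh_le h q 0 (i 0)) hlt).mul_right (∏ j, f j (θ j))
    have h2 : (fun m : ℕ => (hh A q 0 (i 0) (m + 1) : ℂ) / ((m : ℂ) + 1) * w0 r θ ^ (m + 1) *
        ∏ j, f j (θ j)) = fun m => F m θ := by
      funext m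
      rw [hF]
      simp only
      rw [hu]
      simp only
      rw [Finset.prod_mul_distrib, Finset.prod_pow, ← Complex.exp_sum, hcdef]
      simp only
      unfold w0
      rw [mul_pow, Finset.sum_neg_distrib, ← Finset.sum_mul, neg_mul]
      ring
    rw [h2] at h1
    exact h1.tsum_eq
  simp_rw [hts] at hmain
  have hFint : ∀ m : ℕ, ∫ θ in box (d + 1), F m θ =
      (((2 * π) ^ (d + 1) * ((1 / (N : ℝ)) ^ (m + 1) / ((m : ℝ) + 1) *
        ∏ s, hh A q s (i s) (m + 1)) : ℝ) : ℂ) := by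
    intro m
    rw [hF]
    simp only
    rw [integral_const_mul, IntTAux.fubini]
    have e1 : ∀ j : Fin (d + 1), ∫ t in Set.Icc (0 : ℝ) (2 * π), u m j t =
        ((2 * π * (hh A q j.succ (i j.succ) (m + 1) * r j.succ ^ (m + 1)) : ℝ) : ℂ) := fun j =>
      fourier_coeff h hr j (i j.succ) (m + 1) (by omega)
    rw [Finset.prod_congr rfl fun j _ => e1 j, ← Complex.ofReal_prod]
    have e2 : c m = ((hh A q 0 (i 0) (m + 1) / ((m : ℝ) + 1) * r 0 ^ (m + 1) : ℝ) : ℂ) := by
      rw [hcdef]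
      push_cast
      rfl
    rw [e2, ← Complex.ofReal_mul]
    congr 1
    rw [Finset.prod_mul_distrib, Finset.prod_const, Finset.card_univ, Fintype.card_fin,
      Finset.prod_mul_distrib, Finset.prod_pow, Fin.prod_univ_succ (fun s => hh A q s (i s) (m + 1))]
    have hN : (1 / (N : ℝ)) = r 0 * ∏ j : Fin (d + 1), r j.succ := by
      have h1 := hr.prod
      rw [Fin.prod_univ_succ] at h1
      have hN0 : (N : ℝ) ≠ 0 := by
        intro h0
        rw [h0, zero_mul] at h1
        exact zero_ne_one h1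
      field_simp
      linarith
    rw [hN, mul_pow]
    ring
  simp_rw [hFint] at hmain
  rw [← hmain.tsum_eq, ← Complex.ofReal_tsum, Complex.ofReal_re, tsum_mul_left, abs_mul,
    abs_of_pos (by positivity : (0 : ℝ) < (2 * π) ^ (d + 1))]
  refine mul_le_mul_of_nonneg_left ?_ (by positivity)
  unfold EF
  have hs := EF_summable (q := q) h i
  have habs : ∀ m : ℕ, ‖(1 / (N : ℝ)) ^ (m + 1) / ((m : ℝ) + 1) * ∏ s, hh A q s (i s) (m + 1)‖ =
      (1 / (N : ℝ)) ^ (m + 1) / ((m : ℝ) + 1) * ∏ s, |hh A q s (i s) (m + 1)| := by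
    intro m
    rw [norm_mul, Real.norm_eq_abs, Real.norm_eq_abs, Finset.abs_prod, abs_of_nonneg (by positivity)]
  have h3 : Summable fun m : ℕ =>
      ‖(1 / (N : ℝ)) ^ (m + 1) / ((m : ℝ) + 1) * ∏ s, hh A q s (i s) (m + 1)‖ := by
    simp_rw [habs]
    exact hs
  have h4 := norm_tsum_le_tsum_norm h3
  simp_rw [habs] at h4
  rw [Real.norm_eq_abs] at h4
  exact h4

end P4a177f
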