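import Pool.Agent.Lib.P4a177f.Defs

/-!
# MODULE P4a177f.IntF: the exact formula for the integral of the regulator form (est. 1.5 h; Fubini)

Put `f_j = δ_j - I V_j'`, `E_k(θ) = (∏_{j<k} Re f_j)(Re ∏_{j>k} f_j)` (it does not depend on `θ k`).
PROOF (all functions continuous, `IntTAux.int_box`, `IntTAux.fubini`, `IntTAux.re_int`,
`integral_partial` as in Pool/Agent/Lib/P4a177e/IntT.lean). `∫_{[0,2π]} f_j = 2π δ_j` (`V_j` periodic).
1. `∫ c0 Re ∏ f = c0 (2π)^n ∏ δ`.
2. `∫ c_k δ0 E_k = (2π)^n c_k δ0 ∏_{l≠k} δ_l`; `∫ Re V_k δ0 E_k = 0` (`∫ V_k = 0`, Fubini);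
   `c_k ∫ Re(-I ∂_k W) E_k = 0` (as in `integral_TJ`; `integral_partial`).
   SHORT: split `(c_k + Re V_k)(-δ0 + Re(-I ∂_k W))` as `c_k (-δ0 + Re(-I ∂_k W)) + Re V_k (-δ0)
   + Re V_k Re(-I ∂_k W)`: the first is `P4a177e.integral_TJ` with `lam = 0`, `G = 0`, the second is
   `integral_TJ` with `c = 0`, `W = 0`, `B = 0` (`|x| ≤ G * 0 * _ = 0` gives equalities); item 1 is
   `P4a177e.integral_T0` with `Λ = 0`, `W = 0`, `w = 0`.
3. `∫ Re V_k Re(-I ∂_k W) E_k = -∫ Re V_k' Re(-I W) E_k = ∫ Im f_k Im W E_k` (`integral_partial` applied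
   to `Re V_k(θ k) Re(-I W θ) E_k(θ)`; `Re(-I W) = Im W`, `Im f_k = -Re V_k'`).
4. `∑_k Im f_k E_k = Im ∏ f`: `J_k = ∏_{j<k} Re f_j * Im ∏_{j≥k} f_j`, `J_k - J_{k+1} = Im f_k E_k`;
   `sum_im_prod` below (induction on `n`, `Fin.prod_univ_succ`, `Fin.sum_univ_succ`).
5. `∫ (Re W Re ∏ f - Im W Im ∏ f) = Re ∫ W ∏ f`.
So the left side is `(2π)^n (c0 ∏ δ + δ0 ∑ c_k ∏_{l≠k} δ_l) + ∫ Re W Re ∏ f - ∑_k ∫ Im f_k Im W E_k`.
-/

set_option autoImplicit false

namespace P4a177f

open P4a177h P4a177e Function MeasureTheory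
open scoped Real

namespace IntFAux

lemma E_cont {n : ℕ} (k : Fin n) (f : Fin n → ℝ → ℂ) (hf : ∀ j, Continuous (f j)) :
    Continuous fun θ : Fin n → ℝ =>
      (∏ j with j < k, (f j (θ j)).re) * (∏ j with k < j, f j (θ j)).re := by
  have hfc : ∀ j, Continuous fun θ : Fin n → ℝ => f j (θ j) := fun j =>
    (hf j).comp (continuous_apply j)
  exact (continuous_finsetProd _ fun j _ => Complex.continuous_re.comp (hfc j)).mul
      (Complex.continuous_re.comp (continuous_finsetProd _ fun j _ => hfc j))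

lemma E_update {n : ℕ} (k : Fin n) (f : Fin n → ℝ → ℂ) (θ : Fin n → ℝ) (s : ℝ) :
    (∏ j with j < k, (f j (update θ k s j)).re) * (∏ j with k < j, f j (update θ k s j)).re =
      (∏ j with j < k, (f j (θ j)).re) * (∏ j with k < j, f j (θ j)).re := by
  congr 1
  · refine Finset.prod_congr rfl fun j hj => ?_
    rw [Finset.mem_filter] at hj
    rw [update_of_ne hj.2.ne]
  · congr 1
    refine Finset.prod_congr rfl fun j hj => ?_
    rw [Finset.mem_filter] at hj
    rw [update_of_ne hj.2.ne']

lemma int_E {n : ℕ} (k : Fin n) (ρ : ℝ → ℝ) (hρ : Continuous ρ) (f : Fin n → ℝ → ℂ)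
    (hf : ∀ j, Continuous (f j)) (δ : Fin n → ℝ)
    (hδ : ∀ j, ∫ t in Set.Icc (0 : ℝ) (2 * π), f j t = ((2 * π * δ j : ℝ) : ℂ)) :
    ∫ θ in box n, ρ (θ k) *
        ((∏ j with j < k, (f j (θ j)).re) * (∏ j with k < j, f j (θ j)).re) =
      (∫ t in Set.Icc (0 : ℝ) (2 * π), ρ t) * ∏ l ∈ Finset.univ.erase k, (2 * π * δ l) := by
  classical
  set u : Fin n → ℝ → ℂ := fun l t => if l = k then ((ρ t : ℝ) : ℂ)
    else if l < k then ((f l t).re : ℂ) else f l t with hu
  have huk : ∀ t, u k t = ((ρ t : ℝ) : ℂ) := fun t => if_pos rfl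
  have hul : ∀ l, l < k → ∀ t, u l t = ((f l t).re : ℂ) := fun l hl t => by
    rw [hu]
    simp only
    rw [if_neg hl.ne, if_pos hl]
  have hug : ∀ l, k < l → ∀ t, u l t = f l t := fun l hl t => by
    rw [hu]
    simp only
    rw [if_neg hl.ne', if_neg (not_lt.mpr hl.le)]
  have huc : ∀ l, Continuous (u l) := by
    intro l
    rcases lt_trichotomy l k with hl | hl | hl
    · have e : u l = fun t => ((f l t).re : ℂ) := funext (hul l hl)
      rw [e]
      exact Complex.continuous_ofReal.comp (Complex.continuous_re.comp (hf l))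
    · have e : u l = fun t => ((ρ t : ℝ) : ℂ) := by
        rw [hl]
        exact funext huk
      rw [e]
      exact Complex.continuous_ofReal.comp hρ
    · have e : u l = f l := funext (hug l hl)
      rw [e]
      exact hf l
  have e1 : ∀ θ : Fin n → ℝ, ρ (θ k) *
      ((∏ j with j < k, (f j (θ j)).re) * (∏ j with k < j, f j (θ j)).re) =
      (∏ l, u l (θ l)).re := by
    intro θ
    rw [← Finset.mul_prod_erase _ _ (Finset.mem_univ k), IntTAux.split, huk]
    have e2 : ∏ j with j < k, u j (θ j) = ((∏ j with j < k, (f j (θ j)).re : ℝ) : ℂ) := by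
      rw [Complex.ofReal_prod]
      refine Finset.prod_congr rfl fun j hj => ?_
      rw [Finset.mem_filter] at hj
      exact hul j hj.2 _
    have e3 : ∏ j with k < j, u j (θ j) = ∏ j with k < j, f j (θ j) := by
      refine Finset.prod_congr rfl fun j hj => ?_
      rw [Finset.mem_filter] at hj
      exact hug j hj.2 _
    rw [e2, e3, Complex.re_ofReal_mul, Complex.re_ofReal_mul]
  have hUc : Continuous fun θ : Fin n → ℝ => ∏ l, u l (θ l) :=
    continuous_finsetProd _ fun l _ => (huc l).comp (continuous_apply l)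
  simp_rw [e1]
  rw [IntTAux.re_int hUc, IntTAux.fubini, ← Finset.mul_prod_erase _ _ (Finset.mem_univ k)]
  have e4 : ∏ l ∈ Finset.univ.erase k, ∫ t in Set.Icc (0 : ℝ) (2 * π), u l t =
      ((∏ l ∈ Finset.univ.erase k, (2 * π * δ l) : ℝ) : ℂ) := by
    rw [Complex.ofReal_prod]
    refine Finset.prod_congr rfl fun l hl => ?_
    rcases lt_trichotomy l k with h | h | h
    · simp_rw [hul l h]
      rw [integral_complex_ofReal, IntTAux.re_int1 (hf l), hδ l, Complex.ofReal_re]
    · exact absurd h (Finset.ne_of_mem_erase hl)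
    · simp_rw [hug l h]
      rw [hδ l]
  rw [e4]
  simp_rw [huk]
  rw [integral_complex_ofReal, ← Complex.ofReal_mul, Complex.ofReal_re]

lemma int_part {n : ℕ} (k : Fin n) (ρ ρ' : ℝ → ℝ) (hρ : ∀ t, HasDerivAt ρ (ρ' t) t)
    (hρ' : Continuous ρ') (hρper : ∀ t, ρ (t + 2 * π) = ρ t) (f : Fin n → ℝ → ℂ)
    (hf : ∀ j, Continuous (f j)) (W : (Fin n → ℝ) → ℂ)
    (hW : ContDiff ℝ 2 W) (hper : ∀ θ l, W (update θ l (θ l + 2 * π)) = W θ) :
    ∫ θ in box n, ρ (θ k) * (-Complex.I * fderiv ℝ W θ (Pi.single k 1)).re *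
        ((∏ j with j < k, (f j (θ j)).re) * (∏ j with k < j, f j (θ j)).re) =
      -∫ θ in box n, ρ' (θ k) * (-Complex.I * W θ).re *
        ((∏ j with j < k, (f j (θ j)).re) * (∏ j with k < j, f j (θ j)).re) := by
  set E : (Fin n → ℝ) → ℝ := fun θ =>
    (∏ j with j < k, (f j (θ j)).re) * (∏ j with k < j, f j (θ j)).re with hE
  have hEc : Continuous E := E_cont k f hf
  have hEu : ∀ θ s, E (update θ k s) = E θ := E_update k f
  set D : (Fin n → ℝ) → ℂ := fun θ => fderiv ℝ W θ (Pi.single k 1) with hD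
  have hDc : Continuous D := (hW.continuous_fderiv (by norm_num)).clm_apply continuous_const
  have hDre : Continuous fun θ => (-Complex.I * D θ).re :=
    Complex.continuous_re.comp (continuous_const.mul hDc)
  have hWre : Continuous fun θ => (-Complex.I * W θ).re :=
    Complex.continuous_re.comp (continuous_const.mul hW.continuous)
  have hρc : Continuous ρ := continuous_iff_continuousAt.2 fun t => (hρ t).continuousAt
  have hρk : Continuous fun θ : Fin n → ℝ => ρ (θ k) := hρc.comp (continuous_apply k)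
  have hρk' : Continuous fun θ : Fin n → ℝ => ρ' (θ k) := hρ'.comp (continuous_apply k)
  have c1 : Continuous fun θ : Fin n → ℝ => ρ (θ k) * (-Complex.I * D θ).re * E θ :=
    (hρk.mul hDre).mul hEc
  have c2 : Continuous fun θ : Fin n → ℝ => ρ' (θ k) * (-Complex.I * W θ).re * E θ :=
    (hρk'.mul hWre).mul hEc
  have e1 := integral_partial
    (fun θ => ((ρ (θ k) * (-Complex.I * W θ).re * E θ : ℝ) : ℂ))
    (fun θ => ((ρ' (θ k) * (-Complex.I * W θ).re * E θ +
      ρ (θ k) * (-Complex.I * D θ).re * E θ : ℝ) : ℂ)) k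
    (Complex.continuous_ofReal.comp (c2.add c1)) (by
      intro θ
      have g1 : HasFDerivAt W (fderiv ℝ W θ) (update θ k (θ k)) := by
        rw [update_eq_self]
        exact (hW.differentiable (by norm_num) θ).hasFDerivAt
      have g2 : HasDerivAt (fun s => W (update θ k s)) (D θ) (θ k) :=
        g1.comp_hasDerivAt (θ k) (hasDerivAt_update θ k (θ k))
      have g3 : HasDerivAt (fun s => (-Complex.I * W (update θ k s)).re)
          (-Complex.I * D θ).re (θ k) :=
        Complex.reCLM.hasFDerivAt.comp_hasDerivAt (θ k) (g2.const_mul (-Complex.I))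
      have g5 : HasDerivAt (fun s => ρ s * (-Complex.I * W (update θ k s)).re)
          (ρ' (θ k) * (-Complex.I * W θ).re + ρ (θ k) * (-Complex.I * D θ).re) (θ k) := by
        have g6 := (hρ (θ k)).mul g3
        rw [update_eq_self] at g6
        exact g6
      have g4 : HasDerivAt (fun s => ((ρ s * (-Complex.I * W (update θ k s)).re * E θ : ℝ) : ℂ))
          (((ρ' (θ k) * (-Complex.I * W θ).re * E θ +
            ρ (θ k) * (-Complex.I * D θ).re * E θ : ℝ) : ℂ)) (θ k) := by
        rw [← add_mul]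
        exact (g5.mul_const (E θ)).ofReal_comp
      simp_rw [hEu, update_self]
      exact g4) (by
      intro θ
      rw [hper, hEu, update_self, hρper])
  rw [integral_complex_ofReal] at e1
  have e2 : ∫ θ in box n, (ρ' (θ k) * (-Complex.I * W θ).re * E θ +
      ρ (θ k) * (-Complex.I * D θ).re * E θ) = 0 := by exact_mod_cast e1
  rw [integral_add (IntTAux.int_box c2) (IntTAux.int_box c1)] at e2
  linarith

end IntFAux

/-- The telescoping identity. -/
theorem sum_im_prod {n : ℕ} (f : Fin n → ℂ) :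
    ∑ k : Fin n, (f k).im * ((∏ j with j < k, (f j).re) * (∏ j with k < j, f j).re) =
      (∏ j, f j).im := by
  induction n with
  | zero => simp
  | succ n ih =>
    have h := ih (fun i => f i.succ)
    simp only [Finset.prod_filter] at h ⊢
    rw [Fin.sum_univ_succ]
    simp only [Fin.prod_univ_succ, Fin.succ_lt_succ_iff, Fin.succ_pos, Fin.not_lt_zero, if_true,
      if_false, lt_self_iff_false, Finset.prod_const_one, one_mul]
    rw [Complex.mul_im, ← h, Finset.mul_sum, add_comm]
    congr 1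
    exact Finset.sum_congr rfl fun i _ => by ring

theorem integral_exact {n : ℕ} (c0 δ0 : ℝ) (c δ : Fin n → ℝ) (W : (Fin n → ℝ) → ℂ)
    (hW : ContDiff ℝ 2 W) (hper : ∀ θ l, W (update θ l (θ l + 2 * π)) = W θ)
    (V V' : Fin n → ℝ → ℂ) (hV : ∀ k t, HasDerivAt (V k) (V' k t) t)
    (hV' : ∀ k, Continuous (V' k)) (hVper : ∀ k t, V k (t + 2 * π) = V k t)
    (hV0 : ∀ k, ∫ t in Set.Icc (0 : ℝ) (2 * π), V k t = 0) :
    (∫ θ in box n, (c0 + (W θ).re) * (∏ j, ((δ j : ℂ) + -Complex.I * V' j (θ j))).re) -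
      ∑ k : Fin n, ∫ θ in box n, (c k + (V k (θ k)).re) *
        (-(δ0 : ℂ) + -Complex.I * fderiv ℝ W θ (Pi.single k 1)).re *
        ((∏ j with j < k, ((δ j : ℂ) + -Complex.I * V' j (θ j)).re) *
          (∏ j with k < j, ((δ j : ℂ) + -Complex.I * V' j (θ j))).re) =
      (2 * π) ^ n * (c0 * ∏ j, δ j + δ0 * ∑ k, c k * ∏ l ∈ Finset.univ.erase k, δ l) +
        (∫ θ in box n, W θ * ∏ j, ((δ j : ℂ) + -Complex.I * V' j (θ j))).re := by
  classical
  have h2π : (0 : ℝ) ≤ 2 * π := by positivity
  set f : Fin n → ℝ → ℂ := fun j t => (δ j : ℂ) + -Complex.I * V' j t with hf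
  have hfc : ∀ j, Continuous (f j) := fun j => continuous_const.add (continuous_const.mul (hV' j))
  have hVc : ∀ k, Continuous (V k) := fun k =>
    continuous_iff_continuousAt.2 fun t => (hV k t).continuousAt
  have hδ : ∀ j, ∫ t in Set.Icc (0 : ℝ) (2 * π), f j t = ((2 * π * δ j : ℝ) : ℂ) := by
    intro j
    have e0 : ∫ t in (0 : ℝ)..(2 * π), V' j t = 0 := by
      rw [intervalIntegral.integral_eq_sub_of_hasDerivAt (fun t _ => hV j t)
        ((hV' j).intervalIntegrable _ _)]
      have := hVper j 0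
      rw [zero_add] at this
      rw [this, sub_self]
    rw [integral_Icc_eq_integral_Ioc, ← intervalIntegral.integral_of_le h2π, hf]
    have c1 : Continuous fun t => -Complex.I * V' j t := continuous_const.mul (hV' j)
    simp only
    rw [intervalIntegral.integral_add intervalIntegrable_const (c1.intervalIntegrable _ _),
      intervalIntegral.integral_const_mul, e0, mul_zero, add_zero,
      intervalIntegral.integral_const, sub_zero, Complex.real_smul]
    push_cast
    ring
  set P : (Fin n → ℝ) → ℂ := fun θ => ∏ j, f j (θ j) with hP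
  have hPc : Continuous P :=
    continuous_finsetProd _ fun j _ => (hfc j).comp (continuous_apply j)
  have hPre : Continuous fun θ => (P θ).re := Complex.continuous_re.comp hPc
  have hPim : Continuous fun θ => (P θ).im := Complex.continuous_im.comp hPc
  have hWre : Continuous fun θ => (W θ).re := Complex.continuous_re.comp hW.continuous
  have hWim : Continuous fun θ => (W θ).im := Complex.continuous_im.comp hW.continuous
  set E : Fin n → (Fin n → ℝ) → ℝ := fun k θ =>
    (∏ j with j < k, (f j (θ j)).re) * (∏ j with k < j, f j (θ j)).re with hE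
  have hEc : ∀ k, Continuous (E k) := fun k => IntFAux.E_cont k f hfc
  -- the constant term
  have h1 : ∫ θ in box n, (P θ).re = (2 * π) ^ n * ∏ j, δ j := by
    rw [IntTAux.re_int hPc, hP, IntTAux.fubini, Finset.prod_congr rfl fun j _ => hδ j,
      ← Complex.ofReal_prod, Complex.ofReal_re, Finset.prod_mul_distrib, Finset.prod_const,
      Finset.card_univ, Fintype.card_fin]
  have h2 : ∀ k, ∫ θ in box n, (c k + (V k (θ k)).re) * E k θ =
      (2 * π) ^ n * (c k * ∏ l ∈ Finset.univ.erase k, δ l) := by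
    intro k
    have e1 := IntFAux.int_E k (fun t => c k + (V k t).re)
      (continuous_const.add (Complex.continuous_re.comp (hVc k))) f hfc δ hδ
    have e2 : ∫ t in Set.Icc (0 : ℝ) (2 * π), (c k + (V k t).re) = 2 * π * c k := by
      rw [integral_add, IntTAux.re_int1 (hVc k), hV0 k, Complex.zero_re, add_zero,
        setIntegral_const, smul_eq_mul, Measure.real, Real.volume_Icc, sub_zero,
        ENNReal.toReal_ofReal h2π]
      · exact (continuous_const.integrableOn_Icc)
      · exact (Complex.continuous_re.comp (hVc k)).integrableOn_Icc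
    rw [e2] at e1
    have e3 := IntTAux.prod_erase δ k
    rw [e1]
    linear_combination (c k) * e3
  have h3 : ∀ k, ∫ θ in box n, (c k + (V k (θ k)).re) *
      (-Complex.I * fderiv ℝ W θ (Pi.single k 1)).re * E k θ =
      ∫ θ in box n, (f k (θ k)).im * (W θ).im * E k θ := by
    intro k
    have e1 := IntFAux.int_part k (fun t => c k + (V k t).re) (fun t => (V' k t).re)
      (fun t => ((Complex.reCLM.hasFDerivAt.comp_hasDerivAt t (hV k t)).const_add (c k)))
      (Complex.continuous_re.comp (hV' k)) (fun t => by rw [hVper]) f hfc W hW hper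
    rw [e1, ← integral_neg]
    congr 1
    funext θ
    have e2 : (-Complex.I * W θ).re = (W θ).im := by
      simp [Complex.mul_re]
    have e3 : (f k (θ k)).im = -(V' k (θ k)).re := by
      rw [hf]
      simp [Complex.mul_im]
    rw [e2, e3]
    ring
  have hDre : ∀ k, Continuous fun θ => (-Complex.I * fderiv ℝ W θ (Pi.single k 1)).re := fun k =>
    Complex.continuous_re.comp (continuous_const.mul
      ((hW.continuous_fderiv (by norm_num)).clm_apply continuous_const))
  have hcV : ∀ k, Continuous fun θ : Fin n → ℝ => c k + (V k (θ k)).re := fun k =>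
    continuous_const.add (Complex.continuous_re.comp ((hVc k).comp (continuous_apply k)))
  have h4 : ∀ k, ∫ θ in box n, (c k + (V k (θ k)).re) *
        (-(δ0 : ℂ) + -Complex.I * fderiv ℝ W θ (Pi.single k 1)).re * E k θ =
      -δ0 * ((2 * π) ^ n * (c k * ∏ l ∈ Finset.univ.erase k, δ l)) +
        ∫ θ in box n, (f k (θ k)).im * (W θ).im * E k θ := by
    intro k
    rw [← h2 k, ← h3 k, ← integral_const_mul, ← integral_add]
    · congr 1
      funext θ
      rw [Complex.add_re, Complex.neg_re, Complex.ofReal_re]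
      ring
    · exact IntTAux.int_box (continuous_const.mul ((hcV k).mul (hEc k)))
    · exact IntTAux.int_box (((hcV k).mul (hDre k)).mul (hEc k))
  have h5 : ∑ k, ∫ θ in box n, (f k (θ k)).im * (W θ).im * E k θ =
      ∫ θ in box n, (W θ).im * (P θ).im := by
    rw [← integral_finsetSum]
    · congr 1
      funext θ
      rw [hP]
      simp only
      rw [← sum_im_prod (fun j => f j (θ j)), Finset.mul_sum]
      exact Finset.sum_congr rfl fun k _ => by
        rw [hE]
        ring
    · intro k _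
      exact IntTAux.int_box (((Complex.continuous_im.comp
        ((hfc k).comp (continuous_apply k))).mul hWim).mul (hEc k))
  have h6 : ∫ θ in box n, (c0 + (W θ).re) * (P θ).re =
      c0 * ((2 * π) ^ n * ∏ j, δ j) + ∫ θ in box n, (W θ).re * (P θ).re := by
    rw [← h1, ← integral_const_mul, ← integral_add]
    · congr 1
      funext θ
      ring
    · exact IntTAux.int_box (continuous_const.mul hPre)
    · exact IntTAux.int_box (hWre.mul hPre)
  have h7 : (∫ θ in box n, W θ * P θ).re =
      (∫ θ in box n, (W θ).re * (P θ).re) - ∫ θ in box n, (W θ).im * (P θ).im := by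
    have hWP : Continuous fun θ => W θ * P θ := hW.continuous.mul hPc
    rw [← IntTAux.re_int hWP, ← integral_sub]
    · rfl
    · exact IntTAux.int_box (hWre.mul hPre)
    · exact IntTAux.int_box (hWim.mul hPim)
  have h8 : (∫ θ in box n, (c0 + (W θ).re) * (P θ).re) -
      ∑ k, ∫ θ in box n, (c k + (V k (θ k)).re) *
        (-(δ0 : ℂ) + -Complex.I * fderiv ℝ W θ (Pi.single k 1)).re * E k θ =
      (2 * π) ^ n * (c0 * ∏ j, δ j + δ0 * ∑ k, c k * ∏ l ∈ Finset.univ.erase k, δ l) +
        (∫ θ in box n, W θ * P θ).re := by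
    rw [Finset.sum_congr rfl fun k _ => h4 k, Finset.sum_add_distrib, h5, h6, h7,
      ← Finset.mul_sum, ← Finset.mul_sum]
    ring
  exact h8

end P4a177f
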