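import Mathlib

/-!
# The Lagrange inversion formula, analytic form

The coefficient of `w^(m-1)` of `P (ψ w) ψ'(w)` is `(2πi)⁻¹ ∮ w^(-m) P (ψ w) ψ'(w) dw`, and on the small
circle `w^(-m) = ψ^(-m) (G ψ)^(-m)`, so the integrand is `ψ^(-m) Q(ψ) ψ' = ∑_{j<m} p_j ψ^(j-m) ψ' + ρ(ψ) ψ'`,
where `Q z = P z * (G z)⁻¹ ^ m = ∑_j p_j z^j`.
-/

set_option autoImplicit false

namespace P4a177f

open Filter Topology

namespace LagAAux

/-- A power series is a polynomial plus `z^m` times an analytic function. -/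
theorem dec {f : ℂ → ℂ} (p : ℕ → ℂ)
    (h : ∀ᶠ z in 𝓝 (0 : ℂ), HasSum (fun j => p j * z ^ j) (f z)) (m : ℕ) :
    ∃ ρ : ℂ → ℂ, AnalyticAt ℂ ρ 0 ∧ ∀ᶠ z in 𝓝 (0 : ℂ),
      f z = ∑ j ∈ Finset.range m, p j * z ^ j + z ^ m * ρ z := by
  have key : ∀ᶠ z in 𝓝 (0 : ℂ), HasSum (fun j => p (j + m) * z ^ j)
      (∑' j, p (j + m) * z ^ j) := by
    filter_upwards [h] with z hz
    apply Summable.hasSum
    by_cases h0 : z = 0
    · subst h0
      apply (hasSum_single 0 ?_).summable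
      intro j hj
      rw [zero_pow hj, mul_zero]
    · have h1 := ((hasSum_nat_add_iff' m).2 hz).summable.mul_right ((z ^ m)⁻¹)
      refine h1.congr fun j => ?_
      rw [pow_add, mul_assoc, mul_assoc, mul_inv_cancel₀ (pow_ne_zero m h0), mul_one]
  refine ⟨fun z => ∑' j, p (j + m) * z ^ j, ?_, ?_⟩
  · refine ⟨fun n => ContinuousMultilinearMap.mkPiRing ℂ (Fin n) (p (n + m)),
      hasFPowerSeriesAt_iff.2 ?_⟩
    filter_upwards [key] with z hz
    rw [zero_add]
    have h1 : (fun j => z ^ j • FormalMultilinearSeries.coeff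
        (fun n => ContinuousMultilinearMap.mkPiRing ℂ (Fin n) (p (n + m)) :
          FormalMultilinearSeries ℂ ℂ ℂ) j) = fun j => p (j + m) * z ^ j := by
      funext j
      simp only [FormalMultilinearSeries.coeff, ContinuousMultilinearMap.mkPiRing_apply,
        Pi.one_apply, Finset.prod_const_one, smul_eq_mul]
      ring
    rw [h1]
    exact hz
  · filter_upwards [h, key] with z hz hk
    have h1 := (hasSum_nat_add_iff' m).2 hz
    have h2 := hk.mul_left (z ^ m)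
    have h3 : (fun j => z ^ m * (p (j + m) * z ^ j)) = fun j => p (j + m) * z ^ (j + m) := by
      funext j
      rw [pow_add]
      ring
    rw [h3] at h2
    have h4 := h1.unique h2
    rw [← h4]
    ring

theorem circle_zero {f : ℂ → ℂ} {R : ℝ} (hR : 0 < R)
    (hf : ∀ w ∈ Metric.closedBall (0 : ℂ) R, AnalyticAt ℂ f w) : (∮ w in C(0, R), f w) = 0 := by
  have h1 : DiffContOnCl ℂ f (Metric.ball 0 R) := by
    refine DifferentiableOn.diffContOnCl ?_
    rw [closure_ball _ hR.ne']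
    exact fun w hw => (hf w hw).differentiableAt.differentiableWithinAt
  exact h1.circleIntegral_eq_zero hR.le

end LagAAux

open LagAAux

theorem lag_coeff {P G ψ : ℂ → ℂ} (hP : AnalyticAt ℂ P 0) (hG : AnalyticAt ℂ G 0)
    (hψ : AnalyticAt ℂ ψ 0) (hG0 : G 0 ≠ 0) (hψ0 : ψ 0 = 0)
    (hinv : ∀ᶠ w in 𝓝 (0 : ℂ), ψ w * G (ψ w) = w) {m : ℕ} (hm : 1 ≤ m) (p u : ℕ → ℂ)
    (hp : ∀ᶠ z in 𝓝 (0 : ℂ), HasSum (fun j => p j * z ^ j) (P z * (G z)⁻¹ ^ m))
    (hu : ∀ᶠ w in 𝓝 (0 : ℂ), HasSum (fun j => u j * w ^ j) (P (ψ w) * deriv ψ w)) :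
    u (m - 1) = p (m - 1) := by
  have _ := hP
  obtain ⟨ρ, hρ, hρ1⟩ := dec p hp m
  obtain ⟨σ, hσ, hσ1⟩ := dec u hu m
  have hψt : Tendsto ψ (𝓝 0) (𝓝 0) := by
    have := hψ.continuousAt.tendsto
    rwa [hψ0] at this
  have hGψ : AnalyticAt ℂ (fun w => G (ψ w)) 0 := by
    have h1 : AnalyticAt ℂ G (ψ 0) := by rw [hψ0]; exact hG
    exact h1.comp hψ
  have hρψ : AnalyticAt ℂ (fun w => ρ (ψ w)) 0 := by
    have h1 : AnalyticAt ℂ ρ (ψ 0) := by rw [hψ0]; exact hρ
    exact h1.comp hψ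
  have hGne : ∀ᶠ w in 𝓝 (0 : ℂ), G (ψ w) ≠ 0 := by
    apply hGψ.continuousAt.eventually_ne
    show G (ψ 0) ≠ 0
    rw [hψ0]
    exact hG0
  have hall := hinv.and (hGne.and ((hψt.eventually hρ1).and (hσ1.and
    (hψ.eventually_analyticAt.and (hGψ.eventually_analyticAt.and
      (hρψ.eventually_analyticAt.and hσ.eventually_analyticAt))))))
  obtain ⟨R, hR, hball⟩ := Metric.eventually_nhds_iff.1 hall
  set ε : ℝ := R / 2 with hε
  have hε0 : 0 < ε := by rw [hε]; linarith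
  have hcb : ∀ w ∈ Metric.closedBall (0 : ℂ) ε, dist w 0 < R := by
    intro w hw
    rw [Metric.mem_closedBall] at hw
    rw [hε] at hw
    linarith
  have hsp : ∀ w ∈ Metric.sphere (0 : ℂ) ε, w ∈ Metric.closedBall (0 : ℂ) ε := fun w hw =>
    Metric.sphere_subset_closedBall hw
  have hw0 : ∀ w ∈ Metric.sphere (0 : ℂ) ε, w ≠ 0 := by
    intro w hw h0
    rw [h0, Metric.mem_sphere, dist_self] at hw
    linarith
  -- the function Γ = G ∘ ψ
  set Γ : ℂ → ℂ := fun w => G (ψ w) with hΓ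
  -- the logarithmic derivative of ψ
  have hlog : ∀ w ∈ Metric.sphere (0 : ℂ) ε, ψ w ≠ 0 ∧
      deriv ψ w / ψ w = w⁻¹ - deriv Γ w / Γ w := by
    intro w hw
    obtain ⟨a1, a2, -, -, a5, a6, -, -⟩ := hball (hcb w (hsp w hw))
    have hne : ψ w ≠ 0 := by
      intro h0
      rw [h0, zero_mul] at a1
      exact hw0 w hw a1.symm
    refine ⟨hne, ?_⟩
    have h1 : HasDerivAt (fun w => ψ w * Γ w) (deriv ψ w * Γ w + ψ w * deriv Γ w) w :=
      a5.differentiableAt.hasDerivAt.mul a6.differentiableAt.hasDerivAt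
    have h2 : (fun w => ψ w * Γ w) =ᶠ[𝓝 w] fun w => w := by
      have h3 : ∀ᶠ v in 𝓝 w, dist v 0 < R := by
        have : ContinuousAt (fun v : ℂ => dist v 0) w := by fun_prop
        exact this.eventually (gt_mem_nhds (hcb w (hsp w hw)))
      filter_upwards [h3] with v hv
      exact (hball hv).1
    have h3 : HasDerivAt (fun w => ψ w * Γ w) 1 w := (hasDerivAt_id w).congr_of_eventuallyEq h2
    have h4 := h1.unique h3
    have h5 : w = ψ w * Γ w := a1.symm
    have h6 : w⁻¹ = (deriv ψ w * Γ w + ψ w * deriv Γ w) / (ψ w * Γ w) := by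
      rw [h4, ← h5, one_div]
    rw [h6]
    have a2' : Γ w ≠ 0 := a2
    field_simp
    ring
  -- the pointwise identity
  set k0 : ℕ := m - 1 with hk0
  have hmk : m = k0 + 1 := by omega
  have hpt : ∀ w ∈ Metric.sphere (0 : ℂ) ε,
      (u k0 - p k0) * w⁻¹ =
        (ρ (ψ w) * deriv ψ w - σ w - p k0 * (deriv Γ w / Γ w)) +
        ∑ j ∈ Finset.range k0, (p j * (ψ w ^ ((j : ℤ) - m) * deriv ψ w) -
          u j * w ^ ((j : ℤ) - m)) := by
    intro w hw
    obtain ⟨a1, a2, a3, a4, -, -, -, -⟩ := hball (hcb w (hsp w hw))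
    obtain ⟨hne, hl⟩ := hlog w hw
    have hwne := hw0 w hw
    have a2' : Γ w ≠ 0 := a2
    have e1 : w ^ m = ψ w ^ m * Γ w ^ m := by
      rw [← mul_pow]
      congr 1
      exact a1.symm
    -- F w / w^m
    have e2 : (∑ j ∈ Finset.range m, u j * w ^ j + w ^ m * σ w) / w ^ m =
        (∑ j ∈ Finset.range m, p j * ψ w ^ j + ψ w ^ m * ρ (ψ w)) / ψ w ^ m * deriv ψ w := by
      rw [← a4, ← a3, e1]
      show P (ψ w) * deriv ψ w / (ψ w ^ m * Γ w ^ m) =
        P (ψ w) * (Γ w)⁻¹ ^ m / ψ w ^ m * deriv ψ w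
      have h1 := pow_ne_zero m hne
      have h2 := pow_ne_zero m a2'
      rw [inv_pow]
      field_simp
    have z1 : ∀ (x : ℂ) (j : ℕ), x ≠ 0 → x ^ j / x ^ m = x ^ ((j : ℤ) - m) := by
      intro x j hx
      rw [zpow_sub₀ hx, zpow_natCast, zpow_natCast]
    rw [add_div, add_div, mul_div_cancel_left₀ _ (pow_ne_zero m hwne),
      mul_div_cancel_left₀ _ (pow_ne_zero m hne), Finset.sum_div, Finset.sum_div] at e2
    have e3 : ∀ j, u j * w ^ j / w ^ m = u j * w ^ ((j : ℤ) - m) := fun j => by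
      rw [mul_div_assoc, z1 w j hwne]
    have e4 : ∀ j, p j * ψ w ^ j / ψ w ^ m = p j * ψ w ^ ((j : ℤ) - m) := fun j => by
      rw [mul_div_assoc, z1 (ψ w) j hne]
    simp only [e3, e4] at e2
    have hr : Finset.range m = Finset.range (k0 + 1) := by rw [hmk]
    rw [hr, Finset.sum_range_succ, Finset.sum_range_succ] at e2
    have e5 : ((k0 : ℤ) - m) = -1 := by
      rw [hmk]
      push_cast
      ring
    rw [e5, zpow_neg_one, zpow_neg_one] at e2
    rw [div_eq_mul_inv] at hl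
    rw [Finset.sum_sub_distrib]
    have e6 : ∑ j ∈ Finset.range k0, p j * (ψ w ^ ((j : ℤ) - m) * deriv ψ w) =
        (∑ j ∈ Finset.range k0, p j * ψ w ^ ((j : ℤ) - m)) * deriv ψ w := by
      rw [Finset.sum_mul]
      exact Finset.sum_congr rfl fun j _ => by ring
    rw [e6]
    linear_combination e2 + p k0 * hl
  -- the integrals
  have hint1 : (∮ w in C(0, ε), (ρ (ψ w) * deriv ψ w - σ w - p k0 * (deriv Γ w / Γ w))) = 0 := by
    refine circle_zero hε0 fun w hw => ?_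
    obtain ⟨-, a2, -, -, a5, a6, a7, a8⟩ := hball (hcb w hw)
    exact ((a7.mul a5.deriv).sub a8).sub (analyticAt_const.mul (a6.deriv.div a6 a2))
  have hint2 : ∀ j ∈ Finset.range k0, (∮ w in C(0, ε), (p j * (ψ w ^ ((j : ℤ) - m) * deriv ψ w) -
      u j * w ^ ((j : ℤ) - m))) = 0 := by
    intro j hj
    rw [Finset.mem_range] at hj
    have hj1 : ((j : ℤ) - m + 1) ≠ 0 := by omega
    have hj2 : (((j : ℤ) - m + 1 : ℤ) : ℂ) ≠ 0 := by exact_mod_cast hj1
    refine circleIntegral.integral_eq_zero_of_hasDerivWithinAt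
      (f := fun w => p j * (ψ w ^ ((j : ℤ) - m + 1) / (((j : ℤ) - m + 1 : ℤ) : ℂ)) -
        u j * (w ^ ((j : ℤ) - m + 1) / (((j : ℤ) - m + 1 : ℤ) : ℂ))) hε0.le fun w hw => ?_
    obtain ⟨-, -, -, -, a5, -, -, -⟩ := hball (hcb w (hsp w hw))
    obtain ⟨hne, -⟩ := hlog w hw
    have hwne := hw0 w hw
    have d1 := ((hasDerivAt_zpow ((j : ℤ) - m + 1) (ψ w) (Or.inl hne)).comp w
      a5.differentiableAt.hasDerivAt)
    have d2 := hasDerivAt_zpow ((j : ℤ) - m + 1) w (Or.inl hwne)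
    have d3 := ((d1.div_const (((j : ℤ) - m + 1 : ℤ) : ℂ)).const_mul (p j)).sub
      ((d2.div_const (((j : ℤ) - m + 1 : ℤ) : ℂ)).const_mul (u j))
    refine (d3.congr_deriv ?_).hasDerivWithinAt
    rw [add_sub_cancel_right]
    field_simp
  have hcont : ∀ j ∈ Finset.range k0, CircleIntegrable (fun w =>
      p j * (ψ w ^ ((j : ℤ) - m) * deriv ψ w) - u j * w ^ ((j : ℤ) - m)) 0 ε := by
    intro j _
    refine ContinuousOn.circleIntegrable hε0.le fun w hw => ?_
    obtain ⟨-, -, -, -, a5, -, -, -⟩ := hball (hcb w (hsp w hw))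
    obtain ⟨hne, -⟩ := hlog w hw
    have hwne := hw0 w hw
    refine ContinuousAt.continuousWithinAt ?_
    exact (continuousAt_const.mul ((a5.continuousAt.zpow₀ _ (Or.inl hne)).mul
      a5.deriv.continuousAt)).sub (continuousAt_const.mul
        (continuousAt_id.zpow₀ _ (Or.inl hwne)))
  have hcont1 : CircleIntegrable (fun w =>
      ρ (ψ w) * deriv ψ w - σ w - p k0 * (deriv Γ w / Γ w)) 0 ε := by
    refine ContinuousOn.circleIntegrable hε0.le fun w hw => ?_
    obtain ⟨-, a2, -, -, a5, a6, a7, a8⟩ := hball (hcb w (hsp w hw))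
    exact (((a7.mul a5.deriv).sub a8).sub
      (analyticAt_const.mul (a6.deriv.div a6 a2))).continuousAt.continuousWithinAt
  have hfin : (∮ w in C(0, ε), (u k0 - p k0) * w⁻¹) = 0 := by
    rw [circleIntegral.integral_congr hε0.le hpt, circleIntegral.integral_add hcont1
      (CircleIntegrable.fun_sum _ hcont), hint1, zero_add,
      circleIntegral.integral_fun_sum hcont]
    exact Finset.sum_eq_zero hint2
  have hone : (∮ w in C(0, ε), (w : ℂ)⁻¹) = 2 * Real.pi * Complex.I := by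
    have := circleIntegral.integral_sub_center_inv (0 : ℂ) hε0.ne'
    simpa using this
  rw [circleIntegral.integral_const_mul, hone] at hfin
  have h2 : (2 * Real.pi * Complex.I : ℂ) ≠ 0 := Complex.two_pi_I_ne_zero
  exact sub_eq_zero.1 ((mul_eq_zero.1 hfin).resolve_right h2)

end P4a177f
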