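import Pool.Agent.Lib.P4a177f.EvF
import Pool.Agent.Lib.P4a177f.LagA

/-!
# MODULE P4a177f.LagF: the coefficients of the local inverse (est. 0.9 h; complex analysis)

PROOF. `exists_local`: `f z = z * ∏_{l≠q} (z + b_l)` is a polynomial function with `f 0 = 0`,
`f' 0 = ∏ b_l ≠ 0`: inverse function theorem (`HasStrictDerivAt.localInverse` or
`ContDiffAt.to_localInverse`, see the end of Pool/Agent/Lib/P4a177e/Psi.lean), `C¹` over `ℂ` near `0`,
hence differentiable near `0`, hence analytic (`DifferentiableOn.analyticAt`).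
`lagrange`: `P z = (z + b_k)⁻¹`, `G z = ∏_{l≠q} (z + b_l)`; by `Rep.mul`, `Rep.pow`, `Rep.prod`, `rep_pinv`
the function `P z * (G z)⁻¹ ^ m` has near `0` the coefficients
`coeff j ((∏_{l≠q} pinv (b l))^m * pinv (b k))`, so `p_{m-1} = co b q k m`; the analytic function
`P (ψ0 w) ψ0'(w)` is the sum of a power series near `0` (`AnalyticAt` gives `HasFPowerSeriesAt`,
`HasFPowerSeriesAt.eventually_hasSum`, in one variable `smul_eq_mul`, `FormalMultilinearSeries.coeff`)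
with coefficients `u_j`, and `lag_coeff` (for every `m = j + 1`) gives `u_j = co b q k (j+1)`.
-/

set_option autoImplicit false

namespace P4a177f

open Filter Topology

variable {n : ℕ} {b : Fin n → ℝ} {q : Fin n}

namespace LagFAux

/-- The product. -/
theorem diff_G (b : Fin n → ℝ) (q : Fin n) :
    Differentiable ℂ fun z : ℂ => ∏ l ∈ Finset.univ.erase q, (z + (b l : ℂ)) := by
  fun_prop

theorem G_zero_ne (hb : ∀ k, k ≠ q → b k ≠ 0) :
    (∏ l ∈ Finset.univ.erase q, ((0 : ℂ) + (b l : ℂ))) ≠ 0 := by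
  refine Finset.prod_ne_zero_iff.2 fun l hl => ?_
  rw [zero_add]
  exact_mod_cast hb l (Finset.ne_of_mem_erase hl)

end LagFAux

open LagFAux

theorem exists_local (hb : ∀ k, k ≠ q → b k ≠ 0) :
    ∃ ψ0 : ℂ → ℂ, AnalyticAt ℂ ψ0 0 ∧ ψ0 0 = 0 ∧
      ∀ᶠ w in 𝓝 (0 : ℂ), ψ0 w * ∏ l ∈ Finset.univ.erase q, (ψ0 w + (b l : ℂ)) = w := by
  set G : ℂ → ℂ := fun z => ∏ l ∈ Finset.univ.erase q, (z + (b l : ℂ)) with hG
  set f : ℂ → ℂ := fun z => z * G z with hf
  have hGd : Differentiable ℂ G := diff_G b q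
  have hfd : Differentiable ℂ f := differentiable_id.mul hGd
  have hfa : AnalyticAt ℂ f 0 := hfd.analyticAt 0
  have hf0 : f 0 = 0 := by simp [hf]
  have hder : HasDerivAt f (G 0) 0 := by
    have h1 := (hasDerivAt_id (0 : ℂ)).fun_mul (hGd 0).hasDerivAt
    have h2 : (1 : ℂ) * G 0 + id (0 : ℂ) * deriv G 0 = G 0 := by simp
    rw [h2] at h1
    exact h1
  have hf' : deriv f 0 ≠ 0 := by
    rw [hder.deriv]
    exact G_zero_ne hb
  refine ⟨hfa.hasStrictDerivAt.localInverse _ _ _ hf', ?_, ?_, ?_⟩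
  · have h := hfa.analyticAt_localInverse hf'
    rwa [hf0] at h
  · have h : hfa.hasStrictDerivAt.localInverse _ _ _ hf' (f 0) = 0 :=
      HasStrictFDerivAt.localInverse_apply_image ..
    rwa [hf0] at h
  · have h : ∀ᶠ w in 𝓝 (f 0), f (hfa.hasStrictDerivAt.localInverse _ _ _ hf' w) = w :=
      HasStrictDerivAt.eventually_right_inverse ..
    rw [hf0] at h
    exact h

theorem lagrange (hb : ∀ k, k ≠ q → b k ≠ 0) {ψ0 : ℂ → ℂ} (hψ : AnalyticAt ℂ ψ0 0)
    (h0 : ψ0 0 = 0)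
    (hinv : ∀ᶠ w in 𝓝 (0 : ℂ), ψ0 w * ∏ l ∈ Finset.univ.erase q, (ψ0 w + (b l : ℂ)) = w)
    {k : Fin n} (hk : k ≠ q) :
    ∀ᶠ w in 𝓝 (0 : ℂ), HasSum (fun j : ℕ => (co b q k (j + 1) : ℂ) * w ^ j)
      ((ψ0 w + (b k : ℂ))⁻¹ * deriv ψ0 w) := by
  set G : ℂ → ℂ := fun z => ∏ l ∈ Finset.univ.erase q, (z + (b l : ℂ)) with hG
  set P : ℂ → ℂ := fun z => (z + (b k : ℂ))⁻¹ with hP
  have hGd : Differentiable ℂ G := diff_G b q
  have hGa : AnalyticAt ℂ G 0 := hGd.analyticAt 0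
  have hbk : (b k : ℂ) ≠ 0 := by exact_mod_cast hb k hk
  have hPa : AnalyticAt ℂ P 0 := by
    have h1 : AnalyticAt ℂ (fun z : ℂ => z + (b k : ℂ)) 0 := analyticAt_id.add analyticAt_const
    exact h1.fun_inv (by simpa using hbk)
  have hPψ : AnalyticAt ℂ (fun w => P (ψ0 w)) 0 := by
    have h1 : AnalyticAt ℂ P (ψ0 0) := by rw [h0]; exact hPa
    exact h1.comp hψ
  have hh : AnalyticAt ℂ (fun w => P (ψ0 w) * deriv ψ0 w) 0 := hPψ.mul hψ.deriv
  obtain ⟨s, hs⟩ := hh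
  have hu : ∀ᶠ w in 𝓝 (0 : ℂ), HasSum (fun j => s.coeff j * w ^ j) (P (ψ0 w) * deriv ψ0 w) := by
    have h1 := hs.eventually_hasSum
    filter_upwards [h1] with w hw
    rw [zero_add] at hw
    refine hw.congr_fun fun j => ?_
    rw [FormalMultilinearSeries.apply_eq_pow_smul_coeff, smul_eq_mul, mul_comm]
  have hp : ∀ m : ℕ, ∀ᶠ z in 𝓝 (0 : ℂ), HasSum
      (fun j => (((PowerSeries.coeff j) ((∏ l ∈ Finset.univ.erase q, pinv (b l)) ^ m *
        pinv (b k)) : ℝ) : ℂ) * z ^ j) (P z * (G z)⁻¹ ^ m) := by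
    intro m
    have h1 : Rep (∏ l ∈ Finset.univ.erase q, pinv (b l))
        (fun z => ∏ l ∈ Finset.univ.erase q, (z + (b l : ℂ))⁻¹) :=
      Rep.prod fun l hl => rep_pinv (hb l (Finset.ne_of_mem_erase hl))
    have h2 := (h1.pow m).mul (rep_pinv (hb k hk))
    filter_upwards [h2] with z hz
    have e : (∏ l ∈ Finset.univ.erase q, (z + (b l : ℂ))⁻¹) ^ m * (z + (b k : ℂ))⁻¹ =
        P z * (G z)⁻¹ ^ m := by
      rw [Finset.prod_inv_distrib, mul_comm]
    rw [e] at hz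
    exact hz
  have hco : ∀ j : ℕ, s.coeff j = (co b q k (j + 1) : ℂ) := by
    intro j
    have h1 := lag_coeff hPa hGa hψ (G_zero_ne hb) h0 hinv (m := j + 1) (by omega) _ _
      (hp (j + 1)) hu
    rw [Nat.add_sub_cancel] at h1
    rw [h1]
    unfold co
    rw [Nat.add_sub_cancel]
  filter_upwards [hu] with w hw
  simp only [hco] at hw
  exact hw

end P4a177f
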