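import Pool.Agent.Lib.P4a177f.SerF
import Pool.Agent.Lib.P4a177f.CoefF
import Pool.Agent.Lib.P4a177f.LagF

/-!
# P4a177f.InvF: the inverse function on the whole disc

PROOF. `V k = ser (hc b q k)` is differentiable on the disc `‖w‖ < R = RR g n` (`ser_differentiableOn`,
`hc_le`). Let `ψ0` be the local inverse (`exists_local`). Near `0`, for `k ≠ q`
(`hc b q k (j+1) = co b q k (j+1)`): `V_k' = ψ0'/(ψ0 + b_k)` (`ser_deriv_hasSum`, `lagrange`,
`HasSum.unique`), so `(ψ0 + b_k) exp (-V_k)` has derivative zero near `0` and the value `b_k` at `0`: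
`ψ0 + b_k = b_k exp V_k` near `0`. `∑_k V_k = 0` (`hc_sum`, `HasSum`), so near `0`:
`w = ψ0 ∏_{k≠q} b_k exp V_k = ψ0 (∏_{k≠q} b_k) exp (-V_q)`, `ψ0 = psi b q`. So the functions
`psi b q w + b_k` and `b_k exp V_k`, differentiable on the disc, agree near `0`, hence on the disc
(`AnalyticOnNhd.eqOn_of_preconnected_of_eventuallyEq`, the ball is convex). `psi_prod`:
`psi * ∏_{k≠q} (b_k exp V_k) = w exp (V_q + ∑_{k≠q} V_k) = w`.
-/

set_option autoImplicit false

namespace P4a177f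

open Filter Topology

variable {n : ℕ} {g : ℝ} {b : Fin n → ℝ} {q : Fin n}

theorem ser_sum (h : Lst g b q) {w : ℂ} (hw : ‖w‖ < RR g n) : ∑ k, ser (hc b q k) w = 0 := by
  have h1 : HasSum (fun j : ℕ => ∑ k, (hc b q k (j + 1) : ℂ) / ((j : ℂ) + 1) * w ^ (j + 1))
      (∑ k, ser (hc b q k) w) :=
    hasSum_sum fun k _ => ser_hasSum (RR_pos h) (fun j hj => hc_le h k hj) hw
  have h2 : (fun j : ℕ => ∑ k, (hc b q k (j + 1) : ℂ) / ((j : ℂ) + 1) * w ^ (j + 1)) =
      fun _ => 0 := by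
    funext j
    rw [← Finset.sum_mul, ← Finset.sum_div, ← Complex.ofReal_sum, hc_sum, Complex.ofReal_zero,
      zero_div, zero_mul]
  rw [h2] at h1
  exact h1.unique hasSum_zero

namespace InvFAux

theorem b_ne (h : Lst g b q) {k : Fin n} (hk : k ≠ q) : b k ≠ 0 := by
  intro h0
  have h1 := h.gap k q hk
  rw [h0, h.zero, sub_zero, abs_zero] at h1
  exact absurd h.pos (not_lt.2 h1)

theorem sum_erase (h : Lst g b q) {w : ℂ} (hw : ‖w‖ < RR g n) :
    ∑ k ∈ Finset.univ.erase q, ser (hc b q k) w = -ser (hc b q q) w := by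
  have h1 := ser_sum h hw
  rw [← Finset.add_sum_erase _ _ (Finset.mem_univ q)] at h1
  exact (neg_eq_of_add_eq_zero_right h1).symm

theorem prod_exp (h : Lst g b q) {w : ℂ} (hw : ‖w‖ < RR g n) :
    ∏ k ∈ Finset.univ.erase q, ((b k : ℂ) * Complex.exp (ser (hc b q k) w)) =
      (∏ k ∈ Finset.univ.erase q, (b k : ℂ)) * Complex.exp (-ser (hc b q q) w) := by
  rw [Finset.prod_mul_distrib, ← Complex.exp_sum, sum_erase h hw]

theorem ball_ev (h : Lst g b q) : ∀ᶠ w in 𝓝 (0 : ℂ), ‖w‖ < RR g n := by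
  have h1 := Metric.ball_mem_nhds (0 : ℂ) (RR_pos h)
  filter_upwards [h1] with w hw
  simpa using hw

/-- The local form. -/
theorem local_add (h : Lst g b q) {ψ0 : ℂ → ℂ} (hψ : AnalyticAt ℂ ψ0 0) (h0 : ψ0 0 = 0)
    (hinv : ∀ᶠ w in 𝓝 (0 : ℂ), ψ0 w * ∏ l ∈ Finset.univ.erase q, (ψ0 w + (b l : ℂ)) = w)
    {k : Fin n} (hk : k ≠ q) :
    ∀ᶠ w in 𝓝 (0 : ℂ), ψ0 w + (b k : ℂ) = (b k : ℂ) * Complex.exp (ser (hc b q k) w) := by
  have hR := RR_pos h
  have hbk : (b k : ℂ) ≠ 0 := Complex.ofReal_ne_zero.2 (b_ne h hk)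
  have hlag := lagrange (fun k hk => b_ne h hk) hψ h0 hinv hk
  have hdiff : ∀ᶠ w in 𝓝 (0 : ℂ), DifferentiableAt ℂ ψ0 w :=
    hψ.eventually_analyticAt.mono fun w hw => hw.differentiableAt
  have hne : ∀ᶠ w in 𝓝 (0 : ℂ), ψ0 w + (b k : ℂ) ≠ 0 := by
    have hc : ContinuousAt (fun w => ψ0 w + (b k : ℂ)) 0 :=
      hψ.continuousAt.add continuousAt_const
    apply hc.eventually_ne
    rw [h0, zero_add]
    exact hbk
  have hall := (((hlag.and hdiff).and hne).and (ball_ev h))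
  obtain ⟨ε, hε, hball⟩ := Metric.eventually_nhds_iff_ball.1 hall
  have key : ∀ w ∈ Metric.ball (0 : ℂ) ε,
      HasDerivAt (fun w => (ψ0 w + (b k : ℂ)) * Complex.exp (-ser (hc b q k) w)) 0 w := by
    intro w hw
    obtain ⟨⟨⟨h1, h2⟩, h3⟩, h4⟩ := hball w hw
    have h5 := ser_deriv_hasSum hR (fun j hj => hc_le h k hj) h4
    have h6 : (fun j : ℕ => (hc b q k (j + 1) : ℂ) * w ^ j) =
        fun j : ℕ => (co b q k (j + 1) : ℂ) * w ^ j := by
      funext j
      unfold hc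
      rw [if_neg hk]
    rw [h6] at h5
    have h7 : deriv (ser (hc b q k)) w = (ψ0 w + (b k : ℂ))⁻¹ * deriv ψ0 w := h5.unique h1
    have h8 : HasDerivAt (ser (hc b q k)) (deriv (ser (hc b q k)) w) w :=
      (ser_hasDerivAt hR (fun j hj => hc_le h k hj) h4).differentiableAt.hasDerivAt
    have h9 := (h2.hasDerivAt.add_const (b k : ℂ)).mul h8.neg.cexp
    refine h9.congr_deriv ?_
    rw [h7]
    field_simp
    ring
  have hconst : ∀ w ∈ Metric.ball (0 : ℂ) ε,
      (ψ0 w + (b k : ℂ)) * Complex.exp (-ser (hc b q k) w) = b k := by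
    intro w hw
    have h1 := Metric.isOpen_ball.is_const_of_deriv_eq_zero
      (convex_ball (0 : ℂ) ε).isPreconnected
      (fun z hz => (key z hz).differentiableAt.differentiableWithinAt)
      (fun z hz => (key z hz).deriv) hw (Metric.mem_ball_self hε)
    rw [h1, h0, zero_add, ser_zero, neg_zero, Complex.exp_zero, mul_one]
  filter_upwards [Metric.ball_mem_nhds (0 : ℂ) hε] with w hw
  calc ψ0 w + (b k : ℂ) = (ψ0 w + (b k : ℂ)) * Complex.exp (-ser (hc b q k) w) *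
        Complex.exp (ser (hc b q k) w) := by
        rw [mul_assoc, ← Complex.exp_add, neg_add_cancel, Complex.exp_zero, mul_one]
    _ = (b k : ℂ) * Complex.exp (ser (hc b q k) w) := by rw [hconst w hw]

theorem local_psi (h : Lst g b q) {k : Fin n} (hk : k ≠ q) :
    ∀ᶠ w in 𝓝 (0 : ℂ),
      psi b q w + (b k : ℂ) = (b k : ℂ) * Complex.exp (ser (hc b q k) w) := by
  obtain ⟨ψ0, hψ, h0, hinv⟩ := exists_local (fun k hk => b_ne h hk)
  have hadd : ∀ᶠ w in 𝓝 (0 : ℂ), ∀ l ∈ Finset.univ.erase q,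
      ψ0 w + (b l : ℂ) = (b l : ℂ) * Complex.exp (ser (hc b q l) w) := by
    rw [Filter.eventually_all_finset]
    intro l hl
    exact local_add h hψ h0 hinv (Finset.ne_of_mem_erase hl)
  filter_upwards [hadd, hinv, ball_ev h] with w h1 h2 h3
  have h4 : ψ0 w = psi b q w := by
    rw [Finset.prod_congr rfl h1, prod_exp h h3] at h2
    have h5 : (∏ l ∈ Finset.univ.erase q, (b l : ℂ)) ≠ 0 :=
      Finset.prod_ne_zero_iff.2 fun l hl =>
        Complex.ofReal_ne_zero.2 (b_ne h (Finset.ne_of_mem_erase hl))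
    unfold psi
    have h6 : w * Complex.exp (ser (hc b q q) w) =
        ψ0 w * ∏ l ∈ Finset.univ.erase q, (b l : ℂ) := by
      nth_rewrite 1 [← h2]
      rw [mul_assoc, mul_assoc, ← Complex.exp_add, neg_add_cancel, Complex.exp_zero, mul_one]
    rw [div_mul_eq_mul_div, h6, mul_div_assoc, div_self h5, mul_one]
  rw [← h4]
  exact h1 k (Finset.mem_erase.2 ⟨hk, Finset.mem_univ k⟩)

theorem psi_diff (h : Lst g b q) : DifferentiableOn ℂ (psi b q) (Metric.ball 0 (RR g n)) := by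
  have h1 := ser_differentiableOn (RR_pos h) (fun j hj => hc_le h q hj)
  have h2 : DifferentiableOn ℂ
      (fun w : ℂ => w / (∏ l ∈ Finset.univ.erase q, (b l : ℂ)) * Complex.exp (ser (hc b q q) w))
      (Metric.ball 0 (RR g n)) :=
    (differentiableOn_id.div_const _).mul h1.cexp
  exact h2

end InvFAux

open InvFAux

theorem psi_add (h : Lst g b q) {w : ℂ} (hw : ‖w‖ < RR g n) {k : Fin n} (hk : k ≠ q) :
    psi b q w + (b k : ℂ) = (b k : ℂ) * Complex.exp (ser (hc b q k) w) := by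
  have hR := RR_pos h
  have h1 : DifferentiableOn ℂ (fun w => psi b q w + (b k : ℂ)) (Metric.ball 0 (RR g n)) :=
    (psi_diff h).add_const _
  have h2 : DifferentiableOn ℂ (fun w => (b k : ℂ) * Complex.exp (ser (hc b q k) w))
      (Metric.ball 0 (RR g n)) :=
    (ser_differentiableOn hR (fun j hj => hc_le h k hj)).cexp.const_mul _
  have h3 := (h1.analyticOnNhd Metric.isOpen_ball).eqOn_of_preconnected_of_eventuallyEq
    (h2.analyticOnNhd Metric.isOpen_ball) (convex_ball (0 : ℂ) (RR g n)).isPreconnected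
    (Metric.mem_ball_self hR) (local_psi h hk)
  exact h3 (by simpa using hw)

theorem psi_prod (h : Lst g b q) {w : ℂ} (hw : ‖w‖ < RR g n) :
    ∏ k, (psi b q w + (b k : ℂ)) = w := by
  rw [← Finset.mul_prod_erase _ _ (Finset.mem_univ q), h.zero, Complex.ofReal_zero, add_zero,
    Finset.prod_congr rfl fun k hk => psi_add h hw (Finset.ne_of_mem_erase hk), prod_exp h hw]
  have h5 : (∏ l ∈ Finset.univ.erase q, (b l : ℂ)) ≠ 0 :=
    Finset.prod_ne_zero_iff.2 fun l hl =>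
      Complex.ofReal_ne_zero.2 (b_ne h (Finset.ne_of_mem_erase hl))
  unfold psi
  calc w / (∏ l ∈ Finset.univ.erase q, (b l : ℂ)) * Complex.exp (ser (hc b q q) w) *
        ((∏ l ∈ Finset.univ.erase q, (b l : ℂ)) * Complex.exp (-ser (hc b q q) w))
      = (w / (∏ l ∈ Finset.univ.erase q, (b l : ℂ)) * (∏ l ∈ Finset.univ.erase q, (b l : ℂ))) *
        (Complex.exp (ser (hc b q q) w) * Complex.exp (-ser (hc b q q) w)) := by ring
    _ = w := by
        rw [div_mul_cancel₀ _ h5, ← Complex.exp_add, add_neg_cancel, Complex.exp_zero, mul_one]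

theorem psi_contDiffAt (h : Lst g b q) {w : ℂ} (hw : ‖w‖ < RR g n) :
    ContDiffAt ℝ 3 (psi b q) w := by
  have h1 : ContDiffAt ℝ 3 (ser (hc b q q)) w :=
    ser_contDiffAt (RR_pos h) (fun j hj => hc_le h q hj) hw
  have h2 : ContDiffAt ℝ 3
      (fun w : ℂ => w / (∏ l ∈ Finset.univ.erase q, (b l : ℂ)) *
        Complex.exp (ser (hc b q q) w)) w :=
    (contDiffAt_id.div_const _).mul h1.cexp
  exact h2

end P4a177f
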