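import Pool.Agent.Lib.P4a177f.CoefF

/-!
# The lists of the family, the radii

PROOF. `lst`: definitions, `df A q s k = A.a s (q s) - A.a s k`, `h.gap`. `exists_rad`: let
`P = N ∏ RR_s`; `h.big` is `P > 1` (`RR (g s) (A.m s + 1) = g^(m+1) 2^(m-3) / 4`, `m + 1 - 4 = m - 3`).
Take `r_s = RR_s * λ` with `λ = P^(-1/(d+2))` (`Real.rpow`), `0 < λ < 1`, `λ^(d+2) = 1/P`.
-/

set_option autoImplicit false

namespace P4a177f

open P4a177h P4a177e

variable {d : ℕ} {A : Fam d} {g : Fin (d + 2) → ℕ} {N : ℕ}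

theorem lst (h : GoodF A g N) (q : ∀ s, Fin (A.m s + 1)) (s : Fin (d + 2)) :
    Lst (g s : ℝ) (bR A q s) (q s) where
  two_le := by
    have := h.one_le_m s
    omega
  pos := by exact_mod_cast h.one_le_g s
  zero := by simp [bR, df]
  gap := fun i j hij => by
    have h1 := h.gap s j i hij.symm
    have h2 : bR A q s i - bR A q s j = ((A.a s j - A.a s i : ℤ) : ℝ) := by
      simp only [bR, df]
      push_cast
      ring
    rw [h2, ← Int.cast_abs]
    exact_mod_cast h1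

theorem one_lt_prod_RR (h : GoodF A g N) :
    1 < (N : ℝ) * ∏ s, RR (g s) (A.m s + 1) := by
  have h1 : (4 : ℝ) ^ (d + 2) < N * ∏ s, ((g s : ℝ) ^ (A.m s + 1) * 2 ^ (A.m s - 3)) := by
    exact_mod_cast h.big
  have h3 : ∀ s, A.m s + 1 - 4 = A.m s - 3 := fun s => by omega
  have h2 : ∏ s, RR (g s) (A.m s + 1) =
      (∏ s, ((g s : ℝ) ^ (A.m s + 1) * 2 ^ (A.m s - 3))) / 4 ^ (d + 2) := by
    simp only [RR, h3, Finset.prod_div_distrib, Finset.prod_const, Finset.card_univ,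
      Fintype.card_fin]
  rw [h2, ← mul_div_assoc, lt_div_iff₀ (by positivity), one_mul]
  exact h1

theorem exists_rad (h : GoodF A g N) : ∃ r, Rad A g N r := by
  have hR : ∀ s, 0 < RR (g s) (A.m s + 1) := fun s => RR_pos (lst h (fun _ => 0) s)
  have hP := one_lt_prod_RR h
  set P : ℝ := (N : ℝ) * ∏ s, RR (g s) (A.m s + 1) with hPdef
  have hP0 : 0 < P := zero_lt_one.trans hP
  set l : ℝ := P ^ (-1 / ((d : ℝ) + 2)) with hl
  have hd : (0 : ℝ) < (d : ℝ) + 2 := by positivity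
  have hl0 : 0 < l := Real.rpow_pos_of_pos hP0 _
  have hl1 : l < 1 := Real.rpow_lt_one_of_one_lt_of_neg hP (div_neg_of_neg_of_pos (by norm_num) hd)
  have hlp : l ^ (d + 2) = P⁻¹ := by
    rw [hl, ← Real.rpow_natCast, ← Real.rpow_mul hP0.le]
    have : -1 / ((d : ℝ) + 2) * ((d + 2 : ℕ) : ℝ) = -1 := by
      push_cast
      field_simp
    rw [this, Real.rpow_neg_one]
  refine ⟨fun s => RR (g s) (A.m s + 1) * l, fun s => mul_pos (hR s) hl0,
    fun s => mul_lt_of_lt_one_right (hR s) hl1, ?_⟩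
  rw [Finset.prod_mul_distrib, Finset.prod_const, Finset.card_univ, Fintype.card_fin, hlp,
    ← mul_assoc, ← hPdef, mul_inv_cancel₀ hP0.ne']

theorem hh_le (h : GoodF A g N) (q : ∀ s, Fin (A.m s + 1)) (s : Fin (d + 2))
    (k : Fin (A.m s + 1)) (j : ℕ) (hj : 1 ≤ j) :
    |hh A q s k j| ≤ (1 / RR (g s) (A.m s + 1)) ^ j :=
  hc_le (lst h q s) k hj

theorem norm_w0 {r : Fin (d + 2) → ℝ} (hr : Rad A g N r) (θ : Fin (d + 1) → ℝ) :
    ‖w0 r θ‖ = r 0 := by
  have h1 : -(∑ l, (θ l : ℂ)) * Complex.I = ((-∑ l, θ l : ℝ) : ℂ) * Complex.I := by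
    push_cast
    ring
  rw [w0, norm_mul, h1, Complex.norm_exp_ofReal_mul_I, mul_one, Complex.norm_real,
    Real.norm_of_nonneg (hr.pos 0).le]

theorem norm_w1 {r : Fin (d + 2) → ℝ} (hr : Rad A g N r) (j : Fin (d + 1)) (t : ℝ) :
    ‖w1 r j t‖ = r j.succ := by
  rw [w1, norm_mul, Complex.norm_exp_ofReal_mul_I, mul_one, Complex.norm_real,
    Real.norm_of_nonneg (hr.pos j.succ).le]

end P4a177f
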