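import Pool.Agent.Lib.P4a177f.CritF

/-!
# Smoothness above the conifold

At a singular point `f_s'(x_s) = 0` and `f_s(x_s) ≠ 0` for all `s`; this is impossible if some
`A.m s = 0` (`sum_ne_zero`); otherwise `‖f_s(x_s)‖ ≥ RR (g s) (A.m s + 1)` (`crit_boundF`), so
`1 = N ∏ ‖f_s(x_s)‖ ≥ N ∏ RR = N ∏ (g^(m+1) 2^(m-3)) / 4^(d+2) > 1`.
`not_smooth`: at the midpoints `x_s = (a_{s,0} + a_{s,1})/2` the two factors are `± D_s/2`,
`D_s = a_{s,1} - a_{s,0}`, so `f_s = -D_s^2/4` and `f_s'(x_s) = 0`.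
-/

set_option autoImplicit false

namespace P4a177f

open P4a177h P4a177e

namespace SmoothFAux

open SmoothEAux

theorem rr_eq (g m : ℕ) : RR (g : ℝ) (m + 1) = ((g ^ (m + 1) * 2 ^ (m - 3) : ℕ) : ℝ) / 4 := by
  unfold RR
  have h : m + 1 - 4 = m - 3 := by omega
  rw [h]
  push_cast
  ring

theorem mid_prod (k : ℕ) (a : Fin (k + 1) → ℤ) (hk : k = 1) :
    ∏ i, (((a 0 : ℂ) + (a (Fin.last k) : ℂ)) / 2 - (a i : ℂ)) =
      -(((a (Fin.last k) - a 0) ^ 2 : ℤ) : ℂ) / 4 := by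
  subst hk
  rw [Fin.prod_univ_two]
  have h : (Fin.last 1 : Fin (1 + 1)) = 1 := rfl
  rw [h]
  push_cast
  ring

theorem mid_sum (k : ℕ) (a : Fin (k + 1) → ℤ) (hk : k = 1) :
    ∑ i, ∏ j ∈ Finset.univ.erase i,
      (((a 0 : ℂ) + (a (Fin.last k) : ℂ)) / 2 - (a j : ℂ)) = 0 := by
  subst hk
  have h : (Fin.last 1 : Fin (1 + 1)) = 1 := rfl
  have e0 : (Finset.univ : Finset (Fin (1 + 1))).erase 0 = {1} := by decide
  have e1 : (Finset.univ : Finset (Fin (1 + 1))).erase 1 = {0} := by decide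
  rw [Fin.sum_univ_two, e0, e1, Finset.prod_singleton, Finset.prod_singleton, h]
  ring

end SmoothFAux

open SmoothEAux SmoothFAux

theorem smoothF {d : ℕ} (A : Fam d) (g : Fin (d + 2) → ℕ) (N : ℕ) (hg : ∀ s, 1 ≤ g s)
    (hN : 1 ≤ N) (hgap : ∀ s i j, i ≠ j → (g s : ℤ) ≤ |A.a s i - A.a s j|)
    (hbig : 4 ^ (d + 2) < N * ∏ s, (g s ^ (A.m s + 1) * 2 ^ (A.m s - 3))) : Smooth A N := by
  intro x hx
  by_contra hcon
  push Not at hcon
  rw [A.aeval_eqn N x, sub_eq_zero] at hx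
  have hP0 : ∏ s, Polynomial.aeval (x s) (A.pol s) ≠ 0 := fun h => by
    rw [h, mul_zero] at hx; exact zero_ne_one hx
  have hN0 : (N : ℂ) ≠ 0 := fun h => by rw [h, zero_mul] at hx; exact zero_ne_one hx
  have hfac : ∀ t, Polynomial.aeval (x t) (A.pol t) ≠ 0 := fun t =>
    (Finset.prod_ne_zero_iff.1 hP0) t (Finset.mem_univ t)
  have hroot : ∀ s, Polynomial.aeval (x s) (Polynomial.derivative (A.pol s)) = 0 := by
    intro s
    have h1 := hcon s
    rw [A.aeval_pderiv N x s] at h1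
    rcases mul_eq_zero.1 h1 with h2 | h2
    · exact absurd h2 hN0
    · rcases mul_eq_zero.1 h2 with h3 | h3
      · exact absurd h3 (Finset.prod_ne_zero_iff.2 (fun t _ => hfac t))
      · exact h3
  have hb : ∀ s, RR (g s) (A.m s + 1) ≤ ‖Polynomial.aeval (x s) (A.pol s)‖ := by
    intro s
    have h1 := hfac s
    rw [aeval_pol] at h1 ⊢
    have h2 : ∀ i, x s ≠ (A.a s i : ℂ) := fun i h =>
      (Finset.prod_ne_zero_iff.1 h1) i (Finset.mem_univ i) (by rw [h, sub_self])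
    have h3 := hroot s
    rw [aeval_dpol, ← sum_inv_eq A s (x s) h2] at h3
    have h4 : ∑ i, 1 / (x s - (A.a s i : ℂ)) = 0 := (mul_eq_zero.1 h3).resolve_right h1
    have hm : 1 ≤ A.m s := by
      by_contra hm
      exact sum_ne_zero (A.m s) (A.a s) (x s) (by omega) h2 h4
    exact crit_boundF hm (g s) (hg s) (A.a s) (hgap s) (x s) h2 h4
  have h1 : (N : ℝ) * ∏ s, ‖Polynomial.aeval (x s) (A.pol s)‖ = 1 := by
    have h2 := congrArg norm hx
    rw [norm_mul, norm_prod, norm_one, Complex.norm_natCast] at h2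
    exact h2
  have h2 : ∏ s, RR (g s) (A.m s + 1) ≤ ∏ s, ‖Polynomial.aeval (x s) (A.pol s)‖ :=
    Finset.prod_le_prod (fun s _ => by rw [rr_eq]; positivity) (fun s _ => hb s)
  have h3 : ∏ s, RR (g s) (A.m s + 1) =
      ((∏ s, (g s ^ (A.m s + 1) * 2 ^ (A.m s - 3)) : ℕ) : ℝ) / 4 ^ (d + 2) := by
    rw [Finset.prod_congr rfl fun s _ => rr_eq (g s) (A.m s), Finset.prod_div_distrib,
      Finset.prod_const, Finset.card_univ, Fintype.card_fin, Nat.cast_prod]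
  have h4 : (N : ℝ) * ∏ s, RR (g s) (A.m s + 1) ≤ 1 := by
    rw [← h1]
    exact mul_le_mul_of_nonneg_left h2 (Nat.cast_nonneg _)
  have h5 : ((4 ^ (d + 2) : ℕ) : ℝ) <
      ((N * ∏ s, (g s ^ (A.m s + 1) * 2 ^ (A.m s - 3)) : ℕ) : ℝ) := Nat.cast_lt.2 hbig
  rw [h3, ← mul_div_assoc, div_le_one (by positivity)] at h4
  rw [Nat.cast_mul, Nat.cast_pow, Nat.cast_ofNat] at h5
  exact absurd h4 (not_le.2 h5)

/-- The condition is optimal: if all the lists have two elements, `d` is even and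
`N * ∏ (difference)^2 = 4^(d+2)`, then the hypersurface is singular. -/
theorem not_smooth {d : ℕ} (hd : Even d) (A : Fam d) (N : ℕ) (hm : ∀ s, A.m s = 1)
    (h : (N : ℤ) * ∏ s, (A.a s (Fin.last _) - A.a s 0) ^ 2 = 4 ^ (d + 2)) : ¬ Smooth A N := by
  intro hS
  have h0 : MvPolynomial.aeval
      (fun s => ((A.a s 0 : ℂ) + (A.a s (Fin.last (A.m s)) : ℂ)) / 2) (A.eqn N) = 0 := by
    rw [A.aeval_eqn, sub_eq_zero]
    have h1 : ∏ s, Polynomial.aeval
        (((A.a s 0 : ℂ) + (A.a s (Fin.last (A.m s)) : ℂ)) / 2) (A.pol s) =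
        ((∏ s, (A.a s (Fin.last (A.m s)) - A.a s 0) ^ 2 : ℤ) : ℂ) / 4 ^ (d + 2) := by
      rw [Finset.prod_congr rfl fun s _ => (aeval_pol A s _).trans
        (mid_prod (A.m s) (A.a s) (hm s)), Finset.prod_div_distrib, Finset.prod_neg,
        Finset.prod_const, Finset.card_univ, Fintype.card_fin, Int.cast_prod]
      have h2 : Even (d + 2) := hd.add (by decide)
      rw [h2.neg_one_pow, one_mul]
    rw [h1]
    have h3 : ((N : ℤ) : ℂ) * ((∏ s, (A.a s (Fin.last (A.m s)) - A.a s 0) ^ 2 : ℤ) : ℂ) =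
        4 ^ (d + 2) := by
      rw [← Int.cast_mul, h]
      push_cast
      rfl
    rw [Int.cast_natCast] at h3
    rw [← mul_div_assoc, h3, div_self (pow_ne_zero _ (by norm_num))]
  obtain ⟨s, hs⟩ := hS _ h0
  refine hs ?_
  rw [A.aeval_pderiv, aeval_dpol, mid_sum (A.m s) (A.a s) (hm s), mul_zero, mul_zero]

end P4a177f
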