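import Pool.Agent.Lib.P4a177f.FouF

/-!
# MODULE P4a177f.SumF: the sum of the errors is smaller than the main term (est. 0.8 h)

PROOF. `∑_i ∏_s |hh s (i s) p| = ∏_s ∑_k |hh s k p|` (`Finset.prod_univ_sum`, `Fintype.piFinset_univ`) `≤
∏_s (1/RR_s)^p` (`hc_bound`, strict for `p = 2`: `hc_bound_two`). So, with
`x = 1/(N ∏ RR_s) = 4^(d+2)/K < 1`, `K = N ∏ g^(m+1) 2^(m-3)`, exchanging the finite sum with the
series (`EF_summable`): `∑_i EF < ∑_{p≥1} x^p/p = -log (1 - x)` (`Real.hasSum_pow_div_log_of_abs_lt_one`,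
`Summable.tsum_lt_tsum`). `1 - x = (K - 4^(d+2))/K ≥ 1/K` (integers, `h.big`), so
`-log (1 - x) ≤ log K = log N + ∑_s ((m_s+1) log g_s + (m_s-3) log 2)` (`Real.log_prod`, `Real.log_pow`).
-/

set_option autoImplicit false

namespace P4a177f

open P4a177h P4a177e Function MeasureTheory
open scoped Real

variable {d : ℕ} {A : Fam d} {g : Fin (d + 2) → ℕ} {N : ℕ} {q : ∀ s, Fin (A.m s + 1)}

theorem log_KK (h : GoodF A g N) :
    Real.log ((N * ∏ s, (g s ^ (A.m s + 1) * 2 ^ (A.m s - 3)) : ℕ) : ℝ) =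
      Real.log N + ∑ s, BB (g s) (A.m s) := by
  have hg : ∀ s, (g s : ℝ) ≠ 0 := fun s => by
    have := h.one_le_g s
    positivity
  have hN : (N : ℝ) ≠ 0 := by
    have := h.one_le_N
    positivity
  have h2 : ∀ s, ((g s : ℝ) ^ (A.m s + 1) * 2 ^ (A.m s - 3)) ≠ 0 := fun s =>
    mul_ne_zero (pow_ne_zero _ (hg s)) (by positivity)
  push_cast
  rw [Real.log_mul hN (Finset.prod_ne_zero_iff.2 fun s _ => h2 s),
    Real.log_prod fun s _ => h2 s]
  congr 1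
  refine Finset.sum_congr rfl fun s _ => ?_
  rw [Real.log_mul (pow_ne_zero _ (hg s)) (by positivity), Real.log_pow, Real.log_pow]
  unfold BB
  push_cast
  ring

namespace SumFAux

theorem prod_RR (A : Fam d) (g : Fin (d + 2) → ℕ) (N : ℕ) :
    (N : ℝ) * ∏ s, RR (g s) (A.m s + 1) =
      ((N * ∏ s, (g s ^ (A.m s + 1) * 2 ^ (A.m s - 3)) : ℕ) : ℝ) / 4 ^ (d + 2) := by
  unfold RR
  push_cast
  rw [Finset.prod_div_distrib, Finset.prod_const, Finset.card_univ, Fintype.card_fin,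
    mul_div_assoc]

theorem neg_log_le (h : GoodF A g N) :
    -Real.log (1 - 1 / ((N : ℝ) * ∏ s, RR (g s) (A.m s + 1))) ≤
      Real.log N + ∑ s, BB (g s) (A.m s) := by
  have h1 := one_lt_prod_RR h
  rw [← log_KK h]
  have h2 := prod_RR A g N
  set K : ℕ := N * ∏ s, (g s ^ (A.m s + 1) * 2 ^ (A.m s - 3)) with hK
  rw [h2] at h1 ⊢
  have hb : 4 ^ (d + 2) < K := h.big
  have hb' : ((4 : ℝ) ^ (d + 2)) + 1 ≤ K := by exact_mod_cast hb
  have h4 : (0 : ℝ) < 4 ^ (d + 2) := by positivity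
  have hK0 : (0 : ℝ) < K := by linarith
  have h5 : 1 - 1 / ((K : ℝ) / 4 ^ (d + 2)) = (K - 4 ^ (d + 2)) / K := by
    field_simp
  rw [h5, ← Real.log_inv]
  refine Real.log_le_log (by
    refine inv_pos.2 (div_pos (by linarith) hK0)) ?_
  rw [inv_div, div_le_iff₀ (by linarith)]
  nlinarith

theorem sum_EF (h : GoodF A g N) (q : ∀ s, Fin (A.m s + 1)) :
    HasSum (fun j : ℕ => (1 / (N : ℝ)) ^ (j + 1) / ((j : ℝ) + 1) *
      ∏ s, ∑ k, |hh A q s k (j + 1)|) (∑ i, EF A N q i) := by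
  have h1 : ∀ j : ℕ, (1 / (N : ℝ)) ^ (j + 1) / ((j : ℝ) + 1) *
      ∏ s, ∑ k, |hh A q s k (j + 1)| = ∑ i : (∀ s, Fin (A.m s + 1)),
        (1 / (N : ℝ)) ^ (j + 1) / ((j : ℝ) + 1) * ∏ s, |hh A q s (i s) (j + 1)| := by
    intro j
    rw [← Finset.mul_sum, Finset.prod_univ_sum, Fintype.piFinset_univ]
  simp only [h1]
  exact hasSum_sum fun i _ => (EF_summable h i).hasSum

theorem term_le (h : GoodF A g N) (q : ∀ s, Fin (A.m s + 1)) (j : ℕ) :
    ∏ s, ∑ k, |hh A q s k (j + 1)| ≤ ∏ s, (1 / RR (g s) (A.m s + 1)) ^ (j + 1) :=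
  Finset.prod_le_prod (fun _ _ => Finset.sum_nonneg fun _ _ => abs_nonneg _)
    fun s _ => hc_bound (lst h q s) (Nat.le_add_left 1 j)

theorem term_lt (h : GoodF A g N) (q : ∀ s, Fin (A.m s + 1)) :
    ∏ s, ∑ k, |hh A q s k 2| < ∏ s, (1 / RR (g s) (A.m s + 1)) ^ 2 := by
  have hR : ∀ s, 0 < RR (g s) (A.m s + 1) := fun s => RR_pos (lst h q s)
  by_cases h0 : ∀ s, 0 < ∑ k, |hh A q s k 2|
  · exact Finset.prod_lt_prod (fun s _ => h0 s) (fun s _ => (hc_bound_two (lst h q s)).le)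
      ⟨0, Finset.mem_univ _, hc_bound_two (lst h q 0)⟩
  · push Not at h0
    obtain ⟨s, hs⟩ := h0
    have hs' : ∑ k, |hh A q s k 2| = 0 :=
      le_antisymm hs (Finset.sum_nonneg fun k _ => abs_nonneg _)
    rw [Finset.prod_eq_zero (Finset.mem_univ s) hs']
    exact Finset.prod_pos fun s _ => pow_pos (one_div_pos.2 (hR s)) 2

theorem pow_eq (A : Fam d) (g : Fin (d + 2) → ℕ) (N j : ℕ) :
    (1 / ((N : ℝ) * ∏ s, RR (g s) (A.m s + 1))) ^ (j + 1) / ((j : ℝ) + 1) =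
      (1 / (N : ℝ)) ^ (j + 1) / ((j : ℝ) + 1) * ∏ s, (1 / RR (g s) (A.m s + 1)) ^ (j + 1) := by
  rw [Finset.prod_pow, Finset.prod_div_distrib, Finset.prod_const_one, ← one_div_mul_one_div,
    mul_pow]
  ring

end SumFAux

open SumFAux

theorem sum_EF_lt (h : GoodF A g N) (q : ∀ s, Fin (A.m s + 1)) :
    ∑ i, EF A N q i < Real.log N + ∑ s, BB (g s) (A.m s) := by
  have hN : (0 : ℝ) < N := by
    have := h.one_le_N
    positivity
  have h1 := one_lt_prod_RR h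
  have hx : |1 / ((N : ℝ) * ∏ s, RR (g s) (A.m s + 1))| < 1 := by
    rw [abs_of_pos (by positivity), div_lt_one (by linarith)]
    exact h1
  refine lt_of_lt_of_le ?_ (neg_log_le h)
  refine hasSum_lt (i := 1) (fun j => ?_) ?_ (sum_EF h q)
    (Real.hasSum_pow_div_log_of_abs_lt_one hx)
  · rw [pow_eq A g N j]
    exact mul_le_mul_of_nonneg_left (term_le h q j) (by positivity)
  · have h3 := pow_eq A g N 1
    rw [h3]
    exact mul_lt_mul_of_pos_left (term_lt h q) (by positivity)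

end P4a177f
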