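import Pool.Agent.Lib.P4a177f.LstF
import Pool.Agent.Lib.P4a177f.CountF

/-!
# MODULE P4a177f.WtF: the lower bound of the weighted Laplacian of a list
-/

set_option autoImplicit false

namespace P4a177f

open P4a177h P4a177e

variable {d : ℕ} {A : Fam d} {g : Fin (d + 2) → ℕ} {N : ℕ}

namespace WtFAux

theorem lst_at (h : GoodF A g N) (s : Fin (d + 2)) (i : Fin (A.m s + 1)) :
    Lst (g s : ℝ) (fun k => (A.a s i : ℝ) - A.a s k) i where
  two_le := by have := h.one_le_m s; omega
  pos := by exact_mod_cast h.one_le_g s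
  zero := sub_self _
  gap := fun k l hkl => by
    have h1 := h.gap s l k (Ne.symm hkl)
    have h2 : ((g s : ℤ) : ℝ) ≤ ((|A.a s l - A.a s k| : ℤ) : ℝ) := by exact_mod_cast h1
    rw [Int.cast_abs, Int.cast_sub, Int.cast_natCast] at h2
    refine h2.trans (le_of_eq ?_)
    congr 1
    ring

/-- The bound for a general list. -/
theorem lst_weight {n : ℕ} {g : ℝ} {b : Fin n → ℝ} {q : Fin n} (h : Lst g b q)
    (w : Fin n → ℝ) (hw : ∀ k, k ≠ q → 0 ≤ w k ∧ w k ≤ 2) {c : ℝ}
    (hsum : ∑ k ∈ Finset.univ.erase q, w k = c) :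
    c * Real.log g + max (c - 4) 0 * Real.log 2 ≤
      ∑ k ∈ Finset.univ.erase q, w k * Real.log |b k| := by
  have hg := h.pos
  have h2 : 0 < Real.log 2 := Real.log_pos (by norm_num)
  have hk : ∀ k ∈ Finset.univ.erase q, w k * (Real.log g +
      (if |b k| < 2 * g then 0 else Real.log 2)) ≤ w k * Real.log |b k| := by
    intro k hk
    have hkq := Finset.ne_of_mem_erase hk
    refine mul_le_mul_of_nonneg_left ?_ (hw k hkq).1
    split_ifs with h3
    · rw [add_zero]
      exact Real.log_le_log hg (le_abs_b h hkq)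
    · rw [← Real.log_mul hg.ne' (by norm_num)]
      refine Real.log_le_log (by positivity) ?_
      linarith [not_lt.1 h3]
  refine le_trans ?_ (Finset.sum_le_sum hk)
  have e1 : ∑ k ∈ Finset.univ.erase q, w k * (Real.log g +
      (if |b k| < 2 * g then 0 else Real.log 2)) =
      c * Real.log g + (∑ k ∈ (Finset.univ.erase q).filter fun k => ¬ |b k| < 2 * g, w k) *
        Real.log 2 := by
    rw [← hsum, Finset.sum_mul, Finset.sum_mul, Finset.sum_filter, ← Finset.sum_add_distrib]
    refine Finset.sum_congr rfl fun k _ => ?_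
    by_cases h3 : |b k| < 2 * g
    · rw [if_pos h3, if_neg (not_not.2 h3)]
      ring
    · rw [if_neg h3, if_pos h3]
      ring
  rw [e1]
  have h4 : max (c - 4) 0 ≤
      ∑ k ∈ (Finset.univ.erase q).filter fun k => ¬ |b k| < 2 * g, w k := by
    refine max_le ?_ ?_
    · have h5 := Finset.sum_filter_add_sum_filter_not (Finset.univ.erase q)
        (fun k => |b k| < 2 * g) w
      have h6 : ∑ k ∈ (Finset.univ.erase q).filter (fun k => |b k| < 2 * g), w k ≤ 4 := by
        have h7 : ∑ k ∈ near g b q, w k ≤ (near g b q).card • (2 : ℝ) :=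
          Finset.sum_le_card_nsmul _ _ _ fun k hk =>
            (hw k (Finset.ne_of_mem_erase (Finset.mem_filter.1 hk).1)).2
        have h8 : ((near g b q).card : ℝ) ≤ 2 := by exact_mod_cast near_card h
        rw [nsmul_eq_mul] at h7
        have h9 : ∑ k ∈ (Finset.univ.erase q).filter (fun k => |b k| < 2 * g), w k =
            ∑ k ∈ near g b q, w k := rfl
        rw [h9]
        linarith
      rw [hsum] at h5
      linarith
    · exact Finset.sum_nonneg fun k hk =>
        (hw k (Finset.ne_of_mem_erase (Finset.mem_filter.1 hk).1)).1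
  have h5 := mul_le_mul_of_nonneg_right h4 h2.le
  linarith

end WtFAux

theorem weight_ge (h : GoodF A g N) (s : Fin (d + 2)) (i : Fin (A.m s + 1))
    (w : Fin (A.m s + 1) → ℝ) (hw : ∀ k, k ≠ i → 0 ≤ w k ∧ w k ≤ 2)
    (hsum : ∑ k ∈ Finset.univ.erase i, w k = A.m s + 1) :
    BB (g s) (A.m s) ≤
      ∑ k ∈ Finset.univ.erase i, w k * Real.log |(A.a s i : ℝ) - A.a s k| := by
  refine le_trans ?_ (WtFAux.lst_weight (WtFAux.lst_at h s i) w hw hsum)
  unfold BB
  have h2 : 0 < Real.log 2 := Real.log_pos (by norm_num)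
  have h3 : ((A.m s - 3 : ℕ) : ℝ) ≤ max ((A.m s : ℝ) + 1 - 4) 0 := by
    rcases le_total 3 (A.m s) with h4 | h4
    · rw [Nat.cast_sub h4]
      refine le_trans (le_of_eq ?_) (le_max_left _ _)
      push_cast
      ring
    · rw [Nat.sub_eq_zero_of_le h4, Nat.cast_zero]
      exact le_max_right _ _
  have h5 := mul_le_mul_of_nonneg_right h3 h2.le
  linarith

end P4a177f
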