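import Pool.Agent.Lib.P4a177f.DomF
import Pool.Agent.Lib.P4a177f.CountF

/-!
# The product of the near factors
-/

set_option autoImplicit false

namespace P4a177f

variable {n : ℕ} {g : ℝ} {b : Fin n → ℝ} {q : Fin n}

theorem X_add_mul_pinv {b : ℝ} (hb : b ≠ 0) :
    (PowerSeries.X + PowerSeries.C b) * pinv b = 1 := by
  ext j
  rw [add_mul, map_add, PowerSeries.coeff_C_mul, PowerSeries.coeff_one]
  rcases j with _ | j
  · rw [PowerSeries.coeff_zero_X_mul, pinv, PowerSeries.coeff_mk]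
    simp [hb]
  · rw [PowerSeries.coeff_succ_X_mul, pinv, PowerSeries.coeff_mk, PowerSeries.coeff_mk,
      if_neg (Nat.succ_ne_zero j)]
    field_simp
    ring

theorem pinv_mul_pinv {β γ : ℝ} (hβ : 0 < β) (hγ : 0 < γ) (j : ℕ) :
    |PowerSeries.coeff j (pinv β * pinv (-γ))| ≤
      (1 / (β + γ)) * (1 / β ^ (j + 1) + 1 / γ ^ (j + 1)) := by
  have h1 := X_add_mul_pinv hβ.ne'
  have h2 := X_add_mul_pinv (neg_ne_zero.2 hγ.ne')
  have h3 : PowerSeries.C (β + γ) * (pinv β * pinv (-γ)) = pinv (-γ) - pinv β := by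
    have e : (PowerSeries.C (β + γ) : PowerSeries ℝ) =
        (PowerSeries.X + PowerSeries.C β) - (PowerSeries.X + PowerSeries.C (-γ)) := by
      rw [map_add, map_neg]
      ring
    rw [e]
    linear_combination pinv (-γ) * h1 - pinv β * h2
  have h4 := congrArg (PowerSeries.coeff j) h3
  rw [PowerSeries.coeff_C_mul, map_sub] at h4
  have hs : 0 < β + γ := by linarith
  have h5 : PowerSeries.coeff j (pinv β * pinv (-γ)) =
      (1 / (β + γ)) * (PowerSeries.coeff j (pinv (-γ)) - PowerSeries.coeff j (pinv β)) := by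
    rw [← h4]
    field_simp
  rw [h5, abs_mul, abs_of_pos (one_div_pos.2 hs)]
  refine mul_le_mul_of_nonneg_left ?_ (one_div_pos.2 hs).le
  refine (abs_sub _ _).trans ?_
  rw [DomFAux.abs_coeff_pinv, DomFAux.abs_coeff_pinv, abs_neg, abs_of_pos hβ, abs_of_pos hγ]
  exact (add_comm _ _).le

theorem near_dom (h : Lst g b q) : Dom (∏ l ∈ near g b q, pinv (b l))
    (PowerSeries.C (g / g ^ (near g b q).card) * pgeo g) := by
  have hg := h.pos
  have hcoef : ∀ (a j : ℕ), PowerSeries.coeff j (PowerSeries.C (g / g ^ a) * pgeo g) =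
      (g / g ^ a) * (1 / g ^ (j + 1)) := by
    intro a j
    rw [PowerSeries.coeff_C_mul, pgeo, PowerSeries.coeff_mk]
  have hmem : ∀ k ∈ near g b q, g ≤ |b k| := by
    intro k hk
    unfold near at hk
    rw [Finset.mem_filter, Finset.mem_erase] at hk
    exact le_abs_b h hk.1.1
  have hpair : ∀ β γ : ℝ, g ≤ β → g ≤ γ → ∀ j : ℕ,
      |PowerSeries.coeff j (pinv β * pinv (-γ))| ≤ (g / g ^ 2) * (1 / g ^ (j + 1)) := by
    intro β γ hβ hγ j
    have hβ0 : 0 < β := hg.trans_le hβ
    have hγ0 : 0 < γ := hg.trans_le hγ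
    refine (pinv_mul_pinv hβ0 hγ0 j).trans ?_
    have e1 : 1 / (β + γ) ≤ 1 / (2 * g) := one_div_le_one_div_of_le (by linarith) (by linarith)
    have e2 : 1 / β ^ (j + 1) ≤ 1 / g ^ (j + 1) :=
      one_div_le_one_div_of_le (by positivity) (pow_le_pow_left₀ hg.le hβ _)
    have e3 : 1 / γ ^ (j + 1) ≤ 1 / g ^ (j + 1) :=
      one_div_le_one_div_of_le (by positivity) (pow_le_pow_left₀ hg.le hγ _)
    calc (1 / (β + γ)) * (1 / β ^ (j + 1) + 1 / γ ^ (j + 1))
        ≤ (1 / (2 * g)) * (1 / g ^ (j + 1) + 1 / g ^ (j + 1)) := by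
          refine mul_le_mul e1 (add_le_add e2 e3) (by positivity) (by positivity)
      _ = (g / g ^ 2) * (1 / g ^ (j + 1)) := by
          field_simp
          norm_num
  have hc := near_card h
  intro j
  rw [hcoef]
  obtain hc0 | hc1 | hc2 : (near g b q).card = 0 ∨ (near g b q).card = 1 ∨
      (near g b q).card = 2 := by omega
  · rw [hc0, Finset.card_eq_zero.1 hc0, Finset.prod_empty, PowerSeries.coeff_one, pow_zero,
      div_one]
    split_ifs with hj
    · rw [hj, abs_one, zero_add, pow_one, mul_one_div_cancel hg.ne']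
    · rw [abs_zero]
      positivity
  · obtain ⟨k, hk⟩ := Finset.card_eq_one.1 hc1
    rw [hc1, hk, Finset.prod_singleton, DomFAux.abs_coeff_pinv, pow_one, div_self hg.ne', one_mul]
    have h1 := hmem k (by rw [hk]; exact Finset.mem_singleton_self k)
    exact one_div_le_one_div_of_le (by positivity) (pow_le_pow_left₀ hg.le h1 _)
  · obtain ⟨k, l, hkl, hk⟩ := Finset.card_eq_two.1 hc2
    have hk1 : k ∈ near g b q := by rw [hk]; simp
    have hl1 : l ∈ near g b q := by rw [hk]; simp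
    have h1 := hmem k hk1
    have h2 := hmem l hl1
    have h3 := near_opp h hk1 hl1 hkl
    rw [hc2, hk, Finset.prod_pair hkl]
    rcases mul_neg_iff.1 h3 with ⟨h4, h5⟩ | ⟨h4, h5⟩
    · rw [abs_of_pos h4] at h1
      rw [abs_of_neg h5] at h2
      have := hpair (b k) (-b l) h1 h2 j
      rwa [neg_neg] at this
    · rw [abs_of_neg h4] at h1
      rw [abs_of_pos h5] at h2
      have := hpair (b l) (-b k) h2 h1 j
      rwa [neg_neg, mul_comm (pinv (b l))] at this

end P4a177f
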