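import Pool.Agent.Lib.P4a177f.RowA

/-!
# The logarithms and the logarithmic derivatives of the entries
-/

set_option autoImplicit false

namespace P4a177f

open P4a177h P4a177e Function MeasureTheory
open scoped Real

variable {d : ℕ} {A : Fam d} {g : Fin (d + 2) → ℕ} {N : ℕ} {q : ∀ s, Fin (A.m s + 1)}
  {r : Fin (d + 2) → ℝ}

namespace RowFAux

theorem bR_ne (h : GoodF A g N) (q : ∀ s, Fin (A.m s + 1)) (s : Fin (d + 2))
    {k : Fin (A.m s + 1)} (hk : k ≠ q s) : bR A q s k ≠ 0 :=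
  b_ne_zero (lst h q s) hk

/-- The value of the function `x - a_i` in terms of the series. -/
theorem psi_self (h : GoodF A g N) (q : ∀ s, Fin (A.m s + 1)) (s : Fin (d + 2)) (w : ℂ) :
    psi (bR A q s) (q s) w + (df A q s (q s) : ℂ) =
      w / (∏ l ∈ Finset.univ.erase (q s), (bR A q s l : ℂ)) *
        Complex.exp (ser (hh A q s (q s)) w) := by
  have h1 : (df A q s (q s) : ℂ) = 0 := by
    rw [df, sub_self, Int.cast_zero]
  rw [h1, add_zero]
  rfl

theorem psi_other (h : GoodF A g N) (q : ∀ s, Fin (A.m s + 1)) (s : Fin (d + 2)) {w : ℂ}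
    (hw : ‖w‖ < RR (g s) (A.m s + 1)) {i : Fin (A.m s + 1)} (hi : i ≠ q s) :
    psi (bR A q s) (q s) w + (df A q s i : ℂ) =
      (bR A q s i : ℂ) * Complex.exp (ser (hh A q s i) w) := by
  have h1 := psi_add (lst h q s) hw hi
  have h2 : ((bR A q s i : ℝ) : ℂ) = (df A q s i : ℂ) := by
    unfold bR
    push_cast
    rfl
  rw [← h2]
  exact h1

theorem prod_ne (h : GoodF A g N) (q : ∀ s, Fin (A.m s + 1)) (s : Fin (d + 2)) :
    (∏ l ∈ Finset.univ.erase (q s), (bR A q s l : ℂ)) ≠ 0 :=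
  Finset.prod_ne_zero_iff.2 fun _ hl =>
    Complex.ofReal_ne_zero.2 (bR_ne h q s (Finset.ne_of_mem_erase hl))

/-- The logarithm of the absolute value. -/
theorem log_self (h : GoodF A g N) (q : ∀ s, Fin (A.m s + 1)) (s : Fin (d + 2)) {w : ℂ}
    {ρ : ℝ} (hρ : 0 < ρ) (hw : ‖w‖ = ρ) (W : ℂ) :
    Real.log ‖w / (∏ l ∈ Finset.univ.erase (q s), (bR A q s l : ℂ)) * Complex.exp W‖ =
      Real.log ρ - ∑ k ∈ Finset.univ.erase (q s), Real.log |(df A q s k : ℝ)| + W.re := by
  have h0 : ‖∏ l ∈ Finset.univ.erase (q s), (bR A q s l : ℂ)‖ =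
      ∏ l ∈ Finset.univ.erase (q s), |(df A q s l : ℝ)| := by
    rw [norm_prod]
    refine Finset.prod_congr rfl fun l _ => ?_
    rw [Complex.norm_real, Real.norm_eq_abs]
    rfl
  have h1 : 0 < ∏ l ∈ Finset.univ.erase (q s), |(df A q s l : ℝ)| :=
    Finset.prod_pos fun l hl => abs_pos.2 (bR_ne h q s (Finset.ne_of_mem_erase hl))
  rw [norm_mul, norm_div, hw, h0, Complex.norm_exp, Real.log_mul (by positivity)
    (Real.exp_pos _).ne', Real.log_exp, Real.log_div hρ.ne' h1.ne', Real.log_prod]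
  intro l hl
  exact (abs_pos.2 (bR_ne h q s (Finset.ne_of_mem_erase hl))).ne'

theorem log_other (h : GoodF A g N) (q : ∀ s, Fin (A.m s + 1)) (s : Fin (d + 2))
    {i : Fin (A.m s + 1)} (hi : i ≠ q s) (W : ℂ) :
    Real.log ‖(bR A q s i : ℂ) * Complex.exp W‖ = Real.log |(df A q s i : ℝ)| + W.re := by
  have h1 : 0 < |(bR A q s i : ℝ)| := abs_pos.2 (bR_ne h q s hi)
  rw [norm_mul, Complex.norm_real, Real.norm_eq_abs, Complex.norm_exp, Real.log_mul h1.ne'
    (Real.exp_pos _).ne', Real.log_exp]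
  rfl

theorem w0_lt' (hr : Rad A g N r) (θ : Fin (d + 1) → ℝ) :
    ‖w0 r θ‖ < RR (g 0) (A.m 0 + 1) := by
  rw [norm_w0 hr]
  exact hr.lt 0

theorem w1_lt' (hr : Rad A g N r) (j : Fin (d + 1)) (t : ℝ) :
    ‖w1 r j t‖ < RR (g j.succ) (A.m j.succ + 1) := by
  rw [norm_w1 hr]
  exact hr.lt _

/-- The exponent of `w0` as a linear map. -/
noncomputable def LL (d : ℕ) : (Fin (d + 1) → ℝ) →L[ℝ] ℂ :=
  (-Complex.I) • ∑ l, Complex.ofRealCLM.comp
    (ContinuousLinearMap.proj (R := ℝ) (φ := fun _ : Fin (d + 1) => ℝ) l)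

theorem LL_apply (θ : Fin (d + 1) → ℝ) : LL d θ = -(∑ l, (θ l : ℂ)) * Complex.I := by
  unfold LL
  rw [ContinuousLinearMap.smul_apply, ContinuousLinearMap.sum_apply, smul_eq_mul]
  simp only [ContinuousLinearMap.comp_apply, ContinuousLinearMap.proj_apply,
    Complex.ofRealCLM_apply]
  ring

theorem LL_single (l : Fin (d + 1)) : LL d (Pi.single l 1) = -Complex.I := by
  rw [LL_apply, Finset.sum_eq_single l]
  · rw [Pi.single_eq_same, Complex.ofReal_one]
    ring
  · intro k _ hk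
    rw [Pi.single_eq_of_ne hk, Complex.ofReal_zero]
  · intro hl
    exact absurd (Finset.mem_univ l) hl

theorem w0_hasFDerivAt (r : Fin (d + 2) → ℝ) (θ : Fin (d + 1) → ℝ) :
    HasFDerivAt (w0 r) (w0 r θ • LL d) θ := by
  have h1 := ((LL d).hasFDerivAt (x := θ)).cexp.const_mul (r 0 : ℂ)
  have e : w0 r = fun θ => (r 0 : ℂ) * Complex.exp (LL d θ) := by
    funext η
    unfold w0
    rw [LL_apply]
  rw [e]
  refine h1.congr_fderiv ?_
  rw [smul_smul]

/-- The logarithmic derivative of a product with an exponential. -/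
theorem fderiv_div {E : Type*} [NormedAddCommGroup E] [NormedSpace ℝ E] {a W : E → ℂ}
    {a' W' : E →L[ℝ] ℂ} {x : E} (ha : HasFDerivAt a a' x) (hW : HasFDerivAt W W' x)
    (h0 : a x ≠ 0) (v : E) :
    fderiv ℝ (fun x => a x * Complex.exp (W x)) x v / (a x * Complex.exp (W x)) =
      a' v / a x + W' v := by
  have h1 := (ha.mul hW.cexp).fderiv
  have h2 : (a * fun x => Complex.exp (W x)) = fun x => a x * Complex.exp (W x) := rfl
  rw [h2] at h1
  rw [h1, ContinuousLinearMap.add_apply, ContinuousLinearMap.smul_apply,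
    ContinuousLinearMap.smul_apply, ContinuousLinearMap.smul_apply, smul_eq_mul, smul_eq_mul,
    smul_eq_mul]
  have h3 := Complex.exp_ne_zero (W x)
  field_simp
  ring

/-- The derivative of a function of one coordinate. -/
theorem fderiv_proj {G : ℝ → ℂ} {G' : ℂ} {j : Fin (d + 1)} {θ : Fin (d + 1) → ℝ}
    (hG : HasDerivAt G G' (θ j)) (l : Fin (d + 1)) :
    fderiv ℝ (fun θ : Fin (d + 1) → ℝ => G (θ j)) θ (Pi.single l 1) = if l = j then G' else 0 := by
  have h2 : HasFDerivAt (fun θ : Fin (d + 1) → ℝ => θ j)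
      (ContinuousLinearMap.proj (R := ℝ) (φ := fun _ : Fin (d + 1) => ℝ) j) θ :=
    (ContinuousLinearMap.proj (R := ℝ) (φ := fun _ : Fin (d + 1) => ℝ) j).hasFDerivAt
  have h3 := (hG.differentiableAt.hasFDerivAt.comp θ h2).fderiv
  rw [show (fun θ : Fin (d + 1) → ℝ => G (θ j)) = G ∘ fun θ : Fin (d + 1) → ℝ => θ j from rfl, h3,
    ContinuousLinearMap.comp_apply, ContinuousLinearMap.proj_apply, fderiv_eq_smul_deriv, hG.deriv]
  by_cases hl : l = j
  · subst hl
    rw [if_pos rfl, Pi.single_eq_same, one_smul]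
  · rw [if_neg hl, Pi.single_eq_of_ne (Ne.symm hl), zero_smul]

theorem w1_hasDerivAt' (r : Fin (d + 2) → ℝ) (j : Fin (d + 1)) (t : ℝ) :
    HasDerivAt (w1 r j) (Complex.I * w1 r j t) t := RowAAux.w1_hasDerivAt r j t

end RowFAux

open RowFAux

theorem logF_zero (h : GoodF A g N) (hr : Rad A g N r) (T : TorF A N q r)
    (i : Fin (A.m 0 + 1)) (θ : Fin (d + 1) → ℝ) :
    Real.log ‖T.γ.emb θ (A.linU N 0 i : A.CoordRing N)‖ =
      cst A q r 0 i + (W0 A q r i θ).re := by
  rw [A.linU_val, T.emb_zero]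
  unfold cst W0
  by_cases hi : i = q 0
  · subst hi
    rw [if_pos rfl, psi_self h q 0, log_self h q 0 (hr.pos 0) (norm_w0 hr θ)]
  · rw [if_neg hi, psi_other h q 0 (w0_lt' hr θ) hi, log_other h q 0 hi]

theorem logF_succ (h : GoodF A g N) (hr : Rad A g N r) (T : TorF A N q r) (j : Fin (d + 1))
    (i : Fin (A.m j.succ + 1)) (θ : Fin (d + 1) → ℝ) :
    Real.log ‖T.γ.emb θ (A.linU N j.succ i : A.CoordRing N)‖ =
      cst A q r j.succ i + (V1 A q r j i (θ j)).re := by
  rw [A.linU_val, T.emb_succ]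
  unfold cst V1
  by_cases hi : i = q j.succ
  · subst hi
    rw [if_pos rfl, psi_self h q j.succ, log_self h q j.succ (hr.pos _) (norm_w1 hr j (θ j))]
  · rw [if_neg hi, psi_other h q j.succ (w1_lt' hr j (θ j)) hi, log_other h q j.succ hi]

theorem rowF_zero (h : GoodF A g N) (hr : Rad A g N r) (T : TorF A N q r)
    (i : Fin (A.m 0 + 1)) (θ : Fin (d + 1) → ℝ) (l : Fin (d + 1)) :
    dlogRow T.γ (A.linU N 0 i) θ l =
      -(dl A q 0 i : ℂ) + -Complex.I * fderiv ℝ (W0 A q r i) θ (Pi.single l 1) := by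
  have hW : HasFDerivAt (W0 A q r i) (fderiv ℝ (W0 A q r i) θ) θ :=
    ((W0_contDiff h hr i).differentiable (by norm_num) θ).hasFDerivAt
  have hw0 : w0 r θ ≠ 0 := by
    rw [← norm_ne_zero_iff, norm_w0 hr]
    exact (hr.pos 0).ne'
  unfold dlogRow dl
  by_cases hi : i = q 0
  · subst hi
    have hF : (fun θ => T.γ.emb θ (A.linU N 0 (q 0) : A.CoordRing N)) = fun θ =>
        (w0 r θ / (∏ l ∈ Finset.univ.erase (q 0), (bR A q 0 l : ℂ))) *
          Complex.exp (W0 A q r (q 0) θ) := by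
      funext η
      rw [A.linU_val, T.emb_zero, psi_self h q 0]
      rfl
    have ha : HasFDerivAt (fun θ => w0 r θ / (∏ l ∈ Finset.univ.erase (q 0), (bR A q 0 l : ℂ)))
        ((w0 r θ / (∏ l ∈ Finset.univ.erase (q 0), (bR A q 0 l : ℂ))) • LL d) θ := by
      have h1 := (w0_hasFDerivAt r θ).mul_const
        (∏ l ∈ Finset.univ.erase (q 0), (bR A q 0 l : ℂ))⁻¹
      simp only [← div_eq_mul_inv] at h1
      refine h1.congr_fderiv ?_
      rw [smul_smul, div_eq_inv_mul]
    have h2 := congrFun hF θ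
    rw [h2, hF, fderiv_div ha hW (div_ne_zero hw0 (prod_ne h q 0)),
      ContinuousLinearMap.smul_apply, LL_single, smul_eq_mul,
      mul_div_cancel_left₀ _ (div_ne_zero hw0 (prod_ne h q 0)), if_pos rfl]
    push_cast
    linear_combination Complex.I_mul_I
  · have hF : (fun θ => T.γ.emb θ (A.linU N 0 i : A.CoordRing N)) = fun θ =>
        (bR A q 0 i : ℂ) * Complex.exp (W0 A q r i θ) := by
      funext η
      rw [A.linU_val, T.emb_zero, psi_other h q 0 (w0_lt' hr η) hi]
      rfl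
    have h2 := congrFun hF θ
    rw [h2, hF, fderiv_div (a := fun _ => (bR A q 0 i : ℂ)) (hasFDerivAt_const _ θ) hW
      (Complex.ofReal_ne_zero.2 (bR_ne h q 0 hi)), if_neg hi]
    simp

theorem rowF_succ (h : GoodF A g N) (hr : Rad A g N r) (T : TorF A N q r) (j : Fin (d + 1))
    (i : Fin (A.m j.succ + 1)) (θ : Fin (d + 1) → ℝ) (l : Fin (d + 1)) :
    dlogRow T.γ (A.linU N j.succ i) θ l =
      if l = j then (dl A q j.succ i : ℂ) + -Complex.I * V1' A q r j i (θ j) else 0 := by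
  have hV := V1_hasDerivAt (q := q) h hr j i (θ j)
  have hw1 : w1 r j (θ j) ≠ 0 := by
    rw [← norm_ne_zero_iff, norm_w1 hr]
    exact (hr.pos _).ne'
  have he := Complex.exp_ne_zero (V1 A q r j i (θ j))
  unfold dlogRow dl
  by_cases hi : i = q j.succ
  · subst hi
    have hF : (fun θ => T.γ.emb θ (A.linU N j.succ (q j.succ) : A.CoordRing N)) = fun θ =>
        (fun t : ℝ => (w1 r j t / (∏ l ∈ Finset.univ.erase (q j.succ), (bR A q j.succ l : ℂ))) *
          Complex.exp (V1 A q r j (q j.succ) t)) (θ j) := by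
      funext η
      rw [A.linU_val, T.emb_succ, psi_self h q j.succ]
      rfl
    have hP := prod_ne h q j.succ
    have hG := ((w1_hasDerivAt' r j (θ j)).div_const
      (∏ l ∈ Finset.univ.erase (q j.succ), (bR A q j.succ l : ℂ))).mul hV.cexp
    have h2 := congrFun hF θ
    simp only at h2
    rw [h2, hF, fderiv_proj (G := fun t : ℝ =>
      (w1 r j t / (∏ l ∈ Finset.univ.erase (q j.succ), (bR A q j.succ l : ℂ))) *
          Complex.exp (V1 A q r j (q j.succ) t)) hG]
    by_cases hl : l = j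
    · rw [if_pos hl, if_pos hl, if_pos rfl]
      push_cast
      field_simp
      linear_combination -Complex.I_mul_I
    · rw [if_neg hl, if_neg hl]
      simp
  · have hF : (fun θ => T.γ.emb θ (A.linU N j.succ i : A.CoordRing N)) = fun θ =>
        (fun t : ℝ => (bR A q j.succ i : ℂ) * Complex.exp (V1 A q r j i t)) (θ j) := by
      funext η
      rw [A.linU_val, T.emb_succ, psi_other h q j.succ (w1_lt' hr j (η j)) hi]
      rfl
    have hB : (bR A q j.succ i : ℂ) ≠ 0 := Complex.ofReal_ne_zero.2 (bR_ne h q j.succ hi)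
    have hG := hV.cexp.const_mul (bR A q j.succ i : ℂ)
    have h2 := congrFun hF θ
    simp only at h2
    rw [h2, hF, fderiv_proj hG]
    by_cases hl : l = j
    · rw [if_pos hl, if_pos hl, if_neg hi]
      push_cast
      field_simp
      ring
    · rw [if_neg hl, if_neg hl]
      simp

end P4a177f
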