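import Pool.Agent.Lib.P4a177f.TorF

/-!
# MODULE P4a177f.RowA: the functions `W0`, `V1` on the torus

`W0 = ser (hh ..) ∘ w0` is smooth by `ser_contDiffAt` and `w0_contDiff`; the derivative of
`V1 = ser (hh ..) ∘ w1` is computed by the chain rule, its integral by the mean value property.
-/

set_option autoImplicit false

namespace P4a177f

open P4a177h P4a177e Function MeasureTheory
open scoped Real

variable {d : ℕ} {A : Fam d} {g : Fin (d + 2) → ℕ} {N : ℕ} {q : ∀ s, Fin (A.m s + 1)}
  {r : Fin (d + 2) → ℝ}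

namespace RowAAux

theorem RR_pos' (h : GoodF A g N) (q : ∀ s, Fin (A.m s + 1)) (s : Fin (d + 2)) :
    0 < RR (g s) (A.m s + 1) := RR_pos (lst h q s)

theorem w1_hasDerivAt (r : Fin (d + 2) → ℝ) (j : Fin (d + 1)) (t : ℝ) :
    HasDerivAt (w1 r j) (Complex.I * w1 r j t) t := by
  have h1 : HasDerivAt (fun t : ℝ => (t : ℂ) * Complex.I) Complex.I t := by
    simpa using (Complex.ofRealCLM.hasDerivAt (x := t)).mul_const Complex.I
  have h2 := (h1.cexp).const_mul (r j.succ : ℂ)
  refine h2.congr_deriv ?_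
  unfold w1
  ring

theorem w1_eq_circleMap (r : Fin (d + 2) → ℝ) (j : Fin (d + 1)) (t : ℝ) :
    w1 r j t = circleMap 0 (r j.succ) t := by
  unfold w1 circleMap
  rw [zero_add]

end RowAAux

open RowAAux

theorem W0_contDiff (h : GoodF A g N) (hr : Rad A g N r) (i : Fin (A.m 0 + 1)) :
    ContDiff ℝ 2 (W0 A q r i) := by
  rw [contDiff_iff_contDiffAt]
  intro θ
  have hw : ‖w0 r θ‖ < RR (g 0) (A.m 0 + 1) := by
    rw [norm_w0 hr]
    exact hr.lt 0
  have h1 : ContDiffAt ℝ 3 (ser (hh A q 0 i)) (w0 r θ) :=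
    ser_contDiffAt (RR_pos' h q 0) (hh_le h q 0 i) hw
  have h2 : ContDiffAt ℝ 3 (fun θ => ser (hh A q 0 i) (w0 r θ)) θ :=
    h1.comp θ (w0_contDiff r).contDiffAt
  exact h2.of_le (by norm_num)

theorem W0_periodic (i : Fin (A.m 0 + 1)) (θ : Fin (d + 1) → ℝ) (l : Fin (d + 1)) :
    W0 A q r i (update θ l (θ l + 2 * π)) = W0 A q r i θ := by
  unfold W0
  rw [w0_periodic]

theorem V1_hasDerivAt (h : GoodF A g N) (hr : Rad A g N r) (j : Fin (d + 1))
    (i : Fin (A.m j.succ + 1)) (t : ℝ) :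
    HasDerivAt (V1 A q r j i) (V1' A q r j i t) t := by
  have hw : ‖w1 r j t‖ < RR (g j.succ) (A.m j.succ + 1) := by
    rw [norm_w1 hr]
    exact hr.lt _
  have h1 : HasDerivAt (ser (hh A q j.succ i)) (deriv (ser (hh A q j.succ i)) (w1 r j t))
      (w1 r j t) :=
    (ser_hasDerivAt (RR_pos' h q _) (hh_le h q _ i) hw).differentiableAt.hasDerivAt
  have h2 := h1.scomp t (w1_hasDerivAt r j t)
  refine h2.congr_deriv ?_
  rw [smul_eq_mul]
  unfold V1'
  ring

theorem V1'_continuous (h : GoodF A g N) (hr : Rad A g N r) (j : Fin (d + 1))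
    (i : Fin (A.m j.succ + 1)) : Continuous (V1' A q r j i) := by
  have hc := (w1_contDiff r j).continuous
  have h1 : Continuous fun t => deriv (ser (hh A q j.succ i)) (w1 r j t) := by
    rw [continuous_iff_continuousAt]
    intro t
    have hw : ‖w1 r j t‖ < RR (g j.succ) (A.m j.succ + 1) := by
      rw [norm_w1 hr]
      exact hr.lt _
    exact ContinuousAt.comp (f := fun t => w1 r j t)
      (deriv_ser_contDiffAt (RR_pos' h q _) (hh_le h q _ i) hw).continuousAt hc.continuousAt
  unfold V1'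
  exact continuous_const.mul (hc.mul h1)

theorem V1_periodic (j : Fin (d + 1)) (i : Fin (A.m j.succ + 1)) (t : ℝ) :
    V1 A q r j i (t + 2 * π) = V1 A q r j i t := by
  unfold V1
  rw [w1_periodic]

theorem V1_int (h : GoodF A g N) (hr : Rad A g N r) (j : Fin (d + 1))
    (i : Fin (A.m j.succ + 1)) : ∫ t in Set.Icc (0 : ℝ) (2 * π), V1 A q r j i t = 0 := by
  have hlt := hr.lt j.succ
  have hpos := hr.pos j.succ
  have hcl : DiffContOnCl ℂ (ser (hh A q j.succ i)) (Metric.ball 0 |r j.succ|) := by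
    have hd := ser_differentiableOn (RR_pos' h q j.succ) (hh_le h q j.succ i)
    refine (hd.mono ?_).diffContOnCl
    refine (Metric.closure_ball_subset_closedBall).trans ?_
    rw [abs_of_pos hpos]
    exact Metric.closedBall_subset_ball hlt
  have h1 := hcl.circleAverage
  rw [ser_zero, Real.circleAverage_def] at h1
  have h2 : ∫ t in (0 : ℝ)..2 * π, V1 A q r j i t = 0 := by
    have h3 : ∫ t in (0 : ℝ)..2 * π, V1 A q r j i t =
        ∫ t in (0 : ℝ)..2 * π, ser (hh A q j.succ i) (circleMap 0 (r j.succ) t) := by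
      congr 1
      funext t
      unfold V1
      rw [w1_eq_circleMap]
    rw [h3]
    rcases smul_eq_zero.1 h1 with h4 | h4
    · exact absurd h4 (by positivity)
    · exact h4
  rw [integral_Icc_eq_integral_Ioc, ← intervalIntegral.integral_of_le (by positivity)]
  exact h2

end P4a177f
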