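import Pool.Agent.Lib.P4a177f.Defs

/-!
# MODULE P4a177f.SerF: the power series `ser c` (only Mathlib)

The terms `c_{j+1}/(j+1) w^(j+1)` have norm `≤ (‖w‖/R)^(j+1)` (geometric series); the derivative by
`hasDerivAt_tsum_of_isPreconnected`; smoothness: differentiable on the open ball, hence analytic.
-/

set_option autoImplicit false

namespace P4a177f

open Filter Topology

variable {c : ℕ → ℝ} {R : ℝ}

namespace SerFAux

/-- the bound of the terms of the derived series -/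
theorem norm_term (hR : 0 < R) (hc : ∀ j, 1 ≤ j → |c j| ≤ (1 / R) ^ j) {w : ℂ} {ρ : ℝ}
    (hw : ‖w‖ ≤ ρ) (j : ℕ) : ‖(c (j + 1) : ℂ) * w ^ j‖ ≤ 1 / R * (ρ / R) ^ j := by
  have h0 : 0 ≤ ρ := (norm_nonneg w).trans hw
  rw [norm_mul, norm_pow, Complex.norm_real, Real.norm_eq_abs]
  calc |c (j + 1)| * ‖w‖ ^ j ≤ (1 / R) ^ (j + 1) * ρ ^ j :=
        mul_le_mul (hc _ (by omega)) (pow_le_pow_left₀ (norm_nonneg w) hw j) (by positivity)
          (by positivity)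
    _ = 1 / R * (ρ / R) ^ j := by
        rw [pow_succ, div_pow, div_pow, one_pow]
        field_simp

theorem summable_term (hR : 0 < R) (hc : ∀ j, 1 ≤ j → |c j| ≤ (1 / R) ^ j) {w : ℂ}
    (hw : ‖w‖ < R) : Summable fun j : ℕ => (c (j + 1) : ℂ) * w ^ j := by
  refine Summable.of_norm_bounded (g := fun j => 1 / R * (‖w‖ / R) ^ j) ?_
    (norm_term hR hc le_rfl)
  exact (summable_geometric_of_lt_one (by positivity) ((div_lt_one hR).2 hw)).mul_left _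

theorem norm_ser (hR : 0 < R) (hc : ∀ j, 1 ≤ j → |c j| ≤ (1 / R) ^ j) {w : ℂ} (j : ℕ) :
    ‖(c (j + 1) : ℂ) / ((j : ℂ) + 1) * w ^ (j + 1)‖ ≤ ‖w‖ * (1 / R * (‖w‖ / R) ^ j) := by
  have h1 : (c (j + 1) : ℂ) / ((j : ℂ) + 1) * w ^ (j + 1) =
      w * ((c (j + 1) : ℂ) * w ^ j) / ((j : ℂ) + 1) := by
    rw [pow_succ]; ring
  have h2 : (1 : ℝ) ≤ ‖(j : ℂ) + 1‖ := by
    have : (j : ℂ) + 1 = ((j + 1 : ℕ) : ℂ) := by push_cast; ring
    rw [this, Complex.norm_natCast]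
    exact_mod_cast Nat.succ_le_succ (Nat.zero_le j)
  rw [h1, norm_div, norm_mul]
  calc ‖w‖ * ‖(c (j + 1) : ℂ) * w ^ j‖ / ‖(j : ℂ) + 1‖ ≤ ‖w‖ * ‖(c (j + 1) : ℂ) * w ^ j‖ :=
        div_le_self (by positivity) h2
    _ ≤ _ := mul_le_mul_of_nonneg_left (norm_term hR hc le_rfl j) (norm_nonneg w)

theorem summable_ser (hR : 0 < R) (hc : ∀ j, 1 ≤ j → |c j| ≤ (1 / R) ^ j) {w : ℂ}
    (hw : ‖w‖ < R) :
    Summable fun j : ℕ => (c (j + 1) : ℂ) / ((j : ℂ) + 1) * w ^ (j + 1) := by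
  refine Summable.of_norm_bounded (g := fun j => ‖w‖ * (1 / R * (‖w‖ / R) ^ j)) ?_
    (norm_ser hR hc)
  exact ((summable_geometric_of_lt_one (by positivity)
    ((div_lt_one hR).2 hw)).mul_left _).mul_left _

end SerFAux

open SerFAux

theorem ser_hasSum (hR : 0 < R) (hc : ∀ j, 1 ≤ j → |c j| ≤ (1 / R) ^ j) {w : ℂ}
    (hw : ‖w‖ < R) :
    HasSum (fun j : ℕ => (c (j + 1) : ℂ) / ((j : ℂ) + 1) * w ^ (j + 1)) (ser c w) :=
  (summable_ser hR hc hw).hasSum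

theorem ser_hasDerivAt (hR : 0 < R) (hc : ∀ j, 1 ≤ j → |c j| ≤ (1 / R) ^ j) {w : ℂ}
    (hw : ‖w‖ < R) : HasDerivAt (ser c) (∑' j : ℕ, (c (j + 1) : ℂ) * w ^ j) w := by
  obtain ⟨ρ, hwρ, hρR⟩ := exists_between hw
  have hρ0 : 0 < ρ := (norm_nonneg w).trans_lt hwρ
  have h1 : ∀ (j : ℕ) (y : ℂ), y ∈ Metric.ball (0 : ℂ) ρ →
      HasDerivAt (fun z : ℂ => (c (j + 1) : ℂ) / ((j : ℂ) + 1) * z ^ (j + 1))
        ((c (j + 1) : ℂ) * y ^ j) y := by
    intro j y _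
    have h2 := (hasDerivAt_pow (j + 1) y).const_mul ((c (j + 1) : ℂ) / ((j : ℂ) + 1))
    refine h2.congr_deriv ?_
    have h3 : ((j : ℂ) + 1) ≠ 0 := Nat.cast_add_one_ne_zero j
    push_cast
    field_simp
  exact hasDerivAt_tsum_of_isPreconnected (u := fun j => 1 / R * (ρ / R) ^ j)
    ((summable_geometric_of_lt_one (by positivity) ((div_lt_one hR).2 hρR)).mul_left _)
    Metric.isOpen_ball (convex_ball (0 : ℂ) ρ).isPreconnected h1
    (fun j y hy => norm_term hR hc (by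
      rw [Metric.mem_ball, dist_zero_right] at hy; exact hy.le) j)
    (Metric.mem_ball_self hρ0) (summable_ser hR hc (w := 0) (by simpa using hR))
    (by rw [Metric.mem_ball, dist_zero_right]; exact hwρ)

theorem ser_deriv_hasSum (hR : 0 < R) (hc : ∀ j, 1 ≤ j → |c j| ≤ (1 / R) ^ j) {w : ℂ}
    (hw : ‖w‖ < R) : HasSum (fun j : ℕ => (c (j + 1) : ℂ) * w ^ j) (deriv (ser c) w) := by
  rw [(ser_hasDerivAt hR hc hw).deriv]
  exact (summable_term hR hc hw).hasSum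

theorem ser_differentiableOn (hR : 0 < R) (hc : ∀ j, 1 ≤ j → |c j| ≤ (1 / R) ^ j) :
    DifferentiableOn ℂ (ser c) (Metric.ball 0 R) := fun w hw =>
  (ser_hasDerivAt hR hc (by
    rwa [Metric.mem_ball, dist_zero_right] at hw)).differentiableAt.differentiableWithinAt

namespace SerFAux

theorem ser_analyticAt (hR : 0 < R) (hc : ∀ j, 1 ≤ j → |c j| ≤ (1 / R) ^ j) {w : ℂ}
    (hw : ‖w‖ < R) : AnalyticAt ℂ (ser c) w :=
  (ser_differentiableOn hR hc).analyticAt (Metric.isOpen_ball.mem_nhds (by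
    rwa [Metric.mem_ball, dist_zero_right]))

end SerFAux

theorem ser_contDiffAt (hR : 0 < R) (hc : ∀ j, 1 ≤ j → |c j| ≤ (1 / R) ^ j) {w : ℂ}
    (hw : ‖w‖ < R) : ContDiffAt ℝ 3 (ser c) w :=
  (ser_analyticAt hR hc hw).contDiffAt.restrict_scalars ℝ

theorem deriv_ser_contDiffAt (hR : 0 < R) (hc : ∀ j, 1 ≤ j → |c j| ≤ (1 / R) ^ j) {w : ℂ}
    (hw : ‖w‖ < R) : ContDiffAt ℝ 3 (deriv (ser c)) w :=
  (ser_analyticAt hR hc hw).deriv.contDiffAt.restrict_scalars ℝ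

theorem ser_zero (c : ℕ → ℝ) : ser c 0 = 0 := by
  unfold ser
  simp

end P4a177f
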