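import Pool.Agent.Lib.P4a177f.LstF
import Pool.Agent.Lib.P4a177f.InvF

/-!
# MODULE P4a177f.TorF: the tori

PROOF. The point `x_0 = a_{0,q} + psi (w0 r θ)`, `x_{j+1} = a_{j+1,q} + psi (w1 r j (θ j))` satisfies
`∏_k (x_s - a_{s,k}) = w_s` (`psi_prod`, `norm_w0`, `norm_w1`, `hr.lt`), and
`N * w0 * ∏_j w1 = N ∏ r_s * exp (...) = 1`: the equation. The construction is as in
Pool/Agent/Lib/P4a177e/TorusE.lean.
-/

set_option autoImplicit false

namespace P4a177f

open P4a177h P4a177e Function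
open scoped Real

variable {d : ℕ} {A : Fam d} {g : Fin (d + 2) → ℕ} {N : ℕ}

theorem w0_contDiff (r : Fin (d + 2) → ℝ) : ContDiff ℝ 3 (w0 r) := by
  unfold w0
  have h1 : ContDiff ℝ 3 fun θ : Fin (d + 1) → ℝ => ∑ l, ((θ l : ℝ) : ℂ) :=
    ContDiff.sum fun l _ => Complex.ofRealCLM.contDiff.comp (contDiff_apply ℝ ℝ l)
  exact contDiff_const.mul (h1.neg.mul contDiff_const).cexp

theorem w0_periodic (r : Fin (d + 2) → ℝ) (θ : Fin (d + 1) → ℝ) (l : Fin (d + 1)) :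
    w0 r (update θ l (θ l + 2 * π)) = w0 r θ := by
  unfold w0
  have h1 : ∑ k, (((update θ l (θ l + 2 * π)) k : ℝ) : ℂ) = (∑ k, (θ k : ℂ)) + 2 * π := by
    rw [← Finset.add_sum_erase _ _ (Finset.mem_univ l),
      ← Finset.add_sum_erase (Finset.univ : Finset (Fin (d + 1))) (fun k => (θ k : ℂ))
        (Finset.mem_univ l), update_self]
    have h2 : ∑ k ∈ Finset.univ.erase l, (((update θ l (θ l + 2 * π)) k : ℝ) : ℂ) =
        ∑ k ∈ Finset.univ.erase l, (θ k : ℂ) :=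
      Finset.sum_congr rfl fun k hk => by rw [update_of_ne (Finset.ne_of_mem_erase hk)]
    rw [h2]
    push_cast
    ring
  rw [h1]
  have h3 : -((∑ k, (θ k : ℂ)) + 2 * π) * Complex.I =
      -(∑ k, (θ k : ℂ)) * Complex.I + -(2 * π * Complex.I) := by ring
  rw [h3, Complex.exp_add, Complex.exp_neg (2 * π * Complex.I), Complex.exp_two_pi_mul_I, inv_one,
    mul_one]

theorem w1_contDiff (r : Fin (d + 2) → ℝ) (j : Fin (d + 1)) : ContDiff ℝ 3 (w1 r j) := by
  unfold w1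
  have h1 : ContDiff ℝ 3 fun t : ℝ => (t : ℂ) := Complex.ofRealCLM.contDiff
  exact contDiff_const.mul (h1.mul contDiff_const).cexp

theorem w1_periodic (r : Fin (d + 2) → ℝ) (j : Fin (d + 1)) (t : ℝ) :
    w1 r j (t + 2 * π) = w1 r j t := by
  unfold w1
  have h1 : ((t + 2 * π : ℝ) : ℂ) * Complex.I = t * Complex.I + 2 * π * Complex.I := by
    push_cast
    ring
  rw [h1, Complex.exp_add, Complex.exp_two_pi_mul_I, mul_one]

namespace TorFAux

noncomputable section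

/-- The point of the torus. -/
def ptF (A : Fam d) (q : ∀ s, Fin (A.m s + 1)) (r : Fin (d + 2) → ℝ)
    (θ : Fin (d + 1) → ℝ) : Fin (d + 2) → ℂ :=
  Fin.cons (α := fun _ => ℂ) ((A.a 0 (q 0) : ℂ) + psi (bR A q 0) (q 0) (w0 r θ))
    (fun j : Fin (d + 1) => (A.a j.succ (q j.succ) : ℂ) +
      psi (bR A q j.succ) (q j.succ) (w1 r j (θ j)))

theorem ptF_zero (q : ∀ s, Fin (A.m s + 1)) (r : Fin (d + 2) → ℝ) (θ : Fin (d + 1) → ℝ) :
    ptF A q r θ 0 = (A.a 0 (q 0) : ℂ) + psi (bR A q 0) (q 0) (w0 r θ) := rfl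

theorem ptF_succ (q : ∀ s, Fin (A.m s + 1)) (r : Fin (d + 2) → ℝ) (θ : Fin (d + 1) → ℝ)
    (j : Fin (d + 1)) : ptF A q r θ j.succ = (A.a j.succ (q j.succ) : ℂ) +
      psi (bR A q j.succ) (q j.succ) (w1 r j (θ j)) := rfl

theorem w0_lt {r : Fin (d + 2) → ℝ} (hr : Rad A g N r) (θ : Fin (d + 1) → ℝ) :
    ‖w0 r θ‖ < RR (g 0) (A.m 0 + 1) := by
  rw [norm_w0 hr]
  exact hr.lt 0

theorem w1_lt {r : Fin (d + 2) → ℝ} (hr : Rad A g N r) (j : Fin (d + 1)) (t : ℝ) :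
    ‖w1 r j t‖ < RR (g j.succ) (A.m j.succ + 1) := by
  rw [norm_w1 hr]
  exact hr.lt j.succ

theorem ptF_contDiff (h : GoodF A g N) (q : ∀ s, Fin (A.m s + 1)) {r : Fin (d + 2) → ℝ}
    (hr : Rad A g N r) (s : Fin (d + 2)) : ContDiff ℝ 2 fun θ => ptF A q r θ s := by
  refine Fin.cases ?_ (fun j => ?_) s
  · simp only [ptF_zero]
    refine contDiff_const.add (contDiff_iff_contDiffAt.2 fun θ => ?_)
    have h1 : ContDiffAt ℝ 3 (fun θ => psi (bR A q 0) (q 0) (w0 r θ)) θ :=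
      ContDiffAt.comp θ (psi_contDiffAt (lst h q 0) (w0_lt hr θ)) (w0_contDiff r).contDiffAt
    exact h1.of_le (by norm_num)
  · simp only [ptF_succ]
    refine contDiff_const.add (contDiff_iff_contDiffAt.2 fun θ => ?_)
    have h2 : ContDiffAt ℝ 3 (fun θ : Fin (d + 1) → ℝ => w1 r j (θ j)) θ :=
      ((w1_contDiff r j).comp (contDiff_apply ℝ ℝ j)).contDiffAt
    have h1 : ContDiffAt ℝ 3 (fun θ : Fin (d + 1) → ℝ =>
        psi (bR A q j.succ) (q j.succ) (w1 r j (θ j))) θ :=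
      ContDiffAt.comp θ (psi_contDiffAt (lst h q j.succ) (w1_lt hr j (θ j))) h2
    exact h1.of_le (by norm_num)

theorem ptF_periodic (q : ∀ s, Fin (A.m s + 1)) (r : Fin (d + 2) → ℝ) (θ : Fin (d + 1) → ℝ)
    (l : Fin (d + 1)) : ptF A q r (update θ l (θ l + 2 * π)) = ptF A q r θ := by
  funext s
  refine Fin.cases ?_ (fun j => ?_) s
  · rw [ptF_zero, ptF_zero, w0_periodic]
  · rw [ptF_succ, ptF_succ]
    by_cases h : j = l
    · subst h
      rw [update_self, w1_periodic]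
    · rw [update_of_ne h]

theorem prod_w {r : Fin (d + 2) → ℝ} (hr : Rad A g N r) (θ : Fin (d + 1) → ℝ) :
    (N : ℂ) * (w0 r θ * ∏ j, w1 r j (θ j)) = 1 := by
  have h1 : (N : ℂ) * ((r 0 : ℂ) * ∏ j : Fin (d + 1), (r j.succ : ℂ)) = 1 := by
    have h2 := hr.prod
    rw [Fin.prod_univ_succ] at h2
    exact_mod_cast h2
  have h3 : Complex.exp (-(∑ l, (θ l : ℂ)) * Complex.I) *
      ∏ j, Complex.exp ((θ j : ℂ) * Complex.I) = 1 := by
    rw [← Complex.exp_sum, ← Complex.exp_add, ← Finset.sum_mul, neg_mul, neg_add_cancel,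
      Complex.exp_zero]
  unfold w0 w1
  rw [Finset.prod_mul_distrib]
  calc (N : ℂ) * ((r 0 : ℂ) * Complex.exp (-(∑ l, (θ l : ℂ)) * Complex.I) *
        ((∏ j : Fin (d + 1), (r j.succ : ℂ)) * ∏ j, Complex.exp ((θ j : ℂ) * Complex.I)))
      = ((N : ℂ) * ((r 0 : ℂ) * ∏ j : Fin (d + 1), (r j.succ : ℂ))) *
        (Complex.exp (-(∑ l, (θ l : ℂ)) * Complex.I) *
          ∏ j, Complex.exp ((θ j : ℂ) * Complex.I)) := by ring
    _ = 1 := by rw [h1, h3, one_mul]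

theorem bR_cast (q : ∀ s, Fin (A.m s + 1)) (s : Fin (d + 2)) (k : Fin (A.m s + 1)) :
    ((bR A q s k : ℝ) : ℂ) = (df A q s k : ℂ) := by
  unfold bR
  exact Complex.ofReal_intCast _

theorem ptF_eqn (h : GoodF A g N) (q : ∀ s, Fin (A.m s + 1)) {r : Fin (d + 2) → ℝ}
    (hr : Rad A g N r) (θ : Fin (d + 1) → ℝ) :
    MvPolynomial.aeval (ptF A q r θ) (A.eqn N) = 0 := by
  rw [TorusEAux.eqn_eval, Fin.prod_univ_succ]
  have e0 : ∏ i, (ptF A q r θ 0 - (A.a 0 i : ℂ)) = w0 r θ := by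
    rw [← psi_prod (lst h q 0) (w0_lt hr θ)]
    refine Finset.prod_congr rfl fun i _ => ?_
    rw [ptF_zero, bR_cast]
    unfold df
    push_cast
    ring
  have e1 : ∀ j : Fin (d + 1), ∏ i, (ptF A q r θ j.succ - (A.a j.succ i : ℂ)) =
      w1 r j (θ j) := by
    intro j
    rw [← psi_prod (lst h q j.succ) (w1_lt hr j (θ j))]
    refine Finset.prod_congr rfl fun i _ => ?_
    rw [ptF_succ, bR_cast]
    unfold df
    push_cast
    ring
  rw [e0]
  simp only [e1]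
  rw [prod_w hr, sub_self]

/-- The torus. -/
def torF (A : Fam d) (N : ℕ) (q : ∀ s, Fin (A.m s + 1)) (r : Fin (d + 2) → ℝ)
    (hz : ∀ s, ContDiff ℝ 2 fun θ => ptF A q r θ s)
    (hx : ∀ θ, MvPolynomial.aeval (ptF A q r θ) (A.eqn N) = 0) :
    Torus (d + 1) (A.CoordRing N) where
  emb θ := Est_hom A N (ptF A q r θ) (hx θ)
  contDiff f := by
    obtain ⟨P, rfl⟩ := Ideal.Quotient.mk_surjective f
    simp only [Est_hom_mk]
    induction P using MvPolynomial.induction_on with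
    | C a => simp only [MvPolynomial.aeval_C]; exact contDiff_const
    | add P Q hP hQ => simp only [map_add]; exact hP.add hQ
    | mul_X P s hP =>
      simp only [map_mul, MvPolynomial.aeval_X]
      exact hP.mul (hz s)
  periodic f θ l := by
    obtain ⟨P, rfl⟩ := Ideal.Quotient.mk_surjective f
    rw [Est_hom_mk, Est_hom_mk, ptF_periodic q]

end

end TorFAux

open TorFAux

theorem exists_torF (h : GoodF A g N) (q : ∀ s, Fin (A.m s + 1)) {r : Fin (d + 2) → ℝ}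
    (hr : Rad A g N r) : Nonempty (TorF A N q r) := by
  refine ⟨⟨torF A N q r (ptF_contDiff h q hr) (ptF_eqn h q hr), ?_, ?_⟩⟩
  · intro θ i
    show Est_hom A N (ptF A q r θ) (ptF_eqn h q hr θ) (A.lin N 0 i) = _
    rw [Est_hom_lin, ptF_zero]
    unfold df
    push_cast
    ring
  · intro θ j i
    show Est_hom A N (ptF A q r θ) (ptF_eqn h q hr θ) (A.lin N j.succ i) = _
    rw [Est_hom_lin, ptF_succ]
    unfold df
    push_cast
    ring

end P4a177f
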